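import Pool.Agent.Helper18_PP.Brg
import Pool.Agent.Helper20_PP.Rst

/-!
# Squad PP, module BRG, second part: scalars and the comparison of the pair sums
-/

open scoped BigOperators

set_option linter.unusedSectionVars false

noncomputable section

namespace Pool.Agent.PP.H18

open Pool.Agent.PP Pool.Agent.Helper51_AWC Pool.Agent.Helper79_WRA

section scal

variable {F X : Type} [Field F] [Group X] [Finite X] {Y : Subgroup X} [Y.Normal]

/-- matrices: the two forms of the scalar equation -/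
theorem scal_iff {n : ℕ} (A B : (Matrix (Fin n) (Fin n) F)ˣ) (W : Matrix (Fin n) (Fin n) F)
    (s : F) : ((A * B * A⁻¹ * B⁻¹ : (Matrix (Fin n) (Fin n) F)ˣ) : Matrix (Fin n) (Fin n) F) * W =
      Matrix.scalar (Fin n) s ↔
    W * ((A : Matrix (Fin n) (Fin n) F) * B) = s • ((B : Matrix (Fin n) (Fin n) F) * A) := by
  have hsc : Matrix.scalar (Fin n) s = s • (1 : Matrix (Fin n) (Fin n) F) := by
    rw [Matrix.scalar_apply, ← Matrix.smul_one_eq_diagonal]
  constructor
  · intro h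
    have h2 : W = s • ((B * A * B⁻¹ * A⁻¹ : (Matrix (Fin n) (Fin n) F)ˣ) :
        Matrix (Fin n) (Fin n) F) := by
      have h3 := congrArg (fun Z => ((B * A * B⁻¹ * A⁻¹ : (Matrix (Fin n) (Fin n) F)ˣ) :
        Matrix (Fin n) (Fin n) F) * Z) h
      simp only [← mul_assoc, ← Units.val_mul] at h3
      have e : B * A * B⁻¹ * A⁻¹ * A * B * A⁻¹ * B⁻¹ = 1 := by group
      rw [e, Units.val_one, one_mul, hsc, Matrix.mul_smul, mul_one] at h3
      exact h3
    rw [h2, smul_mul_assoc, ← Units.val_mul, ← Units.val_mul]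
    have e : B * A * B⁻¹ * A⁻¹ * (A * B) = B * A := by group
    rw [e, Units.val_mul]
  · intro h
    have h2 : W = s • ((B * A * B⁻¹ * A⁻¹ : (Matrix (Fin n) (Fin n) F)ˣ) :
        Matrix (Fin n) (Fin n) F) := by
      have h3 := congrArg (fun Z => Z * (((A * B)⁻¹ : (Matrix (Fin n) (Fin n) F)ˣ) :
        Matrix (Fin n) (Fin n) F)) h
      simp only [smul_mul_assoc, ← Units.val_mul, mul_assoc, mul_inv_cancel, Units.val_one,
        mul_one] at h3
      rw [h3]
      have e : B * (A * (A * B)⁻¹) = B * A * B⁻¹ * A⁻¹ := by group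
      rw [e]
    rw [h2, Matrix.mul_smul, ← Units.val_mul, hsc]
    have e : A * B * A⁻¹ * B⁻¹ * (B * A * B⁻¹ * A⁻¹) = 1 := by group
    rw [e, Units.val_one]

/-- the Brauer map does not matter in an irreducible representation -/
theorem ev_br_left {ℓ : ℕ} (hF : GoodF ℓ F) (hnls : NlsStmt) {S R : Subgroup X}
    (hloc : Loc ℓ Y R S) {n : ℕ} (ρ : ↥(Y ⊓ S) →* Matrix (Fin n) (Fin n) F) (hρ : IsIrr ρ)
    {k : X} (hk : k ∈ S) {u : X → F} (hu : ∀ m ∈ Y, ∀ h, u (m * h * m⁻¹) = u h) :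
    ev ρ (fun t : ↥(Y ⊓ S) => br R u (k * t)) = ev ρ (fun t : ↥(Y ⊓ S) => u (k * t)) := by
  classical
  have : Fact ℓ.Prime := ⟨hF.prime⟩
  have := hF.char
  -- `R` as a subgroup of `Y ⊓ S`
  let R' : Subgroup ↥(Y ⊓ S) := R.subgroupOf (Y ⊓ S)
  have hRn : ∀ g ∈ S, ∀ r ∈ R, g * r * g⁻¹ ∈ R := fun g hg r hr =>
    (Subgroup.mem_normalizer_iff.1 (hloc.norm hg) r).1 hr
  have hR'n : R'.Normal := by
    refine ⟨fun r hr g => ?_⟩
    rw [Subgroup.mem_subgroupOf] at hr ⊢
    exact hRn g g.2.2 r hr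
  have hR'p : IsPGroup ℓ R' := by
    have h1 : IsPGroup ℓ (R ⊓ (Y ⊓ S) : Subgroup X) := hloc.pgrp.to_le inf_le_left
    rw [← Subgroup.subgroupOf_map_subtype] at h1
    exact h1.of_equiv ((R.subgroupOf (Y ⊓ S)).equivMapOfInjective _
      (Y ⊓ S).subtype_injective).symm
  have htriv := (hnls ℓ F hF _ R' hR'n hR'p n ρ hρ).1
  have htriv' : ∀ r ∈ R, ∀ h : r ∈ Y ⊓ S, ρ ⟨r, h⟩ = 1 := fun r hr h =>
    htriv ⟨r, h⟩ (Subgroup.mem_subgroupOf.2 hr)
  have := Fintype.ofFinite ↥(Y ⊓ S)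
  have hRYS : ∀ r ∈ R, r ∈ Y ⊓ S := fun r hr => ⟨hloc.le hr, hloc.leS hr⟩
  -- the action of `R` on `Y ⊓ S`
  have hkr : ∀ r ∈ R, k⁻¹ * r * k ∈ R := by
    intro r hr
    have := hRn k⁻¹ (S.inv_mem hk) r hr
    rwa [inv_inv] at this
  let _ : MulAction R ↥(Y ⊓ S) :=
    { smul := fun r t => ⟨k⁻¹ * r * k, hRYS _ (hkr r r.2)⟩ * t * ⟨(r : X)⁻¹, hRYS _ (R.inv_mem r.2)⟩
      one_smul := fun t => Subtype.ext (by
        change k⁻¹ * ((1 : R) : X) * k * (t : X) * ((1 : R) : X)⁻¹ = t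
        rw [Subgroup.coe_one, mul_one, inv_mul_cancel, inv_one, mul_one, one_mul])
      mul_smul := fun r s t => Subtype.ext (by
        change k⁻¹ * ((r * s : R) : X) * k * (t : X) * ((r * s : R) : X)⁻¹ =
          k⁻¹ * (r : X) * k * (k⁻¹ * (s : X) * k * (t : X) * (s : X)⁻¹) * (r : X)⁻¹
        rw [Subgroup.coe_mul]
        group) }
  have hsm : ∀ (r : R) (t : ↥(Y ⊓ S)), r • t =
    ⟨k⁻¹ * r * k, hRYS _ (hkr r r.2)⟩ * t * ⟨(r : X)⁻¹, hRYS _ (R.inv_mem r.2)⟩ := fun _ _ => rfl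
  have hsmX : ∀ (r : R) (t : ↥(Y ⊓ S)), k * ((r • t : ↥(Y ⊓ S)) : X) = r * (k * t) * (r : X)⁻¹ := by
    intro r t
    rw [hsm]
    change k * (k⁻¹ * (r : X) * k * (t : X) * (r : X)⁻¹) = r * (k * t) * (r : X)⁻¹
    group
  have hρsm : ∀ (r : R) (t : ↥(Y ⊓ S)), ρ (r • t) = ρ t := by
    intro r t
    rw [hsm, map_mul, map_mul, htriv' _ (hkr r r.2), htriv' _ (R.inv_mem r.2), one_mul, mul_one]
  unfold ev
  rw [finsum_eq_sum_of_fintype, finsum_eq_sum_of_fintype]
  have hV : ∀ v : Matrix (Fin n) (Fin n) F, ℓ • v = 0 := by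
    intro v
    ext i j
    rw [Matrix.smul_apply, nsmul_eq_mul, CharP.cast_eq_zero, zero_mul, Matrix.zero_apply]
  have key := H74.orbit_sum (R := R) (T := ↥(Y ⊓ S)) hloc.pgrp hV
    (fun t : ↥(Y ⊓ S) => u (k * t) • ρ t) (by
      intro r t
      rw [hsmX, hu r (hloc.le r.2), hρsm])
  have hfix : ∀ t : ↥(Y ⊓ S), (∀ r : R, r • t = t) ↔
      k * (t : X) ∈ Subgroup.centralizer (R : Set X) := by
    intro t
    rw [Subgroup.mem_centralizer_iff]
    constructor
    · intro h r hr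
      have h1 := hsmX ⟨r, hr⟩ t
      rw [h ⟨r, hr⟩] at h1
      change k * (t : X) = r * (k * t) * r⁻¹ at h1
      calc r * (k * (t : X)) = r * (k * t) * r⁻¹ * r := by group
        _ = k * t * r := by rw [← h1]
    · intro h r
      apply Subtype.ext
      have h1 := hsmX r t
      have h2 := h r r.2
      have h3 : (r : X) * (k * (t : X)) * (r : X)⁻¹ = k * t := by
        rw [h2, mul_inv_cancel_right]
      rw [h3] at h1
      exact mul_left_cancel h1
  have hR0 : ∑ t : ↥(Y ⊓ S), br R u (k * t) • ρ t = ∑ t ∈ Finset.univ.filter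
      (fun t : ↥(Y ⊓ S) => ∀ r : R, r • t = t), u (k * t) • ρ t := by
    rw [Finset.sum_filter]
    refine Finset.sum_congr rfl fun t _ => ?_
    unfold br
    by_cases ht : k * (t : X) ∈ Subgroup.centralizer (R : Set X)
    · rw [if_pos ht, if_pos ((hfix t).2 ht)]
    · rw [if_neg ht, if_neg (fun h => ht ((hfix t).1 h)), zero_smul]
  rw [hR0]
  exact key.symm

theorem choose_eq {P Q : F → Prop} (h : P = Q) :
    (open Classical in if h : ∃ s, P s then h.choose else (0 : F)) =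
      (open Classical in if h : ∃ s, Q s then h.choose else (0 : F)) := by
  subst h
  rfl

end scal

section compare

variable {F X : Type} [Field F] [Group X] [Finite X] {Y : Subgroup X} [Y.Normal]

/-- IsTS and IsSC -/
theorem ts_iff {ℓ : ℕ} (hF : GoodF ℓ F) (hnls : NlsStmt) (d : Finset (Subgroup Y))
    (hloc : Loc ℓ Y (top (up d)) (stab (up d))) {x y : X} (hx : x ∈ stab (up d))
    (hy : y ∈ stab (up d)) {u : X → F} (hu : ∀ m ∈ Y, ∀ h, u (m * h * m⁻¹) = u h)
    (φ : ↥(Y ⊓ stab (up d)) → F) (v : Y → F)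
    (hv : ∀ t : Y, v t = u (x * y * x⁻¹ * y⁻¹ * t)) (s : F) :
    IsTS (stab d) (fun t => φ (stE d t)) (MulAut.conjNormal x : MulAut Y) (MulAut.conjNormal y) v s ↔
      IsSC Y (stab (up d)) (top (up d)) φ x y u s := by
  have hk : x * y * x⁻¹ * y⁻¹ ∈ stab (up d) := (stab (up d)).mul_mem ((stab (up d)).mul_mem
    ((stab (up d)).mul_mem hx hy) ((stab (up d)).inv_mem hx)) ((stab (up d)).inv_mem hy)
  constructor
  · rintro ⟨n, ρ, A, B, hρ, htr, hA, hB, hs⟩
    refine ⟨n, ρ.comp (stE d).symm.toMonoidHom, A, B, H20.irr_equiv _ hρ, ?_, ?_, ?_, ?_⟩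
    · funext t
      have := congrFun htr ((stE d).symm t)
      change tr ρ ((stE d).symm t) = φ (stE d ((stE d).symm t)) at this
      rw [MulEquiv.apply_symm_apply] at this
      exact this
    · exact ⟨A.isUnit, fun g g' h => hA _ _ (Subtype.ext (by
        rw [cj_val]
        exact h))⟩
    · exact ⟨B.isUnit, fun g g' h => hB _ _ (Subtype.ext (by
        rw [cj_val]
        exact h))⟩
    · rw [ev_br_left hF hnls hloc _ (H20.irr_equiv _ hρ) hk hu]
      have h1 := H20.ev_equiv (stE d).symm ρ (fun t : stab d => v t)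
      have h2 : (fun t : ↥(Y ⊓ stab (up d)) => (fun t : stab d => v t) ((stE d).symm t)) =
          fun t : ↥(Y ⊓ stab (up d)) => u (x * y * x⁻¹ * y⁻¹ * (t : X)) := by
        funext t
        exact hv _
      rw [h2] at h1
      rw [h1]
      exact (scal_iff A B _ s).1 hs
  · rintro ⟨n, ρ, A, B, hρ, htr, ⟨hA1, hA⟩, ⟨hB1, hB⟩, hs⟩
    obtain ⟨A, rfl⟩ := hA1
    obtain ⟨B, rfl⟩ := hB1
    refine ⟨n, ρ.comp (stE d).toMonoidHom, A, B, H20.irr_equiv _ hρ, ?_, ?_, ?_, ?_⟩
    · funext t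
      exact congrFun htr (stE d t)
    · intro g g' h
      refine hA _ _ ?_
      have h1 := congrArg (fun z : Y => (z : X)) h
      change ((g' : Y) : X) = x * ((g : Y) : X) * x⁻¹
      exact h1.trans (cj_val x _)
    · intro g g' h
      refine hB _ _ ?_
      have h1 := congrArg (fun z : Y => (z : X)) h
      change ((g' : Y) : X) = y * ((g : Y) : X) * y⁻¹
      exact h1.trans (cj_val y _)
    · rw [ev_br_left hF hnls hloc _ hρ hk hu] at hs
      rw [scal_iff]
      have h1 := H20.ev_equiv (stE d) ρ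
        (fun t : ↥(Y ⊓ stab (up d)) => u (x * y * x⁻¹ * y⁻¹ * t))
      have h2 : (fun t : stab d => (fun t : ↥(Y ⊓ stab (up d)) => u (x * y * x⁻¹ * y⁻¹ * t))
          (stE d t)) = fun t : stab d => v t := by
        funext t
        exact (hv _).symm
      rw [h2] at h1
      rw [h1]
      exact hs

theorem ts_eq {ℓ : ℕ} (hF : GoodF ℓ F) (hnls : NlsStmt) (d : Finset (Subgroup Y))
    (hloc : Loc ℓ Y (top (up d)) (stab (up d))) {x y : X} (hx : x ∈ stab (up d))
    (hy : y ∈ stab (up d)) {u : X → F} (hu : ∀ m ∈ Y, ∀ h, u (m * h * m⁻¹) = u h)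
    (φ : ↥(Y ⊓ stab (up d)) → F) (v : Y → F)
    (hv : ∀ t : Y, v t = u (x * y * x⁻¹ * y⁻¹ * t)) :
    ts (stab d) (fun t => φ (stE d t)) (MulAut.conjNormal x : MulAut Y) (MulAut.conjNormal y) v =
      sc Y (stab (up d)) (top (up d)) φ x y u :=
  choose_eq (funext fun s => propext (ts_iff hF hnls d hloc hx hy hu φ v hv s))

theorem tset_iff (d : Finset (Subgroup Y)) (f : X → F) (x y : X)
    (φ : ↥(Y ⊓ stab (up d)) → F) :
    (fun t => φ (stE d t)) ∈ tset (stab d) (fun t : Y => f t) (MulAut.conjNormal x : MulAut Y)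
      (MulAut.conjNormal y) ↔ φ ∈ phiS Y (stab (up d)) f x y := by
  unfold tset phiS
  rw [Set.mem_ofPred_eq, Set.mem_ofPred_eq, H20.IBr_equiv]
  have h1 := H20.actF_equiv (stE d) (fun t : ↥(Y ⊓ stab (up d)) => f t) φ
  have h2 : (actF (fun t : stab d => (fun t : Y => f t) t) (fun t => φ (stE d t)) =
      fun t => φ (stE d t)) ↔ actF (fun t : ↥(Y ⊓ stab (up d)) => f t) φ = φ := by
    constructor
    · intro h
      funext t
      have h3 := congrFun (h1.symm.trans h) ((stE d).symm t)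
      simp only [MulEquiv.apply_symm_apply] at h3
      exact h3
    · intro h
      refine h1.trans ?_
      rw [h]
  have h3 : ∀ z : X, (∀ h h' : stab d, ((h' : Y) : Y) = (MulAut.conjNormal z : MulAut Y) h →
      φ (stE d h') = φ (stE d h)) ↔
      ∀ n n' : ↥(Y ⊓ stab (up d)), (n' : X) = z * n * z⁻¹ → φ n' = φ n := by
    intro z
    constructor
    · intro h n n' hn
      have h4 := h ((stE d).symm n) ((stE d).symm n') (Subtype.ext (by
        rw [cj_val]
        exact hn))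
      rw [MulEquiv.apply_symm_apply, MulEquiv.apply_symm_apply] at h4
      exact h4
    · intro h n n' hn
      refine h _ _ ?_
      have h4 := congrArg (fun z : Y => (z : X)) hn
      rw [stE_val, stE_val]
      exact h4.trans (cj_val z _)
  constructor
  · rintro ⟨g1, g2, g3, g4⟩
    exact ⟨g1, h2.1 g2, (h3 x).1 g3, (h3 y).1 g4⟩
  · rintro ⟨g1, g2, g3, g4⟩
    exact ⟨g1, h2.2 g2, (h3 x).2 g3, (h3 y).2 g4⟩

/-- the contributions of a chain -/
theorem tcon_eq {ℓ : ℕ} (hF : GoodF ℓ F) (hnls : NlsStmt) (τ : F → ℂ) (d : Finset (Subgroup Y))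
    (hloc : Loc ℓ Y (top (up d)) (stab (up d))) {x y : X} (hx : x ∈ stab (up d))
    (hy : y ∈ stab (up d)) (f : X → F) {u : X → F} (hu : ∀ m ∈ Y, ∀ h, u (m * h * m⁻¹) = u h)
    (v : Y → F) (hv : ∀ t : Y, v t = u (x * y * x⁻¹ * y⁻¹ * t)) :
    tcon τ (fun t : Y => f t) (MulAut.conjNormal x : MulAut Y) (MulAut.conjNormal y) v d =
      (Nat.card ↥(Y ⊓ stab (up d)) : ℂ)⁻¹ *
        SS τ Y (stab (up d)) (top (up d)) f x y u := by
  unfold tcon SS
  rw [Nat.card_congr (stE d).toEquiv]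
  congr 1
  symm
  apply finsum_mem_eq_of_bijOn (fun φ : ↥(Y ⊓ stab (up d)) → F => fun t => φ (stE d t))
  · refine ⟨fun φ hφ => (tset_iff d f x y φ).2 hφ, ?_, ?_⟩
    · intro φ _ ψ _ h
      funext k
      have := congrFun h ((stE d).symm k)
      simp only [MulEquiv.apply_symm_apply] at this
      exact this
    · intro ψ hψ
      have h1 : ψ = fun t => (fun k => ψ ((stE d).symm k)) (stE d t) := by
        funext t
        change ψ t = ψ ((stE d).symm (stE d t))
        rw [MulEquiv.symm_apply_apply]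
      rw [h1] at hψ
      exact ⟨fun k => ψ ((stE d).symm k),
        (tset_iff d f x y (fun k => ψ ((stE d).symm k))).1 hψ, h1.symm⟩
  · intro φ _
    rw [ts_eq hF hnls d hloc hx hy hu φ v hv]

open Classical in
theorem brg (hnls : NlsStmt) (hlct : LctStmt) (hxfs : XfsStmt) : BrgStmt := by
  intro ℓ F _ hF τ _ X _ _ Y _ f hf x y
  refine ⟨fun u u' hu => ⟨⟨hf.blk, ?_, ?_, ?_⟩, ?_⟩, fun w wi hw => ?_⟩
  · intro t
    change f ((MulAut.conjNormal x t : Y) : X) = f t
    rw [cj_val, hf.cl]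
  · intro t
    change f ((MulAut.conjNormal y t : Y) : X) = f t
    rw [cj_val, hf.cl]
  · rw [kap_cj]
    exact unt_of_unit hf hu ((hxfs ℓ F hF X Y inferInstance f hf).2.2.2.1 _ _ _ hu).1
  · unfold DJ DD
    refine finsum_congr fun n => finsum_congr fun m => ?_
    symm
    refine Finset.sum_bij (fun d _ => up d) ?_ ?_ ?_ ?_
    · intro d hd
      rw [Finset.mem_filter] at hd ⊢
      rw [up_chain, up_normal, mem_stab_up, mem_stab_up, ← tw_cj, ← tw_cj]
      exact hd
    · intro d _ d' _ h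
      exact up_inj h
    · intro t ht
      rw [Finset.mem_filter] at ht
      obtain ⟨d, rfl⟩ := up_surj ht.1
      refine ⟨d, ?_, rfl⟩
      rw [Finset.mem_filter]
      rw [up_chain, up_normal, mem_stab_up, mem_stab_up, ← tw_cj, ← tw_cj] at ht
      exact ht
    · intro d hd
      rw [Finset.mem_filter] at hd
      obtain ⟨hd1, hd2, hd3, hd4⟩ := hd
      rw [tw_cj, ← mem_stab_up] at hd3 hd4
      have hloc := hlct ℓ X Y hF.prime (up d) ((up_chain d).2 hd1) ((up_normal d).2 hd2)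
      have e1 := tcon_eq hF hnls τ d hloc hd3 hd4 f hu.left.inv
        (fun t : Y => (fun t : Y => u (x * y * x⁻¹ * y⁻¹ * t)) (cc (MulAut.conjNormal x : MulAut Y)
          (MulAut.conjNormal y) n m * t)) (by
          intro t
          change u (x * y * x⁻¹ * y⁻¹ * ((cc (MulAut.conjNormal x : MulAut Y)
            (MulAut.conjNormal y) n m * t : Y) : X)) = _
          rw [Subgroup.coe_mul, cc_cj]
          congr 1
          group)
      rw [up_card, tw_cj, tw_cj]
      refine Eq.trans (congrArg (fun c => (-1 : ℂ) ^ (d.card + 1) * c) e1) ?_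
      ring
  · have hw' := hw.unt
    rw [kap_cj] at hw'
    exact unit_of_unt hf hw'

end compare

end Pool.Agent.PP.H18
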