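import Pool.Agent.Helper98_PP.StmtsR2b

/-!
# Squad PP, part CYD: direct powers with a cyclic shift

Text: `AWC_R2.md`, R2.5.  The statements of the modules BXH, BIJ, CON, SHS, TEN, CCP, OPS, CNT, PBK
which together give `CydStmt`.
-/

open scoped BigOperators

noncomputable section

namespace Pool.Agent.PP

open Pool.Agent.Helper51_AWC Pool.Agent.Helper79_WRA

section defs

variable {F K : Type} [Field F] [Group K]

/-- the power `E^(p+1)` -/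
def pwS (p : ℕ) (E : Subgroup K) : Subgroup (Fin (p + 1) → K) := Subgroup.pi Set.univ fun _ => E

/-- the product of the projections -/
def boxS {p : ℕ} (D : Subgroup (Fin (p + 1) → K)) : Subgroup (Fin (p + 1) → K) :=
  Subgroup.pi Set.univ fun j => D.map (Pi.evalMonoidHom (fun _ => K) j)

open Classical in
/-- the chain of the powers of the members of `e` -/
def pwC (p : ℕ) (e : Finset (Subgroup K)) : Finset (Subgroup (Fin (p + 1) → K)) := e.image (pwS p)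

/-- the function `ψ(x₀) ⋯ ψ(x_p)` -/
def pwF {p : ℕ} {X : Subgroup K} (ψ : X → F) (X' : Subgroup (Fin (p + 1) → K)) : X' → F :=
  fun x => ∏ j, ext0 X ψ ((x : Fin (p + 1) → K) j)

/-- the data of CYD -/
structure PowD (p : ℕ) (f₀ : K → F) (αs : Fin (p + 1) → MulAut K) (β₀ : MulAut K)
    (α β : MulAut (Fin (p + 1) → K)) (κ : Fin (p + 1) → MulAut K)
    (w wi : Fin (p + 1) → K → F) : Prop where
  blk : IsBlk f₀
  fa : ∀ j y, f₀ (αs j y) = f₀ y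
  fb : ∀ y, f₀ (β₀ y) = f₀ y
  al : ∀ k j, (α k) j = αs j (k j)
  sh : IsShift p β β₀
  kap : ∀ k j, (kap α β k) j = κ j (k j)
  unt : ∀ j, Unt f₀ (κ j) (w j) (wi j)

open Classical in
/-- the inner sum of the pair sum over the closed chains (right hand side of BOX) -/
def GG {Y : Type} [Group Y] (τ : F → ℂ) (ℓ : ℕ) [Finite Y] (c : Subgroup Y → Subgroup Y)
    (f : Y → F) (α β : MulAut Y) (w : Y → F) (n m : Y) : ℂ :=
  ∑ d ∈ (chainsOn (psubIn ℓ (⊤ : Subgroup Y)) ⊥).filter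
    (fun d => NormalChain d ∧ (FixC (tw α n) d ∧ FixC (tw β m) d) ∧ ∀ D ∈ d, c D = D),
      (-1) ^ (d.card + 1) * tcon τ f (tw α n) (tw β m) (fun y => w (cc α β n m * y)) d

end defs

/-- BXH: the closure `boxS` satisfies the hypotheses of BOX. -/
def BxhStmt : Prop := ∀ (ℓ : ℕ) (K : Type) [Group K] [Finite K] (p : ℕ)
  (αs : Fin (p + 1) → MulAut K) (β₀ : MulAut K) (α β : MulAut (Fin (p + 1) → K)),
  (∀ k j, (α k) j = αs j (k j)) → IsShift p β β₀ →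
  (∀ D : Subgroup (Fin (p + 1) → K), IsPGroup ℓ D → IsPGroup ℓ (boxS D)) ∧
  (∀ D : Subgroup (Fin (p + 1) → K), D ≤ boxS D) ∧
  (∀ D E : Subgroup (Fin (p + 1) → K), D ≤ E → boxS D ≤ boxS E) ∧
  (∀ D : Subgroup (Fin (p + 1) → K), boxS (boxS D) = boxS D) ∧
  boxS (⊥ : Subgroup (Fin (p + 1) → K)) = ⊥ ∧
  (∀ (n : Fin (p + 1) → K) (D : Subgroup (Fin (p + 1) → K)),
    boxS (D.map (MulAut.conj n).toMonoidHom) = (boxS D).map (MulAut.conj n).toMonoidHom) ∧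
  (∀ D : Subgroup (Fin (p + 1) → K), boxS (D.map α.toMonoidHom) = (boxS D).map α.toMonoidHom) ∧
  (∀ D : Subgroup (Fin (p + 1) → K), boxS (D.map β.toMonoidHom) = (boxS D).map β.toMonoidHom) ∧
  ∀ s : Finset (Subgroup (Fin (p + 1) → K)), (∀ E ∈ s, boxS E = E) →
    ∀ D : Subgroup (Fin (p + 1) → K), boxS D = D → (∀ E ∈ s, E ≤ D) →
      boxS (D ⊓ ⨅ E ∈ s, Subgroup.normalizer (E : Set (Fin (p + 1) → K))) =
        D ⊓ ⨅ E ∈ s, Subgroup.normalizer (E : Set (Fin (p + 1) → K))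

/-- BIJ: the closed chains fixed by the shift are the powers of the chains of `K`. -/
def BijStmt : Prop := ∀ (ℓ : ℕ) (K : Type) [Group K] [Finite K] (p : ℕ)
  (αs : Fin (p + 1) → MulAut K) (β₀ : MulAut K) (α β : MulAut (Fin (p + 1) → K)),
  (∀ k j, (α k) j = αs j (k j)) → IsShift p β β₀ →
  (∀ (μ : K), ∀ e ∈ chainsOn (psubIn ℓ (⊤ : Subgroup K)) ⊥, FixC (tw β₀ μ) e →
    pwC p e ∈ chainsOn (psubIn ℓ (⊤ : Subgroup (Fin (p + 1) → K))) ⊥ ∧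
    (∀ D ∈ pwC p e, boxS D = D) ∧ FixC (tw β (Pi.mulSingle (Fin.last p) μ)) (pwC p e)) ∧
  (∀ (μ : K), ∀ d ∈ chainsOn (psubIn ℓ (⊤ : Subgroup (Fin (p + 1) → K))) ⊥,
    (∀ D ∈ d, boxS D = D) → FixC (tw β (Pi.mulSingle (Fin.last p) μ)) d →
    ∃ e ∈ chainsOn (psubIn ℓ (⊤ : Subgroup K)) ⊥, FixC (tw β₀ μ) e ∧ pwC p e = d) ∧
  (∀ e e' : Finset (Subgroup K), pwC p e = pwC p e' → e = e') ∧
  ∀ e ∈ chainsOn (psubIn ℓ (⊤ : Subgroup K)) ⊥,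
    (pwC p e).card = e.card ∧ (NormalChain (pwC p e) ↔ NormalChain e) ∧
    stab (pwC p e) = pwS p (stab e) ∧
    ∀ n : Fin (p + 1) → K, FixC (tw α n) (pwC p e) ↔ ∀ j, FixC (tw (αs j) (n j)) e

/-- CON: the inner sum is invariant under conjugation. -/
def ConStmt : Prop := ∀ (ℓ : ℕ) (F : Type) [Field F], GoodF ℓ F → ∀ (Y : Type) [Group Y] [Finite Y]
  (c : Subgroup Y → Subgroup Y), (∀ (n : Y) (D : Subgroup Y),
    c (D.map (MulAut.conj n).toMonoidHom) = (c D).map (MulAut.conj n).toMonoidHom) →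
  ∀ (f : Y → F) (α β : MulAut Y) (w wi : Y → F), Torus f α β w wi → ∀ (τ : F → ℂ) (h n m : Y),
    GG τ ℓ c f α β w (α⁻¹ h * n * h⁻¹) (β⁻¹ h * m * h⁻¹) = GG τ ℓ c f α β w n m

/-- SHS: summation over the second variable. -/
def ShsStmt : Prop := ∀ (K : Type) [Group K] [Finite K] (p : ℕ) (β₀ : MulAut K)
  (α β : MulAut (Fin (p + 1) → K)), IsShift p β β₀ →
  ∀ G : (Fin (p + 1) → K) → (Fin (p + 1) → K) → ℂ,
  (∀ h n m, G (α⁻¹ h * n * h⁻¹) (β⁻¹ h * m * h⁻¹) = G n m) →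
    ∑ᶠ (n : Fin (p + 1) → K) (m : Fin (p + 1) → K), G n m =
      (Nat.card K : ℂ) ^ p * ∑ᶠ (n : Fin (p + 1) → K) (μ : K), G n (Pi.mulSingle (Fin.last p) μ)

/-- TEN: tensor powers of matrices and the cyclic shift. -/
def TenStmt : Prop := ∀ (F : Type) [Field F] (p n : ℕ), 0 < n →
  ∃ (N : ℕ) (Φ : (Fin (p + 1) → Matrix (Fin n) (Fin n) F) → Matrix (Fin N) (Fin N) F)
    (P : (Matrix (Fin N) (Fin N) F)ˣ), 0 < N ∧ Φ (fun _ => 1) = 1 ∧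
  (∀ a b, Φ (fun j => a j * b j) = Φ a * Φ b) ∧
  (∀ (c : Fin (p + 1) → F) a, Φ (fun j => c j • a j) = (∏ j, c j) • Φ a) ∧
  (∀ c : Fin (p + 1) → F, Φ (fun j => Matrix.scalar (Fin n) (c j)) =
    Matrix.scalar (Fin N) (∏ j, c j)) ∧
  (∀ a, (Φ a).trace = ∏ j, (a j).trace) ∧
  (∀ (ι : Type) [Fintype ι] (M : Fin (p + 1) → ι → Matrix (Fin n) (Fin n) F),
    Φ (fun j => ∑ i, M j i) = ∑ i : Fin (p + 1) → ι, Φ (fun j => M j (i j))) ∧
  (∀ S : Set (Matrix (Fin n) (Fin n) F), Submodule.span F S = ⊤ →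
    Submodule.span F (Φ '' {a | ∀ j, a j ∈ S}) = ⊤) ∧
  ∀ a, (P : Matrix (Fin N) (Fin N) F) * Φ a =
    Φ (Fin.cons (α := fun _ => Matrix (Fin n) (Fin n) F) (a (Fin.last p))
      (fun j : Fin p => a j.castSucc)) * P

/-- CCP: the characters. -/
def CcpStmt : Prop := ∀ (ℓ : ℕ) [Fact ℓ.Prime] (F : Type) [Field F], GoodF ℓ F →
  ∀ (K : Type) [Group K] [Finite K] (p : ℕ) (f₀ : K → F) (αs : Fin (p + 1) → MulAut K)
  (β₀ : MulAut K) (α β : MulAut (Fin (p + 1) → K)) (κ : Fin (p + 1) → MulAut K)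
  (w wi : Fin (p + 1) → K → F), PowD p f₀ αs β₀ α β κ w wi →
  ∀ e ∈ chainsOn (psubIn ℓ (⊤ : Subgroup K)) ⊥, NormalChain e → ∀ (n : Fin (p + 1) → K) (μ : K),
  (∀ j, FixC (tw (αs j) (n j)) e) → FixC (tw β₀ μ) e →
  Set.BijOn (fun ψ : stab e → F => pwF ψ (stab (pwC p e)))
    {ψ | ψ ∈ tset (stab e) f₀ (tw (αs 0) (n 0)) (tw β₀ μ) ∧
      ∀ j, ∀ h h' : stab e, (h' : K) = tw (αs j) (n j) h → ψ h' = ψ h}
    (tset (stab (pwC p e)) (fun k => ∏ j, f₀ (k j)) (tw α n)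
      (tw β (Pi.mulSingle (Fin.last p) μ)))

/-- OPS: the scalars. -/
def OpsStmt : Prop := ∀ (ℓ : ℕ) [Fact ℓ.Prime] (F : Type) [Field F], GoodF ℓ F →
  ∀ (K : Type) [Group K] [Finite K] (p : ℕ) (f₀ : K → F) (αs : Fin (p + 1) → MulAut K)
  (β₀ : MulAut K) (α β : MulAut (Fin (p + 1) → K)) (κ : Fin (p + 1) → MulAut K)
  (w wi : Fin (p + 1) → K → F), PowD p f₀ αs β₀ α β κ w wi →
  ∃ W₀ Wi₀ : K → F, Torus f₀ (αs 0) β₀ W₀ Wi₀ ∧
  ∀ e ∈ chainsOn (psubIn ℓ (⊤ : Subgroup K)) ⊥, NormalChain e → ∀ (n : Fin (p + 1) → K) (μ : K),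
  (∀ j, FixC (tw (αs j) (n j)) e) → FixC (tw β₀ μ) e →
  ∀ ψ ∈ tset (stab e) f₀ (tw (αs 0) (n 0)) (tw β₀ μ),
  (∀ j, ∀ h h' : stab e, (h' : K) = tw (αs j) (n j) h → ψ h' = ψ h) →
    ts (stab (pwC p e)) (pwF ψ (stab (pwC p e))) (tw α n) (tw β (Pi.mulSingle (Fin.last p) μ))
      (fun y => ∏ j, w j ((cc α β n (Pi.mulSingle (Fin.last p) μ) * y) j)) =
    ts (stab e) ψ (tw (αs 0) (n 0)) (tw β₀ μ) (fun y => W₀ (cc (αs 0) β₀ (n 0) μ * y))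

/-- CNT: the number of the `n_j`. -/
def CntStmt : Prop := ∀ (ℓ : ℕ) [Fact ℓ.Prime] (F : Type) [Field F], GoodF ℓ F →
  ∀ (K : Type) [Group K] [Finite K] (p : ℕ) (f₀ : K → F) (αs : Fin (p + 1) → MulAut K)
  (β₀ : MulAut K) (α β : MulAut (Fin (p + 1) → K)) (κ : Fin (p + 1) → MulAut K)
  (w wi : Fin (p + 1) → K → F), PowD p f₀ αs β₀ α β κ w wi →
  ∀ e ∈ chainsOn (psubIn ℓ (⊤ : Subgroup K)) ⊥, NormalChain e → ∀ n₀ : K,
  FixC (tw (αs 0) n₀) e → ∀ ψ ∈ IBr F (stab e), actF (fun t : stab e => f₀ t) ψ = ψ →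
  (∀ h h' : stab e, (h' : K) = tw (αs 0) n₀ h → ψ h' = ψ h) → ∀ j : Fin (p + 1),
    Nat.card {n : K // FixC (tw (αs j) n) e ∧
      ∀ h h' : stab e, (h' : K) = tw (αs j) n h → ψ h' = ψ h} = Nat.card (stab e)

/-- PBK: the block of a direct power (from PRD). -/
def PbkStmt : Prop := ∀ (ℓ : ℕ) [Fact ℓ.Prime] (F : Type) [Field F], GoodF ℓ F →
  ∀ (K : Type) [Group K] [Finite K] (p : ℕ) (f₀ : K → F), IsBlk f₀ →
    IsBlk (fun k : Fin (p + 1) → K => ∏ j, f₀ (k j))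

end Pool.Agent.PP
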