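import Pool.Agent.Helper18_PP.Cyv
import Pool.Agent.Helper18_PP.StmtsC

/-!
# Squad PP, module CYA: assembly of CYD
-/

open scoped BigOperators

set_option linter.unusedSectionVars false

noncomputable section

namespace Pool.Agent.PP.H18

open Pool.Agent.PP Pool.Agent.Helper51_AWC Pool.Agent.Helper79_WRA

section pure

open Classical in
theorem fs {X : Type} (IB : Finset X) (T : Set X) (hT : ∀ ψ ∈ T, ψ ∈ IB) (θ : X → ℂ) :
    ∑ᶠ ψ ∈ T, θ ψ = ∑ ψ ∈ IB, if ψ ∈ T then θ ψ else 0 := by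
  rw [← Finset.sum_filter, ← finsum_mem_coe_finset]
  have h : T = ((IB.filter fun ψ => ψ ∈ T : Finset X) : Set X) := by
    ext ψ
    simp only [Finset.coe_filter, Set.mem_ofPred_eq]
    exact ⟨fun h => ⟨hT ψ h, h⟩, fun h => h.2⟩
  rw [← h]

open Classical in
/-- summation over the coordinates `1, …, p` -/
theorem sum_cons {K : Type} [Fintype K] {p : ℕ} (u : K → ℂ) (g : Fin p → K → Prop) :
    ∑ n : Fin (p + 1) → K, (if ∀ j : Fin p, g j (n j.succ) then u (n 0) else 0) =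
      (∏ j : Fin p, (Nat.card {k // g j k} : ℂ)) * ∑ k, u k := by
  rw [← Equiv.sum_comp (Fin.consEquiv (fun _ : Fin (p + 1) => K)), Fintype.sum_prod_type]
  have h1 : ∀ j : Fin p, (Nat.card {k // g j k} : ℂ) = ∑ k : K, if g j k then (1 : ℂ) else 0 := by
    intro j
    rw [Finset.sum_boole, Nat.card_eq_fintype_card, Fintype.card_subtype]
  have h2 : (∏ j : Fin p, (Nat.card {k // g j k} : ℂ)) =
      ∑ n : Fin p → K, if ∀ j, g j (n j) then (1 : ℂ) else 0 := by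
    simp_rw [h1]
    rw [Finset.prod_univ_sum, Fintype.piFinset_univ]
    refine Finset.sum_congr rfl fun n _ => ?_
    by_cases h : ∀ j, g j (n j)
    · rw [if_pos h]
      exact Finset.prod_eq_one fun j _ => if_pos (h j)
    · rw [if_neg h]
      push Not at h
      obtain ⟨j, hj⟩ := h
      exact Finset.prod_eq_zero (Finset.mem_univ j) (if_neg hj)
  rw [h2, Finset.mul_sum]
  refine Finset.sum_congr rfl fun k _ => ?_
  rw [Finset.sum_mul]
  refine Finset.sum_congr rfl fun n _ => ?_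
  change (if ∀ j : Fin p, g j ((Fin.cons k n : Fin (p + 1) → K) j.succ) then
    u ((Fin.cons k n : Fin (p + 1) → K) 0) else 0) = _
  simp only [Fin.cons_succ, Fin.cons_zero]
  split_ifs
  · rw [one_mul]
  · rw [zero_mul]

theorem card_pwS {K : Type} [Group K] [Finite K] (p : ℕ) (E : Subgroup K) :
    Nat.card (pwS p E) = Nat.card E ^ (p + 1) := by
  have e : pwS p E ≃ (Fin (p + 1) → E) :=
    { toFun := fun x j => ⟨x.1 j, x.2 j (Set.mem_univ j)⟩
      invFun := fun x => ⟨fun j => x j, fun j _ => (x j).2⟩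
      left_inv := fun x => rfl
      right_inv := fun x => rfl }
  rw [Nat.card_congr e, Nat.card_fun, Nat.card_eq_fintype_card (α := Fin (p + 1)),
    Fintype.card_fin]

end pure

/-- the torus data of the power -/
theorem pow_torus {F K : Type} [Field F] [Group K] [Finite K] {p : ℕ} {f₀ : K → F}
    {αs : Fin (p + 1) → MulAut K} {β₀ : MulAut K} {α β : MulAut (Fin (p + 1) → K)}
    {κ : Fin (p + 1) → MulAut K} {w wi : Fin (p + 1) → K → F}
    (h : PowD p f₀ αs β₀ α β κ w wi) (hblk : IsBlk (fun k : Fin (p + 1) → K => ∏ j, f₀ (k j))) :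
    Torus (fun k : Fin (p + 1) → K => ∏ j, f₀ (k j)) α β (fun k => ∏ j, w j (k j))
      (fun k => ∏ j, wi j (k j)) := by
  refine ⟨hblk, ?_, ?_, ⟨?_, ?_, ?_, ?_, ?_⟩⟩
  · intro y
    refine Finset.prod_congr rfl fun j _ => ?_
    rw [h.al, h.fa]
  · intro y
    change ∏ j, f₀ ((β y) j) = ∏ j, f₀ (y j)
    rw [Fin.prod_univ_succ, Fin.prod_univ_castSucc, (h.sh y).1, h.fb, mul_comm]
    congr 1
    exact Finset.prod_congr rfl fun j _ => by rw [(h.sh y).2]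
  · rw [mulF_pi (fun _ => f₀) w]
    funext k
    exact Finset.prod_congr rfl fun j _ => by rw [(h.unt j).fw]
  · rw [mulF_pi (fun _ => f₀) wi]
    funext k
    exact Finset.prod_congr rfl fun j _ => by rw [(h.unt j).fwi]
  · rw [mulF_pi w wi]
    funext k
    exact Finset.prod_congr rfl fun j _ => by rw [(h.unt j).unit]
  · rw [mulF_pi wi w]
    funext k
    exact Finset.prod_congr rfl fun j _ => by rw [(h.unt j).unit']
  · intro n y
    refine Finset.prod_congr rfl fun j _ => ?_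
    have h1 : ((kap α β)⁻¹ n) j = (κ j)⁻¹ (n j) := by
      apply (κ j).injective
      rw [← h.kap, MulAut.apply_inv_self, MulAut.apply_inv_self]
    change w j (((kap α β)⁻¹ n) j * y j * (n j)⁻¹) = w j (y j)
    rw [h1, (h.unt j).comm]

open Classical in
/-- the inner sum for `m = (1, …, 1, μ)` -/
theorem gg_eq (hbij : BijStmt) (hccp : CcpStmt) {ℓ : ℕ} [Fact ℓ.Prime] {F : Type} [Field F]
    (hF : GoodF ℓ F) {K : Type} [Group K] [Finite K] {p : ℕ} {f₀ : K → F}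
    {αs : Fin (p + 1) → MulAut K} {β₀ : MulAut K} {α β : MulAut (Fin (p + 1) → K)}
    {κ : Fin (p + 1) → MulAut K} {w wi : Fin (p + 1) → K → F}
    (h : PowD p f₀ αs β₀ α β κ w wi) (τ : F → ℂ) {W₀ : K → F}
    (hts : ∀ e ∈ chainsOn (psubIn ℓ (⊤ : Subgroup K)) ⊥, NormalChain e →
      ∀ (n : Fin (p + 1) → K) (μ : K),
      (∀ j, FixC (tw (αs j) (n j)) e) → FixC (tw β₀ μ) e →
      ∀ ψ ∈ tset (stab e) f₀ (tw (αs 0) (n 0)) (tw β₀ μ),
      (∀ j, ∀ h h' : stab e, (h' : K) = tw (αs j) (n j) h → ψ h' = ψ h) →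
        ts (stab (pwC p e)) (pwF ψ (stab (pwC p e))) (tw α n)
          (tw β (Pi.mulSingle (Fin.last p) μ))
          (fun y => ∏ j, w j ((cc α β n (Pi.mulSingle (Fin.last p) μ) * y) j)) =
        ts (stab e) ψ (tw (αs 0) (n 0)) (tw β₀ μ) (fun y => W₀ (cc (αs 0) β₀ (n 0) μ * y)))
    (n : Fin (p + 1) → K) (μ : K) :
    GG τ ℓ boxS (fun k : Fin (p + 1) → K => ∏ j, f₀ (k j)) α β (fun k => ∏ j, w j (k j)) n
      (Pi.mulSingle (Fin.last p) μ) =
    ∑ e ∈ (chainsOn (psubIn ℓ (⊤ : Subgroup K)) ⊥).filter (fun e => NormalChain e ∧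
      (∀ j, FixC (tw (αs j) (n j)) e) ∧ FixC (tw β₀ μ) e), (-1 : ℂ) ^ (e.card + 1) *
      (((Nat.card (stab e) : ℂ) ^ (p + 1))⁻¹ *
      ∑ᶠ ψ ∈ {ψ | ψ ∈ tset (stab e) f₀ (tw (αs 0) (n 0)) (tw β₀ μ) ∧
        ∀ j, ∀ h h' : stab e, (h' : K) = tw (αs j) (n j) h → ψ h' = ψ h},
        τ (ts (stab e) ψ (tw (αs 0) (n 0)) (tw β₀ μ)
          (fun y => W₀ (cc (αs 0) β₀ (n 0) μ * y)))) := by
  obtain ⟨b1, b2, b3, b4⟩ := hbij ℓ K p αs β₀ α β h.al h.sh
  unfold GG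
  symm
  refine Finset.sum_bij (fun e _ => pwC p e) ?_ ?_ ?_ ?_
  · intro e he
    rw [Finset.mem_filter] at he ⊢
    obtain ⟨he1, he2, he3, he4⟩ := he
    obtain ⟨c1, c2, c3⟩ := b1 μ e he1 he4
    obtain ⟨d1, d2, d3, d4⟩ := b4 e he1
    exact ⟨c1, d2.2 he2, ⟨(d4 n).2 he3, c3⟩, c2⟩
  · intro e _ e' _ hee
    exact b3 e e' hee
  · intro d hd
    rw [Finset.mem_filter] at hd
    obtain ⟨hd1, hd2, ⟨hd3, hd4⟩, hd5⟩ := hd
    obtain ⟨e, he1, he2, rfl⟩ := b2 μ d hd1 hd5 hd4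
    obtain ⟨d1, d2, d3, d4⟩ := b4 e he1
    refine ⟨e, ?_, rfl⟩
    rw [Finset.mem_filter]
    exact ⟨he1, d2.1 hd2, (d4 n).1 hd3, he2⟩
  · intro e he
    rw [Finset.mem_filter] at he
    obtain ⟨he1, he2, he3, he4⟩ := he
    obtain ⟨d1, d2, d3, d4⟩ := b4 e he1
    rw [d1]
    refine congrArg (fun c => (-1 : ℂ) ^ (e.card + 1) * c) ?_
    unfold tcon
    have hcard : (Nat.card (stab (pwC p e)) : ℂ) = (Nat.card (stab e) : ℂ) ^ (p + 1) := by
      rw [d3, card_pwS]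
      push_cast
      rfl
    rw [hcard]
    refine congrArg (fun c => ((Nat.card (stab e) : ℂ) ^ (p + 1))⁻¹ * c) ?_
    refine finsum_mem_eq_of_bijOn (fun ψ : stab e → F => pwF ψ (stab (pwC p e)))
      (hccp ℓ F hF K p f₀ αs β₀ α β κ w wi h e he1 he2 n μ he3 he4) ?_
    rintro ψ ⟨hψ1, hψ2⟩
    exact congrArg τ (hts e he1 he2 n μ he3 he4 ψ hψ1 hψ2).symm

open Classical in
/-- the summation over `n₁, …, n_p` for fixed `e` and `μ` -/
theorem sum_n (hcnt : CntStmt) {ℓ : ℕ} [Fact ℓ.Prime] {F : Type} [Field F]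
    (hF : GoodF ℓ F) {K : Type} [Group K] [Fintype K] {p : ℕ} {f₀ : K → F}
    {αs : Fin (p + 1) → MulAut K} {β₀ : MulAut K} {α β : MulAut (Fin (p + 1) → K)}
    {κ : Fin (p + 1) → MulAut K} {w wi : Fin (p + 1) → K → F}
    (h : PowD p f₀ αs β₀ α β κ w wi) (μ : K) {e : Finset (Subgroup K)}
    (he : e ∈ chainsOn (psubIn ℓ (⊤ : Subgroup K)) ⊥) (hn : NormalChain e)
    (θ : K → (stab e → F) → ℂ) :
    ∑ n : Fin (p + 1) → K, (if ∀ j, FixC (tw (αs j) (n j)) e then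
      (((Nat.card (stab e) : ℂ) ^ (p + 1))⁻¹ *
      ∑ᶠ ψ ∈ {ψ | ψ ∈ tset (stab e) f₀ (tw (αs 0) (n 0)) (tw β₀ μ) ∧
        ∀ j, ∀ h h' : stab e, (h' : K) = tw (αs j) (n j) h → ψ h' = ψ h}, θ (n 0) ψ) else 0) =
    ∑ n₀ : K, (if FixC (tw (αs 0) n₀) e then ((Nat.card (stab e) : ℂ)⁻¹ *
      ∑ᶠ ψ ∈ tset (stab e) f₀ (tw (αs 0) n₀) (tw β₀ μ), θ n₀ ψ) else 0) := by
  have hib := (H20.ibf ℓ F hF (stab e)).1
  set IB := hib.toFinset with hIB
  have hmem : ∀ ψ, ψ ∈ IB ↔ ψ ∈ IBr F (stab e) := fun ψ => hib.mem_toFinset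
  set c : ℂ := (Nat.card (stab e) : ℂ) with hc
  have hc0 : c ≠ 0 := by
    rw [hc]
    exact_mod_cast Nat.card_pos.ne'
  have hL : ∀ n : Fin (p + 1) → K, (if ∀ j, FixC (tw (αs j) (n j)) e then
      ((c ^ (p + 1))⁻¹ * ∑ᶠ ψ ∈ {ψ | ψ ∈ tset (stab e) f₀ (tw (αs 0) (n 0)) (tw β₀ μ) ∧
        ∀ j, ∀ h h' : stab e, (h' : K) = tw (αs j) (n j) h → ψ h' = ψ h}, θ (n 0) ψ) else 0) =
      ∑ ψ ∈ IB, (c ^ (p + 1))⁻¹ * (if ∀ j : Fin p, FixC (tw (αs j.succ) (n j.succ)) e ∧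
        ∀ h h' : stab e, (h' : K) = tw (αs j.succ) (n j.succ) h → ψ h' = ψ h then
        (if FixC (tw (αs 0) (n 0)) e ∧ ψ ∈ tset (stab e) f₀ (tw (αs 0) (n 0)) (tw β₀ μ) then
          θ (n 0) ψ else 0) else 0) := by
    intro n
    rw [fs IB _ (fun ψ hψ => (hmem ψ).2 hψ.1.1) (θ (n 0)), Finset.mul_sum]
    by_cases hA : ∀ j, FixC (tw (αs j) (n j)) e
    · rw [if_pos hA]
      refine Finset.sum_congr rfl fun ψ _ => ?_
      congr 1
      by_cases hT : ψ ∈ tset (stab e) f₀ (tw (αs 0) (n 0)) (tw β₀ μ)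
      · by_cases hS : ∀ j, ∀ h h' : stab e, (h' : K) = tw (αs j) (n j) h → ψ h' = ψ h
        · rw [if_pos ⟨hT, hS⟩, if_pos fun j => ⟨hA j.succ, hS j.succ⟩, if_pos ⟨hA 0, hT⟩]
        · rw [if_neg fun hc => hS hc.2, if_neg]
          intro hc
          apply hS
          intro j
          refine Fin.cases ?_ (fun i => (hc i).2) j
          exact hT.2.2.1
      · rw [if_neg fun hc => hT hc.1, if_neg (c := _ ∧ _) fun hc => hT hc.2]
        split_ifs <;> rfl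
    · rw [if_neg hA]
      symm
      apply Finset.sum_eq_zero
      intro ψ _
      by_cases h0 : FixC (tw (αs 0) (n 0)) e
      · rw [if_neg, mul_zero]
        intro hc
        apply hA
        intro j
        exact Fin.cases h0 (fun i => (hc i).1) j
      · rw [if_neg (c := _ ∧ _) fun hc => h0 hc.1]
        split_ifs <;> rw [mul_zero]
  have hR : ∀ n₀ : K, (if FixC (tw (αs 0) n₀) e then (c⁻¹ *
      ∑ᶠ ψ ∈ tset (stab e) f₀ (tw (αs 0) n₀) (tw β₀ μ), θ n₀ ψ) else 0) =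
      ∑ ψ ∈ IB, c⁻¹ * (if FixC (tw (αs 0) n₀) e ∧
        ψ ∈ tset (stab e) f₀ (tw (αs 0) n₀) (tw β₀ μ) then θ n₀ ψ else 0) := by
    intro n₀
    rw [fs IB _ (fun ψ hψ => (hmem ψ).2 hψ.1) (θ n₀), Finset.mul_sum]
    by_cases hA : FixC (tw (αs 0) n₀) e
    · rw [if_pos hA]
      refine Finset.sum_congr rfl fun ψ _ => ?_
      congr 1
      by_cases hT : ψ ∈ tset (stab e) f₀ (tw (αs 0) n₀) (tw β₀ μ)
      · rw [if_pos hT, if_pos ⟨hA, hT⟩]
      · rw [if_neg hT, if_neg fun hc => hT hc.2]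
    · rw [if_neg hA]
      symm
      apply Finset.sum_eq_zero
      intro ψ _
      rw [if_neg fun hc => hA hc.1, mul_zero]
  rw [Finset.sum_congr rfl fun n _ => hL n, Finset.sum_congr rfl fun n₀ _ => hR n₀,
    Finset.sum_comm, Finset.sum_comm (s := (Finset.univ : Finset K))]
  refine Finset.sum_congr rfl fun ψ hψ => ?_
  have key := sum_cons (fun k => if FixC (tw (αs 0) k) e ∧
    ψ ∈ tset (stab e) f₀ (tw (αs 0) k) (tw β₀ μ) then θ k ψ else 0)
    (fun j k => FixC (tw (αs (Fin.succ j)) k) e ∧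
      ∀ h h' : stab e, (h' : K) = tw (αs (Fin.succ j)) k h → ψ h' = ψ h)
  rw [← Finset.mul_sum, ← Finset.mul_sum]
  refine Eq.trans (congrArg (fun c' => (c ^ (p + 1))⁻¹ * c') (Eq.trans
    (Finset.sum_congr rfl fun n _ => ?h1) key)) ?h2
  case h1 => split_ifs <;> rfl
  by_cases hex : ∃ k, FixC (tw (αs 0) k) e ∧ ψ ∈ tset (stab e) f₀ (tw (αs 0) k) (tw β₀ μ)
  · obtain ⟨k, hk1, hk2⟩ := hex
    have h1 : ∀ j : Fin p, (Nat.card {k // FixC (tw (αs j.succ) k) e ∧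
        ∀ h h' : stab e, (h' : K) = tw (αs j.succ) k h → ψ h' = ψ h} : ℂ) = c := by
      intro j
      rw [hcnt ℓ F hF K p f₀ αs β₀ α β κ w wi h e he hn k hk1 ψ hk2.1 hk2.2.1 hk2.2.2.1 j.succ]
    rw [Finset.prod_congr rfl fun j _ => h1 j, Finset.prod_const, Finset.card_univ,
      Fintype.card_fin, ← mul_assoc]
    congr 1
    rw [pow_succ]
    field_simp
  · have h0 : ∑ k : K, (if FixC (tw (αs 0) k) e ∧
        ψ ∈ tset (stab e) f₀ (tw (αs 0) k) (tw β₀ μ) then θ k ψ else 0) = 0 := by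
      apply Finset.sum_eq_zero
      intro k _
      rw [if_neg fun hc => hex ⟨k, hc⟩]
    rw [h0, mul_zero, mul_zero, mul_zero]

open Classical in
/-- CYD. -/
theorem cyd (hbox : BoxStmt) (hbxh : BxhStmt) (hbij : BijStmt) (hcon : ConStmt) (hshs : ShsStmt)
    (hccp : CcpStmt) (hops : OpsStmt) (hcnt : CntStmt) (hpbk : PbkStmt) : CydStmt := by
  intro ℓ _ F _ hF K _ _ p f₀ αs β₀ α β hblk hfa hfb hal hsh κ hkap w wi hunt
  have hP : PowD p f₀ αs β₀ α β κ w wi := ⟨hblk, hfa, hfb, hal, hsh, hkap, hunt⟩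
  refine ⟨hpbk ℓ F hF K p f₀ hblk, fun hvan τ hτ => ?_⟩
  obtain ⟨W₀, Wi₀, hT₀, hts⟩ := hops ℓ F hF K p f₀ αs β₀ α β κ w wi hP
  have hT := pow_torus hP (hpbk ℓ F hF K p f₀ hblk)
  have := Fintype.ofFinite K
  obtain ⟨x1, x2, x3, x4, x5, x6, x7, x8, x9⟩ := hbxh ℓ K p αs β₀ α β hal hsh
  have h1 : DD τ ℓ (fun k : Fin (p + 1) → K => ∏ j, f₀ (k j)) α β (fun k => ∏ j, w j (k j)) =
      ∑ᶠ (n : Fin (p + 1) → K) (m : Fin (p + 1) → K), GG τ ℓ boxS
        (fun k : Fin (p + 1) → K => ∏ j, f₀ (k j)) α β (fun k => ∏ j, w j (k j)) n m :=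
    hbox ℓ F hF _ _ α β _ τ boxS x1 x2 x3 x4 x5 x6 x7 x8 x9
  rw [h1, hshs K p β₀ α β hsh _ fun h n m => hcon ℓ F hF _ boxS x6 _ α β _ _ hT τ h n m]
  have h2 : ∑ᶠ (n : Fin (p + 1) → K) (μ : K), GG τ ℓ boxS
      (fun k : Fin (p + 1) → K => ∏ j, f₀ (k j)) α β (fun k => ∏ j, w j (k j)) n
        (Pi.mulSingle (Fin.last p) μ) = DD τ ℓ f₀ (αs 0) β₀ W₀ := by
    rw [finsum_eq_sum_of_fintype]
    simp_rw [finsum_eq_sum_of_fintype, gg_eq hbij hccp hF hP τ hts]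
    unfold DD tcon
    rw [finsum_eq_sum_of_fintype]
    simp_rw [finsum_eq_sum_of_fintype]
    conv_lhs => rw [Finset.sum_comm]
    conv_rhs => rw [Finset.sum_comm]
    refine Finset.sum_congr rfl fun μ _ => ?_
    simp_rw [Finset.sum_filter]
    conv_lhs => rw [Finset.sum_comm]
    conv_rhs => rw [Finset.sum_comm]
    refine Finset.sum_congr rfl fun e he => ?_
    by_cases hn : NormalChain e
    · by_cases hb : FixC (tw β₀ μ) e
      · have h3 := sum_n hcnt hF hP μ he hn (fun n₀ ψ => τ (ts (stab e) ψ (tw (αs 0) n₀)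
          (tw β₀ μ) (fun y => W₀ (cc (αs 0) β₀ n₀ μ * y))))
        have h4 := congrArg (fun c => (-1 : ℂ) ^ (e.card + 1) * c) h3
        simp only [Finset.mul_sum, mul_ite, mul_zero] at h4
        simp only [hn, hb, true_and, and_true]
        exact h4
      · simp only [hb, and_false, if_false, Finset.sum_const_zero]
    · simp only [hn, false_and, if_false, Finset.sum_const_zero]
  rw [h2, hvan τ hτ W₀ Wi₀ hT₀, mul_zero]

end Pool.Agent.PP.H18
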