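import Pool.Agent.Helper17_PP.Prv
import Pool.Agent.Helper20_PP.Fun

/-!
# Squad PP, module CYV: central products of factors permuted cyclically
-/

open scoped BigOperators

set_option linter.unusedSectionVars false

noncomputable section

namespace Pool.Agent.PP.H18

open Pool.Agent.Helper51_AWC Pool.Agent.Helper79_WRA Pool.Agent.PP

section pi

variable {F K : Type} [Field F] [Group K] [Finite K] {ι : Type} [Fintype ι] [DecidableEq ι]

/-- products of functions on a direct power -/
theorem mulF_pi (a b : ι → K → F) :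
    mulF (fun k : ι → K => ∏ j, a j (k j)) (fun k : ι → K => ∏ j, b j (k j)) =
      fun k => ∏ j, mulF (a j) (b j) (k j) := by
  have := Fintype.ofFinite K
  funext k
  rw [H17.mulF_eq]
  have h1 : ∀ j, mulF (a j) (b j) (k j) = ∑ t, a j t * b j (t⁻¹ * k j) := fun j =>
    H17.mulF_eq _ _ _
  simp_rw [h1]
  rw [Finset.prod_univ_sum, Fintype.piFinset_univ]
  refine Finset.sum_congr rfl fun t _ => ?_
  rw [← Finset.prod_mul_distrib]
  rfl

open Classical in
/-- the unit element of the group algebra -/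
def dlt (x : K) : F := if x = 1 then 1 else 0

theorem mulF_dlt (a : K → F) : mulF a dlt = a := by
  have := Fintype.ofFinite K
  funext x
  rw [H17.mulF_eq, Finset.sum_eq_single x]
  · unfold dlt
    rw [if_pos (inv_mul_cancel x), mul_one]
  · intro y _ hy
    unfold dlt
    rw [if_neg, mul_zero]
    intro h
    exact hy (inv_mul_eq_one.1 h)
  · intro h
    exact absurd (Finset.mem_univ _) h

theorem dlt_mulF (a : K → F) : mulF dlt a = a := by
  have := Fintype.ofFinite K
  funext x
  rw [H17.mulF_eq, Finset.sum_eq_single 1]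
  · unfold dlt
    rw [if_pos rfl, one_mul, inv_one, one_mul]
  · intro y _ hy
    unfold dlt
    rw [if_neg hy, zero_mul]
  · intro h
    exact absurd (Finset.mem_univ _) h

/-- the product of the units -/
theorem prod_dlt : (fun k : ι → K => ∏ j, (dlt (k j) : F)) = dlt := by
  classical
  funext k
  by_cases hk : k = 1
  · subst hk
    unfold dlt
    rw [if_pos rfl]
    exact Finset.prod_eq_one fun j _ => if_pos rfl
  · have : ∃ j, k j ≠ 1 := by
      by_contra h
      push Not at h
      exact hk (funext h)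
    obtain ⟨j, hj⟩ := this
    have h1 : (dlt k : F) = 0 := if_neg hk
    rw [h1]
    exact Finset.prod_eq_zero (Finset.mem_univ j) (if_neg hj)

/-- If all coordinate idempotents act trivially on `g`, then their product does. -/
theorem prod_act (f₁ : K → F) (g : (ι → K) → F)
    (h : ∀ j, mulF (fun k : ι → K => ∏ i, (if i = j then f₁ else dlt) (k i)) g = g) :
    mulF (fun k : ι → K => ∏ i, f₁ (k i)) g = g := by
  have key : ∀ J : Finset ι,
      mulF (fun k : ι → K => ∏ i, (if i ∈ J then f₁ else dlt) (k i)) g = g := by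
    intro J
    induction J using Finset.induction_on with
    | empty =>
      have : (fun k : ι → K => ∏ i, (if i ∈ (∅ : Finset ι) then f₁ else dlt) (k i)) = dlt := by
        rw [← prod_dlt]
        rfl
      rw [this, dlt_mulF]
    | insert j J hj ih =>
      have h1 : (fun k : ι → K => ∏ i, (if i ∈ insert j J then f₁ else dlt) (k i)) =
          mulF (fun k : ι → K => ∏ i, (if i ∈ J then f₁ else dlt) (k i))
            (fun k : ι → K => ∏ i, (if i = j then f₁ else dlt) (k i)) := by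
        rw [mulF_pi]
        funext k
        refine Finset.prod_congr rfl fun i _ => ?_
        by_cases hi : i = j
        · subst hi
          rw [if_pos (Finset.mem_insert_self _ _), if_neg hj, if_pos rfl, dlt_mulF]
        · rw [if_neg hi, mulF_dlt]
          by_cases hi' : i ∈ J
          · rw [if_pos (Finset.mem_insert_of_mem hi'), if_pos hi']
          · rw [if_neg hi', if_neg]
            intro h
            rcases Finset.mem_insert.1 h with h | h
            · exact hi h
            · exact hi' h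
      rw [h1, H20.mulF_assoc, h j, ih]
  have := key Finset.univ
  simpa using this

end pi

section aut

variable {Y : Type} [Group Y]

/-- the image of a subgroup -/
def mv (γ : MulAut Y) (K : Subgroup Y) : Subgroup Y := K.map γ.toMonoidHom

theorem mv_mul (γ δ : MulAut Y) (K : Subgroup Y) : mv (γ * δ) K = mv γ (mv δ K) := by
  unfold mv
  rw [Subgroup.map_map]
  rfl

theorem mv_one (K : Subgroup Y) : mv 1 K = K := Subgroup.map_id K

theorem mv_inv {γ : MulAut Y} {K L : Subgroup Y} (h : mv γ K = L) : mv γ⁻¹ L = K := by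
  rw [← h, ← mv_mul, inv_mul_cancel, mv_one]

variable {K : Subgroup Y} {α β : MulAut Y} {p : ℕ}

theorem mv_per (hβ : mv (β ^ (p + 1)) K = K) (n m : ℕ) :
    mv (β ^ (n + (p + 1) * m)) K = mv (β ^ n) K := by
  induction m with
  | zero => rw [mul_zero, add_zero]
  | succ m ih =>
    rw [mul_add, mul_one, ← add_assoc, pow_add β (n + (p + 1) * m), mv_mul, hβ, ih]

theorem mv_alpha (hβ : mv (β ^ (p + 1)) K = K)
    (hα : ∀ i, i ≤ p → mv α (mv (β ^ i) K) = mv (β ^ i) K) (n : ℕ) :
    mv α (mv (β ^ n) K) = mv (β ^ n) K := by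
  have h1 : mv (β ^ n) K = mv (β ^ (n % (p + 1))) K := by
    conv_lhs => rw [← Nat.mod_add_div n (p + 1)]
    exact mv_per hβ _ _
  rw [h1]
  exact hα _ (Nat.lt_succ_iff.1 (Nat.mod_lt _ (Nat.succ_pos p)))

theorem mv_kap (hβ : mv (β ^ (p + 1)) K = K)
    (hα : ∀ i, i ≤ p → mv α (mv (β ^ i) K) = mv (β ^ i) K) (n : ℕ) :
    mv (kap α β) (mv (β ^ n) K) = mv (β ^ n) K := by
  have hA := mv_alpha hβ hα
  have h1 : mv (β ^ n) K = mv β (mv (β ^ (n + p)) K) := by
    rw [← mv_mul, ← pow_succ', add_assoc]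
    have := mv_per hβ n 1
    rw [mul_one] at this
    exact this.symm
  rw [h1]
  unfold kap
  rw [mv_mul, mv_mul, mv_mul, mv_inv (L := mv β (mv (β ^ (n + p)) K)) rfl, mv_inv (hA _)]
  rw [← h1, hA]

theorem mv_gam (hβ : mv (β ^ (p + 1)) K = K)
    (hα : ∀ i, i ≤ p → mv α (mv (β ^ i) K) = mv (β ^ i) K) (j n : ℕ) :
    mv ((β ^ j)⁻¹ * kap α β * β ^ j) (mv (β ^ n) K) = mv (β ^ n) K := by
  rw [mv_mul, mv_mul, ← mv_mul (β ^ j) (β ^ n), ← pow_add, mv_kap hβ hα, pow_add, mv_mul]
  exact mv_inv rfl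

theorem mv_als (hβ : mv (β ^ (p + 1)) K = K)
    (hα : ∀ i, i ≤ p → mv α (mv (β ^ i) K) = mv (β ^ i) K) (j : ℕ) :
    mv ((β ^ j)⁻¹ * α * β ^ j) K = K := by
  rw [mv_mul, mv_mul, mv_alpha hβ hα]
  exact mv_inv rfl

end aut

section shift

variable {K : Type} [Group K]

/-- the cyclic shift -/
def shf (p : ℕ) (β₀ : MulAut K) : MulAut (Fin (p + 1) → K) where
  toFun k := Fin.cons (α := fun _ => K) (β₀ (k (Fin.last p))) (fun j => k j.castSucc)
  invFun k := Fin.snoc (α := fun _ => K) (fun j : Fin p => k j.succ) (β₀⁻¹ (k 0))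
  left_inv k := by
    funext i
    refine Fin.lastCases ?_ (fun j => ?_) i
    · simp
    · simp
  right_inv k := by
    funext i
    refine Fin.cases ?_ (fun j => ?_) i
    · simp
    · simp
  map_mul' k l := by
    funext i
    refine Fin.cases ?_ (fun j => ?_) i
    · simp
    · simp

theorem shf_zero (p : ℕ) (β₀ : MulAut K) (k : Fin (p + 1) → K) :
    shf p β₀ k 0 = β₀ (k (Fin.last p)) := rfl

theorem shf_succ (p : ℕ) (β₀ : MulAut K) (k : Fin (p + 1) → K) (j : Fin p) :
    shf p β₀ k j.succ = k j.castSucc := rfl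

theorem shf_isShift (p : ℕ) (β₀ : MulAut K) : IsShift p (shf p β₀) β₀ := fun _ => ⟨rfl, fun _ => rfl⟩

end shift

section cover

variable {Y : Type} [Group Y] {K : Subgroup Y} {β : MulAut Y} {p : ℕ}

/-- the embedding of the `j`-th factor -/
def emb (K : Subgroup Y) (β : MulAut Y) (j : ℕ) : K →* Y := (β ^ j).toMonoidHom.comp K.subtype

theorem emb_apply (j : ℕ) (x : K) : emb K β j x = (β ^ j) (x : Y) := rfl

theorem emb_inj (j : ℕ) {x y : K} (h : emb K β j x = emb K β j y) : x = y :=
  Subtype.ext ((β ^ j).injective h)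

theorem emb_comm (hc : ∀ i, 0 < i → i ≤ p → ∀ x ∈ K, ∀ y ∈ K, x * (β ^ i) y = (β ^ i) y * x) :
    Pairwise fun i j : Fin (p + 1) => ∀ x y, Commute (emb K β i x) (emb K β j y) := by
  have key : ∀ i j : ℕ, i < j → j ≤ p → ∀ x y : K, Commute (emb K β i x) (emb K β j y) := by
    intro i j hij hj x y
    have h1 := hc (j - i) (by omega) (by omega) x x.2 y y.2
    have h2 : (β ^ j) (y : Y) = (β ^ i) ((β ^ (j - i)) (y : Y)) := by
      rw [← MulAut.mul_apply, ← pow_add, Nat.add_sub_cancel' hij.le]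
    rw [Commute, SemiconjBy, emb_apply, emb_apply, h2, ← map_mul, ← map_mul, h1]
  intro i j hij x y
  rcases lt_trichotomy (i : ℕ) (j : ℕ) with h | h | h
  · exact key _ _ h (Nat.lt_succ_iff.1 j.2) x y
  · exact absurd (Fin.ext h) hij
  · exact (key _ _ h (Nat.lt_succ_iff.1 i.2) y x).symm

/-- the covering `K ^ (p + 1) → Y` -/
def cv (hc : ∀ i, 0 < i → i ≤ p → ∀ x ∈ K, ∀ y ∈ K, x * (β ^ i) y = (β ^ i) y * x) :
    (Fin (p + 1) → K) →* Y :=
  MonoidHom.noncommPiCoprod (fun j : Fin (p + 1) => emb K β j) (emb_comm hc)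

variable (hc : ∀ i, 0 < i → i ≤ p → ∀ x ∈ K, ∀ y ∈ K, x * (β ^ i) y = (β ^ i) y * x)

theorem cv_single (j : Fin (p + 1)) (x : K) : cv hc (Pi.mulSingle j x) = emb K β j x :=
  MonoidHom.noncommPiCoprod_mulSingle _ _ _

theorem sup_eq (hg : (⨆ i ∈ Finset.range (p + 1), K.map (β ^ i).toMonoidHom) = ⊤) {L : Subgroup Y}
    (hL : ∀ i, i ≤ p → mv (β ^ i) K ≤ L) : L = ⊤ := by
  rw [eq_top_iff, ← hg]
  refine iSup_le fun i => iSup_le fun hi => hL i ?_
  exact Nat.lt_succ_iff.1 (Finset.mem_range.1 hi)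

theorem cv_surj (hg : (⨆ i ∈ Finset.range (p + 1), K.map (β ^ i).toMonoidHom) = ⊤) :
    Function.Surjective (cv hc) := by
  rw [← MonoidHom.range_eq_top]
  apply sup_eq hg
  rintro i hi _ ⟨x, hx, rfl⟩
  exact ⟨Pi.mulSingle ⟨i, Nat.lt_succ_iff.2 hi⟩ ⟨x, hx⟩, cv_single hc _ _⟩

theorem cv_ker (hg : (⨆ i ∈ Finset.range (p + 1), K.map (β ^ i).toMonoidHom) = ⊤)
    {x : Fin (p + 1) → K} (hx : cv hc x = 1) (j : Fin (p + 1)) :
    emb K β j (x j) ∈ Subgroup.center Y := by
  have key : Subgroup.centralizer {emb K β j (x j)} = ⊤ := by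
    apply sup_eq hg
    rintro i hi _ ⟨y, hy, rfl⟩
    change emb K β i ⟨y, hy⟩ ∈ _
    rw [Subgroup.mem_centralizer_singleton_iff]
    by_cases hij : (⟨i, Nat.lt_succ_iff.2 hi⟩ : Fin (p + 1)) = j
    · subst hij
      -- the other factors
      set x' : Fin (p + 1) → K := Function.update x ⟨i, Nat.lt_succ_iff.2 hi⟩ 1 with hx'
      have h1 : x = Pi.mulSingle ⟨i, Nat.lt_succ_iff.2 hi⟩ (x ⟨i, Nat.lt_succ_iff.2 hi⟩) * x' := by
        funext k
        rw [Pi.mul_apply]
        by_cases hk : k = ⟨i, Nat.lt_succ_iff.2 hi⟩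
        · subst hk
          rw [Pi.mulSingle_eq_same, hx', Function.update_self, mul_one]
        · rw [Pi.mulSingle_eq_of_ne hk, hx', Function.update_of_ne hk, one_mul]
      have h2 : cv hc x' = (emb K β i (x ⟨i, Nat.lt_succ_iff.2 hi⟩))⁻¹ := by
        have h3 := hx
        rw [h1, map_mul, cv_single] at h3
        exact eq_inv_of_mul_eq_one_right h3
      have h4 : Pi.mulSingle ⟨i, Nat.lt_succ_iff.2 hi⟩ (⟨y, hy⟩ : K) * x' =
          x' * Pi.mulSingle ⟨i, Nat.lt_succ_iff.2 hi⟩ (⟨y, hy⟩ : K) := by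
        funext k
        rw [Pi.mul_apply, Pi.mul_apply]
        by_cases hk : k = ⟨i, Nat.lt_succ_iff.2 hi⟩
        · subst hk
          rw [hx', Function.update_self, mul_one, one_mul]
        · rw [Pi.mulSingle_eq_of_ne hk, one_mul, mul_one]
      have h5 := congrArg (cv hc) h4
      rw [map_mul, map_mul, cv_single, h2] at h5
      change emb K β i ⟨y, hy⟩ * (emb K β i (x ⟨i, Nat.lt_succ_iff.2 hi⟩))⁻¹ =
        (emb K β i (x ⟨i, Nat.lt_succ_iff.2 hi⟩))⁻¹ * emb K β i ⟨y, hy⟩ at h5
      exact (Commute.inv_right_iff.1 h5).eq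
    · exact (emb_comm hc hij ⟨y, hy⟩ (x j)).eq
  rw [Subgroup.mem_center_iff]
  intro g
  have : g ∈ Subgroup.centralizer {emb K β j (x j)} := by rw [key]; trivial
  exact Subgroup.mem_centralizer_singleton_iff.1 this

theorem cv_ker_le (hg : (⨆ i ∈ Finset.range (p + 1), K.map (β ^ i).toMonoidHom) = ⊤) :
    (cv hc).ker ≤ Subgroup.center (Fin (p + 1) → K) := by
  intro x hx
  rw [Subgroup.mem_center_iff]
  intro y
  funext j
  have h1 := Subgroup.mem_center_iff.1 (cv_ker hc hg hx j) (emb K β j (y j))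
  rw [← map_mul, ← map_mul] at h1
  exact emb_inj j h1

theorem cv_ker_card [Finite Y] {ℓ : ℕ} (hℓ : ℓ.Prime)
    (hg : (⨆ i ∈ Finset.range (p + 1), K.map (β ^ i).toMonoidHom) = ⊤)
    (hz : ¬ ℓ ∣ Nat.card (Subgroup.center Y)) : ¬ ℓ ∣ Nat.card (cv hc).ker := by
  intro hdvd
  apply hz
  let q : (cv hc).ker →* (Fin (p + 1) → Subgroup.center Y) :=
    { toFun := fun x j => ⟨emb K β j (x.1 j), cv_ker hc hg x.2 j⟩
      map_one' := by
        funext j
        exact Subtype.ext (map_one _)
      map_mul' := fun x y => by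
        funext j
        exact Subtype.ext (map_mul _ _ _) }
  have hq : Function.Injective q := by
    intro x y hxy
    apply Subtype.ext
    funext j
    exact emb_inj j (congrArg (fun z : Fin (p + 1) → Subgroup.center Y => ((z j : _) : Y)) hxy)
  have h1 := hdvd.trans (Subgroup.card_dvd_of_injective q hq)
  rw [Nat.card_fun, Nat.card_eq_fintype_card (α := Fin (p + 1)), Fintype.card_fin] at h1
  exact hℓ.dvd_of_dvd_pow h1

end cover

section units

variable {F Y : Type} [Field F] [Group Y] [Finite Y]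

theorem unt_conj {f : Y → F} {κ : MulAut Y} {w wi : Y → F} (h : Unt f κ w wi) (δ : MulAut Y)
    (hf : ∀ y, f (δ y) = f y) :
    Unt f (δ⁻¹ * κ * δ) (fun y => w (δ y)) (fun y => wi (δ y)) := by
  have hf' : (fun y => f (δ y)) = f := funext hf
  refine ⟨?_, ?_, ?_, ?_, ?_⟩
  · have := H17.mulF_equiv δ f w
    rw [hf', h.fw] at this
    exact this
  · have := H17.mulF_equiv δ f wi
    rw [hf', h.fwi] at this
    exact this
  · have := H17.mulF_equiv δ w wi
    rw [h.unit, hf'] at this
    exact this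
  · have := H17.mulF_equiv δ wi w
    rw [h.unit', hf'] at this
    exact this
  · intro n y
    rw [← h.comm (δ n) (δ y)]
    congr 1
    rw [map_mul, map_mul, map_inv, mul_inv_rev, mul_inv_rev, inv_inv, MulAut.mul_apply,
      MulAut.mul_apply, MulAut.apply_inv_self]

theorem pow_inv {f : Y → F} {β : MulAut Y} (hf : ∀ y, f (β y) = f y) (n : ℕ) (y : Y) :
    f ((β ^ n) y) = f y := by
  induction n with
  | zero => rw [pow_zero, MulAut.one_apply]
  | succ n ih => rw [pow_succ', MulAut.mul_apply, hf, ih]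

theorem cv_act {K : Subgroup Y} {β : MulAut Y} {p : ℕ}
    (hc : ∀ i, 0 < i → i ≤ p → ∀ x ∈ K, ∀ y ∈ K, x * (β ^ i) y = (β ^ i) y * x)
    {f₁ : K → F} {f : Y → F} (hf : mulF (ext0 K f₁) f = f) (hfb : ∀ y, f (β y) = f y) (c : F)
    (j : Fin (p + 1)) :
    mulF (fun k : Fin (p + 1) → K => ∏ i, (if i = j then f₁ else dlt) (k i))
      (fun k => c * f (cv hc k)) = fun k => c * f (cv hc k) := by
  classical
  have := Fintype.ofFinite Y
  have := Fintype.ofFinite K
  funext k
  rw [H17.mulF_eq]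
  set z : Y := (β ^ (j : ℕ))⁻¹ (cv hc k) with hz
  have hz' : (β ^ (j : ℕ)) z = cv hc k := by rw [hz, MulAut.apply_inv_self]
  have h1 : ∑ s : K, f₁ s * (c * f ((s : Y)⁻¹ * z)) =
      ∑ t : Fin (p + 1) → K, (∏ i, (if i = j then f₁ else dlt) (t i)) *
        (c * f (cv hc (t⁻¹ * k))) := by
    apply Fintype.sum_of_injective (fun s : K => (Pi.mulSingle j s : Fin (p + 1) → K))
      (fun a b h => by
        have h' := congrFun h j
        change (Pi.mulSingle j a : Fin (p + 1) → K) j = (Pi.mulSingle j b : Fin (p + 1) → K) j at h'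
        rwa [Pi.mulSingle_eq_same, Pi.mulSingle_eq_same] at h')
    · intro t ht
      have h2 : ∃ i, i ≠ j ∧ t i ≠ 1 := by
        by_contra h
        push Not at h
        apply ht
        refine ⟨t j, ?_⟩
        funext i
        by_cases hi : i = j
        · subst hi
          exact Pi.mulSingle_eq_same _ _
        · rw [h i hi]
          exact Pi.mulSingle_eq_of_ne hi _
      obtain ⟨i, hi, hti⟩ := h2
      rw [Finset.prod_eq_zero (Finset.mem_univ i), zero_mul]
      rw [if_neg hi]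
      exact if_neg hti
    · intro s
      have h2 : ∏ i, (if i = j then f₁ else dlt) ((Pi.mulSingle j s : Fin (p + 1) → K) i) =
          f₁ s := by
        rw [Finset.prod_eq_single j]
        · rw [if_pos rfl, Pi.mulSingle_eq_same]
        · intro i _ hi
          rw [if_neg hi, Pi.mulSingle_eq_of_ne hi]
          exact if_pos rfl
        · intro h
          exact absurd (Finset.mem_univ _) h
      rw [h2, map_mul, map_inv, cv_single, ← hz', emb_apply, ← map_inv, ← map_mul, pow_inv hfb]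
  rw [← h1]
  have h3 : ∑ s : K, f₁ s * f ((s : Y)⁻¹ * z) = f z := by
    have h4 := congrFun hf z
    rw [H17.mulF_eq] at h4
    rw [← h4]
    apply Fintype.sum_of_injective (fun s : K => (s : Y)) Subtype.val_injective
    · intro x hx
      have hx' : x ∉ K := fun h => hx ⟨⟨x, h⟩, rfl⟩
      rw [H17.ext0_not _ hx', zero_mul]
    · intro s
      rw [H17.ext0_mem _ s.2]
  have h5 : f z = f (cv hc k) := by rw [← hz', pow_inv hfb]
  rw [← h5, ← h3, Finset.mul_sum]
  refine Finset.sum_congr rfl fun s _ => ?_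
  ring

end units

/-- CYV. -/
theorem cyv (hlz : LzStmt) (hcyd : CydStmt) (hfbk : FbkStmt) (hfcu : FcuStmt) (hscl : SclStmt) :
    CyvStmt := by
  classical
  intro ℓ _ F _ hF Y _ _ K f α β p α₁ β₁ hc hg hz hα hres hresβ f₁ hf₁ hvan τ hτ w wi hT
  have := Fintype.ofFinite Y
  have hβ1 : mv (β ^ (p + 1)) K = K := H17.map_of_res hresβ
  have hα' : ∀ i, i ≤ p → mv α (mv (β ^ i) K) = mv (β ^ i) K := hα
  -- the other factors
  set K' : Subgroup Y := ⨆ i : Fin p, mv (β ^ ((i : ℕ) + 1)) K with hK'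
  have hKK : ∀ x ∈ K, ∀ y ∈ K', x * y = y * x := by
    intro x hx y hy
    have h1 : K' ≤ Subgroup.centralizer {x} := by
      refine iSup_le fun i => ?_
      rintro _ ⟨y, hy, rfl⟩
      rw [Subgroup.mem_centralizer_singleton_iff]
      exact (hc ((i : ℕ) + 1) (Nat.succ_pos _) i.2 x hx y hy).symm
    exact (Subgroup.mem_centralizer_singleton_iff.1 (h1 hy)).symm
  have hsup : K ⊔ K' = ⊤ := by
    apply sup_eq hg
    intro i hi
    rcases Nat.eq_zero_or_pos i with h | h
    · subst h
      rw [pow_zero, mv_one]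
      exact le_sup_left
    · refine le_trans ?_ le_sup_right
      have h2 : i - 1 + 1 = i := Nat.sub_add_cancel h
      have h3 := le_iSup (fun i : Fin p => mv (β ^ ((i : ℕ) + 1)) K) ⟨i - 1, by omega⟩
      change mv (β ^ (i - 1 + 1)) K ≤ _ at h3
      rw [h2] at h3
      exact h3
  obtain ⟨-, huniq, -⟩ := hfbk ℓ F hF Y K K' hKK hsup hz f hT.blk
  have hst : ∀ (γ : MulAut Y) (γ₁ : MulAut K), ResA K γ γ₁ → (∀ y, f (γ y) = f y) →
      ∀ k, f₁ (γ₁ k) = f₁ k := fun γ γ₁ h hf k =>
    congrFun (huniq _ _ (H17.blkU_stable h hf hf₁) hf₁) k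
  have hfi : ∀ (γ : MulAut Y), (∀ y, f (γ y) = f y) → ∀ y, f (γ⁻¹ y) = f y := by
    intro γ h y
    rw [← h (γ⁻¹ y), MulAut.apply_inv_self]
  have hfp : ∀ n : ℕ, ∀ y, f ((β ^ n) y) = f y := fun n y => pow_inv hT.fb n y
  -- the automorphisms of the factors
  let αs : Fin (p + 1) → MulAut K := fun j =>
    H17.rst K ((β ^ (j : ℕ))⁻¹ * α * β ^ (j : ℕ)) (mv_als hβ1 hα' j)
  have hαs : ∀ j : Fin (p + 1), ResA K ((β ^ (j : ℕ))⁻¹ * α * β ^ (j : ℕ)) (αs j) := fun j =>
    H17.rst_spec K _ _
  have hαs' : ∀ (j : Fin (p + 1)) (x : K), (β ^ (j : ℕ)) ((αs j x : K) : Y) =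
      α ((β ^ (j : ℕ)) x) := by
    intro j x
    rw [hαs j x, MulAut.mul_apply, MulAut.mul_apply, MulAut.apply_inv_self]
  have hgam : ∀ j : ℕ, mv ((β ^ j)⁻¹ * kap α β * β ^ j) K = K := by
    intro j
    have := mv_gam hβ1 hα' j 0
    rw [pow_zero, mv_one] at this
    exact this
  let κ : Fin (p + 1) → MulAut K := fun j =>
    H17.rst K ((β ^ (j : ℕ))⁻¹ * kap α β * β ^ (j : ℕ)) (hgam j)
  have hκ : ∀ j : Fin (p + 1), ResA K ((β ^ (j : ℕ))⁻¹ * kap α β * β ^ (j : ℕ)) (κ j) := fun j =>
    H17.rst_spec K _ _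
  have hκ' : ∀ (j : Fin (p + 1)) (x : K), (β ^ (j : ℕ)) ((κ j x : K) : Y) =
      kap α β ((β ^ (j : ℕ)) x) := by
    intro j x
    rw [hκ j x, MulAut.mul_apply, MulAut.mul_apply, MulAut.apply_inv_self]
  have hα0 : αs 0 = α₁ := by
    ext x
    have h1 := hαs' 0 x
    have h2 := hres x
    rw [Fin.val_zero, pow_zero, MulAut.one_apply, MulAut.one_apply] at h1
    rw [h1, h2]
  let αt : MulAut (Fin (p + 1) → K) := MulEquiv.piCongrRight αs
  have hαt : ∀ k j, (αt k) j = αs j (k j) := fun _ _ => rfl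
  let βt : MulAut (Fin (p + 1) → K) := shf p β₁
  have hβt : IsShift p βt β₁ := shf_isShift p β₁
  have hkapab : ∀ z : Y, kap α β (β (α z)) = α (β z) := by
    intro z
    unfold kap
    rw [MulAut.mul_apply, MulAut.mul_apply, MulAut.mul_apply, MulAut.inv_apply_self,
      MulAut.inv_apply_self]
  have hkapt : ∀ k j, (kap αt βt k) j = κ j (k j) := by
    intro k j
    obtain ⟨m, rfl⟩ : ∃ m, βt (αt m) = k := ⟨αt⁻¹ (βt⁻¹ k), by
      rw [MulAut.apply_inv_self, MulAut.apply_inv_self]⟩
    have h1 : kap αt βt (βt (αt m)) = αt (βt m) := by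
      unfold kap
      rw [MulAut.mul_apply, MulAut.mul_apply, MulAut.mul_apply, MulAut.inv_apply_self,
        MulAut.inv_apply_self]
    rw [h1]
    refine Fin.cases ?_ (fun i => ?_) j
    · apply emb_inj (β := β) 0
      have e1 := hκ' 0 (βt (αt m) 0)
      have e2 := hαs' 0 (βt m 0)
      rw [Fin.val_zero] at e1 e2
      rw [emb_apply, emb_apply, hαt, e2, e1, pow_zero, MulAut.one_apply, MulAut.one_apply]
      change α ((β₁ (m (Fin.last p)) : K) : Y) = kap α β ((β₁ (αs (Fin.last p) (m (Fin.last p))) : K) : Y)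
      have e3 := hαs' (Fin.last p) (m (Fin.last p))
      rw [Fin.val_last] at e3
      rw [hresβ, hresβ, pow_succ', MulAut.mul_apply, MulAut.mul_apply, e3, hkapab]
    · apply emb_inj (β := β) ((i : ℕ) + 1)
      have e1 := hκ' i.succ (βt (αt m) i.succ)
      have e2 := hαs' i.succ (βt m i.succ)
      rw [Fin.val_succ] at e1 e2
      rw [emb_apply, emb_apply, hαt, e2, e1]
      change α ((β ^ ((i : ℕ) + 1)) ((m i.castSucc : K) : Y)) =
        kap α β ((β ^ ((i : ℕ) + 1)) ((αs i.castSucc (m i.castSucc) : K) : Y))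
      have e3 := hαs' i.castSucc (m i.castSucc)
      rw [Fin.val_castSucc] at e3
      rw [pow_succ', MulAut.mul_apply, MulAut.mul_apply, e3, hkapab]
  -- the units
  have hU : ∀ j : Fin (p + 1), ∃ w₁ wi₁ : K → F, Unt f₁ (κ j) w₁ wi₁ := by
    intro j
    refine hfcu ℓ F hF Y K K' hKK hsup hz f hT.blk f₁ hf₁ _ (κ j) (hκ j) ?_ _ _
      (unt_conj hT.unt (β ^ (j : ℕ)) (hfp j))
    rw [hK', Subgroup.map_iSup]
    exact iSup_congr fun i => mv_gam hβ1 hα' j _
  choose ws wis hws using hU
  obtain ⟨hblk, hDD⟩ := hcyd ℓ F hF K p f₁ αs β₁ αt βt hf₁.1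
    (fun j y => hst _ _ (hαs j) (fun z => by
      rw [MulAut.mul_apply, MulAut.mul_apply, hfi _ (hfp j), hT.fa, hfp]) y)
    (hst _ _ hresβ (hfp _)) hαt hβt κ hkapt ws wis hws
  -- the covering
  have hpα : ∀ y, cv hc (αt y) = α (cv hc y) := by
    have h1 : (cv hc).comp αt.toMonoidHom = α.toMonoidHom.comp (cv hc) := by
      apply MonoidHom.pi_ext
      intro j x
      change cv hc (αt (Pi.mulSingle j x)) = α (cv hc (Pi.mulSingle j x))
      have h2 : αt (Pi.mulSingle j x) = Pi.mulSingle j (αs j x) := by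
        funext i
        rw [hαt]
        by_cases hi : i = j
        · subst hi
          rw [Pi.mulSingle_eq_same, Pi.mulSingle_eq_same]
        · rw [Pi.mulSingle_eq_of_ne hi, Pi.mulSingle_eq_of_ne hi, map_one]
      rw [h2, cv_single, cv_single, emb_apply, emb_apply, hαs']
    exact fun y => congrArg (fun g : (Fin (p + 1) → K) →* Y => g y) h1
  have hpβ : ∀ y, cv hc (βt y) = β (cv hc y) := by
    have h1 : (cv hc).comp βt.toMonoidHom = β.toMonoidHom.comp (cv hc) := by
      apply MonoidHom.pi_ext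
      intro j x
      change cv hc (βt (Pi.mulSingle j x)) = β (cv hc (Pi.mulSingle j x))
      refine Fin.lastCases ?_ (fun i => ?_) j
      · have h2 : βt (Pi.mulSingle (Fin.last p) x) = Pi.mulSingle 0 (β₁ x) := by
          funext i
          refine Fin.cases ?_ (fun i => ?_) i
          · change β₁ ((Pi.mulSingle (Fin.last p) x : Fin (p + 1) → K) (Fin.last p)) = _
            rw [Pi.mulSingle_eq_same, Pi.mulSingle_eq_same]
          · change (Pi.mulSingle (Fin.last p) x : Fin (p + 1) → K) i.castSucc = _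
            rw [Pi.mulSingle_eq_of_ne (Fin.castSucc_lt_last i).ne,
              Pi.mulSingle_eq_of_ne (Fin.succ_ne_zero i)]
        rw [h2, cv_single, cv_single, emb_apply, emb_apply, Fin.val_zero, Fin.val_last, pow_zero,
          MulAut.one_apply, hresβ, pow_succ', MulAut.mul_apply]
      · have h2 : βt (Pi.mulSingle i.castSucc x) = Pi.mulSingle i.succ x := by
          funext k
          refine Fin.cases ?_ (fun k => ?_) k
          · change β₁ ((Pi.mulSingle i.castSucc x : Fin (p + 1) → K) (Fin.last p)) = _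
            rw [Pi.mulSingle_eq_of_ne (Fin.castSucc_lt_last i).ne',
              Pi.mulSingle_eq_of_ne (Fin.succ_ne_zero i).symm, map_one]
          · change (Pi.mulSingle i.castSucc x : Fin (p + 1) → K) k.castSucc = _
            by_cases hk : k = i
            · subst hk
              rw [Pi.mulSingle_eq_same, Pi.mulSingle_eq_same]
            · rw [Pi.mulSingle_eq_of_ne (fun h => hk (Fin.castSucc_injective _ h)),
                Pi.mulSingle_eq_of_ne (fun h => hk (Fin.succ_injective _ h))]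
        rw [h2, cv_single, cv_single, emb_apply, emb_apply, Fin.val_succ, Fin.val_castSucc,
          pow_succ', MulAut.mul_apply]
    exact fun y => congrArg (fun g : (Fin (p + 1) → K) →* Y => g y) h1
  have hprime : ℓ.Prime := Fact.out
  have hcard := cv_ker_card hc hprime hg hz
  obtain ⟨hblk', hlz'⟩ := hlz ℓ F hF (Fin (p + 1) → K) Y (cv hc) (cv_surj hc hg)
    (cv_ker_le hc hg) hcard f α β αt βt hT.blk hpα hpβ
  -- the blocks agree
  have hact := prod_act f₁ (fun k => (Nat.card (cv hc).ker : F)⁻¹ * f (cv hc k)) fun j =>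
    cv_act hc hf₁.2 hT.fb _ j
  have hne : mulF (fun k : Fin (p + 1) → K => ∏ j, f₁ (k j))
      (fun k => (Nat.card (cv hc).ker : F)⁻¹ * f (cv hc k)) ≠ 0 := by
    rw [hact]
    exact hblk'.2.1
  have hfeq := H17.blk_eq hblk hblk' hne
  have hTp : Torus (fun k : Fin (p + 1) → K => ∏ j, f₁ (k j)) αt βt
      (fun k => ∏ j, ws j (k j)) (fun k => ∏ j, wis j (k j)) := by
    refine ⟨hblk, ?_, ?_, ⟨?_, ?_, ?_, ?_, ?_⟩⟩
    · intro y
      refine (congrFun hfeq (αt y)).trans (Eq.trans ?_ (congrFun hfeq y).symm)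
      change (Nat.card (cv hc).ker : F)⁻¹ * f (cv hc (αt y)) = _
      rw [hpα, hT.fa]
    · intro y
      refine (congrFun hfeq (βt y)).trans (Eq.trans ?_ (congrFun hfeq y).symm)
      change (Nat.card (cv hc).ker : F)⁻¹ * f (cv hc (βt y)) = _
      rw [hpβ, hT.fb]
    · rw [mulF_pi (fun _ => f₁) ws]
      funext k
      exact Finset.prod_congr rfl fun j _ => by rw [(hws j).fw]
    · rw [mulF_pi (fun _ => f₁) wis]
      funext k
      exact Finset.prod_congr rfl fun j _ => by rw [(hws j).fwi]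
    · rw [mulF_pi ws wis]
      funext k
      exact Finset.prod_congr rfl fun j _ => by rw [(hws j).unit]
    · rw [mulF_pi wis ws]
      funext k
      exact Finset.prod_congr rfl fun j _ => by rw [(hws j).unit']
    · intro n y
      refine Finset.prod_congr rfl fun j _ => ?_
      have h1 : ((kap αt βt)⁻¹ n) j = (κ j)⁻¹ (n j) := by
        apply (κ j).injective
        rw [← hkapt, MulAut.apply_inv_self, MulAut.apply_inv_self]
      change ws j (((kap αt βt)⁻¹ n) j * y j * (n j)⁻¹) = ws j (y j)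
      rw [h1, (hws j).comm]
  rw [← hfeq] at hlz'
  refine hlz' ?_ τ hτ w wi hT
  intro τ' hτ' w' wi' hT'
  refine hscl ℓ F hF (Fin (p + 1) → K) _ _ _ _ _ w' wi' hTp hT' τ' hτ' ?_
  exact hDD (by rw [hα0]; exact hvan) τ' hτ'

end Pool.Agent.PP.H18
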