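import Pool.Agent.Helper18_PP.Bet
import Pool.Agent.Helper74_PP.Cov

/-!
# Squad PP, module DZF: assembly of part DZ
-/

open scoped BigOperators

set_option linter.unusedSectionVars false

noncomputable section

namespace Pool.Agent.PP.H18

open Pool.Agent.PP Pool.Agent.Helper51_AWC Pool.Agent.Helper79_WRA

theorem psubIn_mono {ℓ : ℕ} {G : Type} [Group G] [Finite G] {M M' : Subgroup G} (h : M ≤ M') :
    psubIn ℓ M ⊆ psubIn ℓ M' := by
  intro D hD
  rw [psubIn, Set.Finite.mem_toFinset] at hD ⊢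
  exact ⟨hD.1.trans h, hD.2⟩

theorem chainsOn_mono {ℓ : ℕ} {G : Type} [Group G] [Finite G] {M M' : Subgroup G} (h : M ≤ M')
    {d : Finset (Subgroup G)} (hd : d ∈ chainsOn (psubIn ℓ M) ⊥) : d ∈ chainsOn (psubIn ℓ M') ⊥ := by
  rw [mem_chainsOn] at hd ⊢
  exact ⟨hd.1.trans (psubIn_mono h), hd.2⟩

/-- the extendible case -/
theorem step2 (hnch : NchStmt) (hsup : SupStmt) (hnco : NcoStmt) (hdzq : DzqStmt)
    (hpsf : PsfStmt) {ℓ : ℕ} {F : Type} [Field F] (hF : GoodF ℓ F) {G : Type} [Group G] [Finite G]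
    (N M : Subgroup G) [N.Normal] (b e : G → F) (n : ℕ) (α : G →* Matrix (Fin n) (Fin n) F)
    (hNB : NB ℓ N b) (hα : IsIrr (α.comp N.subtype))
    (hαb : ev (α.comp N.subtype) (fun x : N => b x) = 1)
    (he : IsIdem e) (heb : mulF e b = e) (hM : M.Normal) (hNM : N ≤ M) (hpos : Pos ℓ e M) :
    ∃ f : G ⧸ N → F, IsIdem f ∧ Pos ℓ f (M.map (QuotientGroup.mk' N)) ∧
      YY ℓ M e = (Nat.card N : ℤ) * YY ℓ (M.map (QuotientGroup.mk' N)) f := by
  classical
  have : Fact ℓ.Prime := ⟨hF.prime⟩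
  obtain ⟨f, hf, hfi, hfp⟩ := hpsf ℓ F hF G N b e n α hNB hα hαb he heb
  refine ⟨f, hfi, hfp M hM hNM hpos, ?_⟩
  have e1 : YY ℓ M e = ∑ d ∈ (chainsOn (psubIn ℓ M) ⊥).filter NormalChain,
      (-1) ^ (d.card + 1) * ((Nat.card (stab d) : ℤ) * (lnum (stab d) e : ℤ)) :=
    hnch ℓ G M (fun S _ => (Nat.card S : ℤ) * (lnum S e : ℤ))
  have e2 : YY ℓ (M.map (QuotientGroup.mk' N)) f =
      ∑ d ∈ (chainsOn (psubIn ℓ (M.map (QuotientGroup.mk' N))) ⊥).filter NormalChain,
      (-1) ^ (d.card + 1) * ((Nat.card (stab d) : ℤ) * (lnum (stab d) f : ℤ)) :=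
    hnch ℓ (G ⧸ N) (M.map (QuotientGroup.mk' N)) (fun S _ => (Nat.card S : ℤ) * (lnum S f : ℤ))
  obtain ⟨h1, h2⟩ := hnco ℓ F hF G N M b hNB hM hNM
  have h3 := h2 (fun c => (lnum (stab c) e : ℤ)) (fun c => (lnum (stab c) f : ℤ)) (by
    intro c hc hcn hcg
    obtain ⟨_, _, _, _, h4, _⟩ := h1 c hc hcn hcg
    rw [h4, hdzq ℓ F hF G N b e n α hNB hα hαb he heb f hfi hf c (chainsOn_mono le_top hc) hcn hcg])
  rw [e1, e2, ← h3]
  symm
  apply Finset.sum_subset_zero_on_sdiff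
  · intro c hc
    rw [Finset.mem_filter] at hc ⊢
    exact ⟨hc.1, hc.2.1⟩
  · intro c hc
    rw [Finset.mem_sdiff, Finset.mem_filter, Finset.mem_filter] at hc
    have hg : ¬ Good ℓ N b (top c) := fun hg => hc.2 ⟨hc.1.1, hc.1.2, hg⟩
    rw [(hsup ℓ F hF G N b e hNB he heb).2.2 c (chainsOn_mono le_top hc.1.1) hc.1.2 hg,
      Nat.cast_zero, mul_zero, mul_zero]
  · intro c _
    rfl

/-- COV in the form of the statement -/
theorem cov_of (h : H74.CovS) : CovStmt := by
  intro ℓ F _ hF L _ _ C n ρ hC hρ htr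
  obtain ⟨E, i1, i2, π, α, h1, h2, h3, h4, h5, h6, h7⟩ := h ℓ F hF L C hC n ρ hρ
    (fun g c => htr g c (H74.cj hC g c) rfl)
  refine ⟨E, i1, i2, π, α, h1, fun x hx => h4 hx, ?_, h2, fun x hx => h6 x hx, ?_, h3⟩
  · intro hd
    have h8 := Nat.dvd_gcd hd (dvd_refl ℓ)
    rw [h5] at h8
    exact hF.prime.one_lt.ne' (Nat.dvd_one.1 h8)
  · intro x c c' hc
    have : c' = H74.cj hC (π x) c := Subtype.ext hc
    rw [this]
    exact h7 x c

section equiv

variable {F H H' : Type} [Field F] [Group H] [Finite H] [Group H'] [Finite H'] (e : H ≃* H')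

theorem mulF_equiv (a a' : H' → F) :
    mulF (fun x => a (e x)) (fun x => a' (e x)) = fun x => mulF a a' (e x) := by
  funext x
  unfold mulF
  have := Fintype.ofFinite H
  have := Fintype.ofFinite H'
  rw [finsum_eq_sum_of_fintype, finsum_eq_sum_of_fintype,
    ← Equiv.sum_comp e.toEquiv (fun t => a t * a' (t⁻¹ * e x))]
  refine Finset.sum_congr rfl fun t _ => ?_
  have e1 : e.toEquiv t = e t := rfl
  rw [e1, ← map_inv, ← map_mul]

theorem isCl_equiv {a : H' → F} (h : IsCl a) : IsCl (fun x => a (e x)) := by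
  intro x y
  change a (e (y * x * y⁻¹)) = a (e x)
  rw [map_mul, map_mul, map_inv, h]

theorem idem_equiv {a : H' → F} (h : IsIdem a) : IsIdem (fun x => a (e x)) :=
  ⟨isCl_equiv e h.1, by rw [mulF_equiv, h.2]⟩

theorem blk_equiv {a : H' → F} (h : IsBlk a) : IsBlk (fun x => a (e x)) := by
  refine ⟨idem_equiv e h.1, fun h0 => h.2.1 ?_, fun g hg => ?_⟩
  · funext y
    have := congrFun h0 (e.symm y)
    change a (e (e.symm y)) = 0 at this
    rw [MulEquiv.apply_symm_apply] at this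
    exact this
  · have h1 : g = fun x => (fun y => g (e.symm y)) (e x) := by
      funext x
      change g x = g (e.symm (e x))
      rw [MulEquiv.symm_apply_apply]
    rw [h1, mulF_equiv e a (fun y => g (e.symm y))]
    rcases h.2.2 _ (idem_equiv e.symm hg) with h2 | h2
    · left; rw [h2]
    · right; rw [h2]; rfl

theorem card_cent_equiv (x : H) : Nat.card (Subgroup.centralizer ({x} : Set H)) =
    Nat.card (Subgroup.centralizer ({e x} : Set H')) := by
  refine Nat.card_congr (Equiv.subtypeEquiv e.toEquiv fun y => ?_)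
  rw [Subgroup.mem_centralizer_singleton_iff, Subgroup.mem_centralizer_singleton_iff]
  constructor
  · intro h
    change e y * e x = e x * e y
    rw [← map_mul, h, map_mul]
  · intro h
    apply e.injective
    rw [map_mul, map_mul]
    exact h

theorem dzb_equiv {ℓ : ℕ} {a : H' → F} (h : DZB ℓ a) : DZB ℓ (fun x => a (e x)) :=
  ⟨blk_equiv e h.1, isCl_equiv e h.1.1.1, fun x hx => h.2.2 (e x) (by
    rwa [← card_cent_equiv e x])⟩

theorem ev_equiv' {m : ℕ} (σ : H' →* Matrix (Fin m) (Fin m) F) (τ : H →* Matrix (Fin m) (Fin m) F)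
    (hτ : ∀ x, τ x = σ (e x)) (a : H' → F) : ev τ (fun x => a (e x)) = ev σ a := by
  have := Fintype.ofFinite H
  have := Fintype.ofFinite H'
  unfold ev
  rw [finsum_eq_sum_of_fintype, finsum_eq_sum_of_fintype,
    ← Equiv.sum_comp e.toEquiv (fun t => a t • σ t)]
  exact Finset.sum_congr rfl fun t _ => by rw [hτ]; rfl

end equiv

/-- the trace of the representation of the block is stable -/
theorem tr_stable {ℓ : ℕ} {F : Type} [Field F] (hF : GoodF ℓ F) (hm : MatStmt) {G : Type} [Group G]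
    [Finite G] {N : Subgroup G} {b : G → F} (hNB : NB ℓ N b) {n : ℕ}
    (ρ : N →* Matrix (Fin n) (Fin n) F) (hρ : IsIrr ρ) (hρb : ev ρ (fun x : N => b x) = 1)
    (g : G) (c c' : N) (h : (c' : G) = g * c * g⁻¹) : tr ρ c' = tr ρ c := by
  let e : N ≃* N :=
    { toFun := fun x => ⟨g * x * g⁻¹, hNB.1.conj_mem x x.2 g⟩
      invFun := fun x => ⟨g⁻¹ * x * g, by
        have := hNB.1.conj_mem x x.2 g⁻¹
        rwa [inv_inv] at this⟩
      left_inv := fun x => Subtype.ext (by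
        change g⁻¹ * (g * x * g⁻¹) * g = x
        group)
      right_inv := fun x => Subtype.ext (by
        change g * (g⁻¹ * x * g) * g⁻¹ = x
        group)
      map_mul' := fun x y => Subtype.ext (by
        change g * (x * y) * g⁻¹ = g * x * g⁻¹ * (g * y * g⁻¹)
        group) }
  have he : ∀ x, ((e x : N) : G) = g * x * g⁻¹ := fun _ => rfl
  have hc : c' = e c := Subtype.ext (by rw [he, h])
  have h1 : ev (ρ.comp e.toMonoidHom) (fun x : N => b x) = 1 := by
    have h2 := ev_equiv' e ρ (ρ.comp e.toMonoidHom) (fun _ => rfl) (fun x : N => b x)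
    rw [hρb] at h2
    rw [← h2]
    refine congrArg _ ?_
    funext x
    change b (x : G) = b ((e x : N) : G)
    rw [he, hNB.2.1]
  have hirr : IsIrr (ρ.comp e.toMonoidHom) := by
    refine ⟨hρ.1, ?_⟩
    have : Set.range (ρ.comp e.toMonoidHom) = Set.range ρ := by
      ext M
      constructor
      · rintro ⟨x, rfl⟩; exact ⟨e x, rfl⟩
      · rintro ⟨x, rfl⟩; exact ⟨e.symm x, by
          change ρ (e (e.symm x)) = ρ x
          rw [MulEquiv.apply_symm_apply]⟩
    rw [this, hρ.2]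
  have h3 := (hm ℓ F hF N _ hNB.2.2.2).2.2.1 n n ρ (ρ.comp e.toMonoidHom) hρ hirr hρb h1
  rw [hc]
  exact (congrFun h3 c).symm

open Classical in
theorem mulF_supp {F G : Type} [Field F] [Group G] [Finite G] (K : Subgroup G) (a b : G → F)
    (hb : ∀ g, g ∉ K → b g = 0) (x : G) :
    mulF a b x = ∑ᶠ k : K, a (x * (k : G)⁻¹) * b k := by
  have := Fintype.ofFinite G
  have := Fintype.ofFinite K
  unfold mulF
  rw [finsum_eq_sum_of_fintype, finsum_eq_sum_of_fintype,
    ← Equiv.sum_comp ((Equiv.inv G).trans (Equiv.mulLeft x)) (fun t => a t * b (t⁻¹ * x))]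
  have h1 : ∀ t : G, a (((Equiv.inv G).trans (Equiv.mulLeft x)) t) *
      b ((((Equiv.inv G).trans (Equiv.mulLeft x)) t)⁻¹ * x) = a (x * t⁻¹) * b t := by
    intro t
    have e1 : ((Equiv.inv G).trans (Equiv.mulLeft x)) t = x * t⁻¹ := rfl
    have e2 : (x * t⁻¹)⁻¹ * x = t := by group
    rw [e1, e2]
  rw [Finset.sum_congr rfl fun t _ => h1 t]
  have h2 : ∑ t : G, a (x * t⁻¹) * b t =
      ∑ t ∈ Finset.univ.filter (fun t => t ∈ K), a (x * t⁻¹) * b t := by
    rw [Finset.sum_filter]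
    refine Finset.sum_congr rfl fun t _ => ?_
    by_cases ht : t ∈ K
    · rw [if_pos ht]
    · rw [if_neg ht, hb t ht, mul_zero]
  rw [h2]
  exact Finset.sum_subtype _ (fun t => by rw [Finset.mem_filter]; exact ⟨fun h => h.2, fun h =>
    ⟨Finset.mem_univ _, h⟩⟩) _

open Classical in
/-- the extension to a central extension with kernel of order prime to `ℓ` -/
theorem step1 (hcov : CovStmt) (hcen : CenStmt) (hm : MatStmt) {ℓ : ℕ} {F : Type} [Field F]
    (hF : GoodF ℓ F) {G : Type} [Group G] [Finite G] (N M : Subgroup G) (b e : G → F)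
    (hNB : NB ℓ N b) (he : IsIdem e) (heb : mulF e b = e) (hM : M.Normal) (hpos : Pos ℓ e M) :
    ∃ (E : Type) (_ : Group E) (_ : Finite E) (π : E →* G) (K : Subgroup E) (bE eE : E → F) (n : ℕ)
      (α : E →* Matrix (Fin n) (Fin n) F), Function.Surjective π ∧
      (∀ x, π x = 1 → x ∈ Subgroup.center E) ∧ ¬ ℓ ∣ Nat.card π.ker ∧
      (∀ x ∈ K, π x = 1 → x = 1) ∧ K.map π = N ∧ NB ℓ K bE ∧ IsIrr (α.comp K.subtype) ∧
      ev (α.comp K.subtype) (fun x : K => bE x) = 1 ∧ IsIdem eE ∧ mulF eE bE = eE ∧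
      Pos ℓ eE (M.comap π) ∧ YY ℓ (M.comap π) eE = Nat.card π.ker * YY ℓ M e := by
  obtain ⟨n, ρ, hρ, hρb⟩ := (hm ℓ F hF N _ hNB.2.2.2).1
  obtain ⟨E, i1, i2, π, α, hπ, hcentral, hprime, hinj, _, himp, hext⟩ := hcov ℓ F hF G N n ρ hNB.1 hρ
    (fun g c c' h => tr_stable hF hm hNB ρ hρ hρb g c c' h)
  obtain ⟨hidem, _, hcm⟩ := hcen ℓ F hF E G π hπ hcentral hprime e he
  obtain ⟨hYY, hPos⟩ := hcm M hM
  have hα1 : ∀ x : E, α x * α x⁻¹ = 1 := fun x => by rw [← map_mul, mul_inv_cancel, map_one]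
  have hα2 : ∀ x : E, α x⁻¹ * α x = 1 := fun x => by rw [← map_mul, inv_mul_cancel, map_one]
  let K : Subgroup E :=
    { carrier := {x | ∃ h : N, π x = h ∧ α x = ρ h}
      one_mem' := ⟨1, by rw [map_one]; rfl, by rw [map_one, map_one]⟩
      mul_mem' := by
        rintro x y ⟨h, h1, h2⟩ ⟨h', h1', h2'⟩
        exact ⟨h * h', by rw [map_mul, h1, h1']; rfl, by rw [map_mul, map_mul, h2, h2']⟩
      inv_mem' := by
        rintro x ⟨h, h1, h2⟩
        refine ⟨h⁻¹, by rw [map_inv, h1]; rfl, ?_⟩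
        have e1 : ρ h * ρ h⁻¹ = 1 := by rw [← map_mul, mul_inv_cancel, map_one]
        calc α x⁻¹ = α x⁻¹ * (α x * ρ h⁻¹) := by rw [h2, e1, mul_one]
          _ = ρ h⁻¹ := by rw [← mul_assoc, hα2, one_mul] }
  have hK : ∀ x, x ∈ K ↔ ∃ h : N, π x = h ∧ α x = ρ h := fun _ => Iff.rfl
  have hKinj : ∀ x ∈ K, π x = 1 → x = 1 := by
    rintro x ⟨h, h1, h2⟩ hx
    have : h = 1 := Subtype.ext (by rw [← h1, hx]; rfl)
    apply hinj x hx
    rw [h2, this, map_one]
  have hKmap : K.map π = N := by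
    ext y
    constructor
    · rintro ⟨x, ⟨h, h1, _⟩, rfl⟩
      rw [h1]; exact h.2
    · intro hy
      obtain ⟨x, h1, h2⟩ := hext ⟨y, hy⟩
      exact ⟨x, ⟨⟨y, hy⟩, h1, h2⟩, h1⟩
  let κ : K ≃* N := MulEquiv.ofBijective
    ((π.comp K.subtype).codRestrict N (fun x => by
      obtain ⟨h, h1, _⟩ := x.2
      change π (x : E) ∈ N
      rw [h1]; exact h.2))
    ⟨by
      intro x y hxy
      have h1 : π x = π y := congrArg Subtype.val hxy
      have h2 : (x : E) * (y : E)⁻¹ = 1 := hKinj _ (K.mul_mem x.2 (K.inv_mem y.2))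
        (by rw [map_mul, map_inv, h1, mul_inv_cancel])
      exact Subtype.ext (mul_inv_eq_one.1 h2),
    by
      intro y
      obtain ⟨x, h1, h2⟩ := hext y
      exact ⟨⟨x, y, h1, h2⟩, Subtype.ext h1⟩⟩
  have hκ : ∀ x : K, ((κ x : N) : G) = π x := fun _ => rfl
  have hκα : ∀ x : K, (α.comp K.subtype) x = ρ (κ x) := by
    intro x
    obtain ⟨h, h1, h2⟩ := x.2
    have : κ x = h := Subtype.ext (by rw [hκ, h1])
    rw [this]; exact h2
  have hKnormal : K.Normal := by
    refine ⟨fun x hx g => ?_⟩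
    obtain ⟨h, h1, h2⟩ := hx
    refine ⟨⟨π g * h * (π g)⁻¹, hNB.1.conj_mem h h.2 _⟩, ?_, ?_⟩
    · rw [map_mul, map_mul, map_inv, h1]
    · have h3 := himp g h ⟨π g * h * (π g)⁻¹, hNB.1.conj_mem h h.2 _⟩ rfl
      rw [map_mul, map_mul, h2, h3, mul_assoc, hα1, mul_one]
  let bE : E → F := fun x => if x ∈ K then b (π x) else 0
  have hbE : ∀ x : K, bE x = b ((κ x : N) : G) := by
    intro x
    change (if (x : E) ∈ K then b (π x) else 0) = _
    rw [if_pos x.2, hκ]
  have hbE' : (fun x : K => bE x) = fun x : K => (fun y : N => b y) (κ x) := funext hbE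
  refine ⟨E, i1, i2, π, K, bE, fun x => (Nat.card π.ker : F)⁻¹ * e (π x), n, α, hπ, hcentral,
    hprime, hKinj, hKmap, ⟨hKnormal, ?_, ?_, ?_⟩, ?_, ?_, hidem, ?_, hPos hpos, hYY⟩
  · intro x y
    change (if y * x * y⁻¹ ∈ K then b (π (y * x * y⁻¹)) else 0) = if x ∈ K then b (π x) else 0
    have h1 : y * x * y⁻¹ ∈ K ↔ x ∈ K := by
      constructor
      · intro h
        have := hKnormal.conj_mem _ h y⁻¹
        have e1 : y⁻¹ * (y * x * y⁻¹) * y⁻¹⁻¹ = x := by group
        rwa [e1] at this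
      · exact fun h => hKnormal.conj_mem x h y
    by_cases hx : x ∈ K
    · rw [if_pos (h1.2 hx), if_pos hx, map_mul, map_mul, map_inv, hNB.2.1]
    · rw [if_neg (fun h => hx (h1.1 h)), if_neg hx]
  · intro g hg
    exact if_neg hg
  · rw [hbE']
    exact dzb_equiv κ hNB.2.2.2
  · refine ⟨hρ.1, ?_⟩
    have : Set.range (α.comp K.subtype) = Set.range ρ := by
      ext A
      constructor
      · rintro ⟨x, rfl⟩; exact ⟨κ x, (hκα x).symm⟩
      · rintro ⟨x, rfl⟩; exact ⟨κ.symm x, by rw [hκα, MulEquiv.apply_symm_apply]⟩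
    rw [this, hρ.2]
  · rw [hbE']
    exact (ev_equiv' κ ρ (α.comp K.subtype) hκα (fun y : N => b y)).trans hρb
  · have := Fintype.ofFinite K
    have := Fintype.ofFinite N
    funext x
    have h1 : mulF e b (π x) = e (π x) := congrFun heb (π x)
    rw [← h1, mulF_supp K _ bE (fun g hg => if_neg hg), mulF_supp N e b hNB.2.2.1,
      finsum_eq_sum_of_fintype, finsum_eq_sum_of_fintype,
      ← Equiv.sum_comp κ.toEquiv (fun k : N => e (π x * (k : G)⁻¹) * b k), Finset.mul_sum]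
    refine Finset.sum_congr rfl fun k _ => ?_
    have e1 : κ.toEquiv k = κ k := rfl
    rw [e1, hbE, hκ, map_mul, map_inv, mul_assoc]

section groups

variable {E G : Type} [Group E] [Finite E] [Group G] [Finite G]

/-- the groups of the final assembly -/
theorem grp (π : E →* G) (hπ : Function.Surjective π) (hcen : ∀ x, π x = 1 → x ∈ Subgroup.center E)
    (K : Subgroup E) [K.Normal] (hinj : ∀ x ∈ K, π x = 1 → x = 1) (N M : Subgroup G) [N.Normal]
    (hKN : K.map π = N) (hM : M.Normal) :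
    ((π.ker).map (QuotientGroup.mk' K) ≤ Subgroup.center (E ⧸ K)) ∧
    Nat.card ((π.ker).map (QuotientGroup.mk' K)) = Nat.card π.ker ∧
    ((M.comap π).map (QuotientGroup.mk' K)).Normal ∧
    (π.ker).map (QuotientGroup.mk' K) ≤ (M.comap π).map (QuotientGroup.mk' K) ∧
    Nat.card K = Nat.card N ∧
    (∃ ψ : E ⧸ K →* G ⧸ N, Function.Surjective ψ ∧ ψ.ker = (π.ker).map (QuotientGroup.mk' K)) ∧
    ∃ φ : (M.comap π).map (QuotientGroup.mk' K) →* M ⧸ N.subgroupOf M, Function.Surjective φ ∧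
      φ.ker = ((π.ker).map (QuotientGroup.mk' K)).subgroupOf
        ((M.comap π).map (QuotientGroup.mk' K)) ∧
      ((π.ker).map (QuotientGroup.mk' K)).relIndex ((M.comap π).map (QuotientGroup.mk' K)) =
        N.relIndex M := by
  have hmk : ∀ x : E, QuotientGroup.mk' K x = 1 ↔ x ∈ K := fun x => QuotientGroup.eq_one_iff x
  have hle : K ≤ N.comap π := by
    intro x hx
    rw [← hKN]
    exact ⟨x, hx, rfl⟩
  let ψ : E ⧸ K →* G ⧸ N := QuotientGroup.map K N π hle
  have hψ : ∀ x : E, ψ (QuotientGroup.mk' K x) = QuotientGroup.mk' N (π x) := fun _ => rfl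
  let M' := (M.comap π).map (QuotientGroup.mk' K)
  let j : M ⧸ N.subgroupOf M →* G ⧸ N := QuotientGroup.map (N.subgroupOf M) N M.subtype le_rfl
  have hj : ∀ m : M, j (QuotientGroup.mk' (N.subgroupOf M) m) = QuotientGroup.mk' N (m : G) :=
    fun _ => rfl
  have hjinj : Function.Injective j := by
    rw [← MonoidHom.ker_eq_bot_iff, eq_bot_iff]
    intro q hq
    obtain ⟨m, rfl⟩ := QuotientGroup.mk'_surjective _ q
    rw [MonoidHom.mem_ker, hj] at hq
    have h1 : (m : G) ∈ N := (QuotientGroup.eq_one_iff (m : G)).1 hq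
    exact (QuotientGroup.eq_one_iff m).2 h1
  have hrange : ∀ q : M', ψ q ∈ j.range := by
    rintro ⟨q, x, hx, rfl⟩
    exact ⟨QuotientGroup.mk' (N.subgroupOf M) ⟨π x, hx⟩, rfl⟩
  let φ : M' →* M ⧸ N.subgroupOf M :=
    (MonoidHom.ofInjective hjinj).symm.toMonoidHom.comp
      ((ψ.comp M'.subtype).codRestrict j.range hrange)
  have hφ : ∀ q : M', j (φ q) = ψ q := by
    intro q
    have h1 : MonoidHom.ofInjective hjinj (φ q) = ⟨ψ q, hrange q⟩ :=
      MulEquiv.apply_symm_apply _ _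
    exact congrArg Subtype.val h1
  have hsurj : Function.Surjective φ := by
    intro q
    obtain ⟨m, rfl⟩ := QuotientGroup.mk'_surjective _ q
    obtain ⟨x, hx⟩ := hπ m
    refine ⟨⟨QuotientGroup.mk' K x, x, ?_, rfl⟩, ?_⟩
    · change π x ∈ M
      rw [hx]; exact m.2
    · apply hjinj
      rw [hφ, hj]
      change ψ (QuotientGroup.mk' K x) = _
      rw [hψ, hx]
  have hker : φ.ker = ((π.ker).map (QuotientGroup.mk' K)).subgroupOf M' := by
    ext q
    rw [MonoidHom.mem_ker, Subgroup.mem_subgroupOf, ← map_eq_one_iff j hjinj, hφ]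
    obtain ⟨q, x, hx, rfl⟩ := q
    change ψ (QuotientGroup.mk' K x) = 1 ↔ QuotientGroup.mk' K x ∈ (π.ker).map (QuotientGroup.mk' K)
    rw [hψ]
    constructor
    · intro h
      have h1 : π x ∈ N := (QuotientGroup.eq_one_iff (π x)).1 h
      rw [← hKN] at h1
      obtain ⟨k, hk, hkx⟩ := h1
      refine ⟨x * k⁻¹, ?_, ?_⟩
      · change π (x * k⁻¹) = 1
        rw [map_mul, map_inv, hkx, mul_inv_cancel]
      · rw [map_mul, map_inv, (hmk k).2 hk, inv_one, mul_one]
    · rintro ⟨z, hz, he⟩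
      have h1 : z⁻¹ * x ∈ K := by
        rw [← hmk, map_mul, map_inv, he, inv_mul_cancel]
      have h2 : π (z⁻¹ * x) ∈ N := by rw [← hKN]; exact ⟨_, h1, rfl⟩
      have h3 : π z = 1 := hz
      rw [map_mul, map_inv, h3, inv_one, one_mul] at h2
      exact (QuotientGroup.eq_one_iff (π x)).2 h2
  have hψs : Function.Surjective ψ := by
    intro q
    obtain ⟨g, rfl⟩ := QuotientGroup.mk'_surjective N q
    obtain ⟨x, rfl⟩ := hπ g
    exact ⟨QuotientGroup.mk' K x, rfl⟩
  have hψk : ψ.ker = (π.ker).map (QuotientGroup.mk' K) := by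
    ext q
    obtain ⟨x, rfl⟩ := QuotientGroup.mk'_surjective K q
    rw [MonoidHom.mem_ker, hψ]
    constructor
    · intro h
      have h1 : π x ∈ N := (QuotientGroup.eq_one_iff (π x)).1 h
      rw [← hKN] at h1
      obtain ⟨k, hk, hkx⟩ := h1
      refine ⟨x * k⁻¹, ?_, ?_⟩
      · change π (x * k⁻¹) = 1
        rw [map_mul, map_inv, hkx, mul_inv_cancel]
      · rw [map_mul, map_inv, (hmk k).2 hk, inv_one, mul_one]
    · rintro ⟨z, hz, he⟩
      have h1 : z⁻¹ * x ∈ K := by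
        rw [← hmk, map_mul, map_inv, he, inv_mul_cancel]
      have h2 : π (z⁻¹ * x) ∈ N := by rw [← hKN]; exact ⟨_, h1, rfl⟩
      have h3 : π z = 1 := hz
      rw [map_mul, map_inv, h3, inv_one, one_mul] at h2
      exact (QuotientGroup.eq_one_iff (π x)).2 h2
  refine ⟨?_, ?_, ?_, ?_, ?_, ⟨ψ, hψs, hψk⟩, φ, hsurj, hker, ?_⟩
  · rintro _ ⟨x, hx, rfl⟩
    refine Subgroup.mem_center_iff.2 fun q => ?_
    obtain ⟨y, rfl⟩ := QuotientGroup.mk'_surjective K q
    rw [← map_mul, ← map_mul, Subgroup.mem_center_iff.1 (hcen x hx) y]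
  · refine (Nat.card_congr (Equiv.ofBijective
      (fun x : π.ker => (⟨QuotientGroup.mk' K x, x, x.2, rfl⟩ :
        (π.ker).map (QuotientGroup.mk' K))) ⟨?_, ?_⟩)).symm
    · intro x y h
      have h1 : QuotientGroup.mk' K (x : E) = QuotientGroup.mk' K (y : E) := congrArg Subtype.val h
      have h2 : (y : E)⁻¹ * x ∈ K := by
        rw [← hmk, map_mul, map_inv, h1, inv_mul_cancel]
      have h3 : (y : E)⁻¹ * x = 1 := hinj _ h2 (by
        have hx : π x = 1 := x.2
        have hy : π y = 1 := y.2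
        rw [map_mul, map_inv, hx, hy, inv_one, mul_one])
      exact Subtype.ext (inv_mul_eq_one.1 h3).symm
    · rintro ⟨q, x, hx, rfl⟩
      exact ⟨⟨x, hx⟩, rfl⟩
  · exact Subgroup.Normal.map (hM.comap π) _ (QuotientGroup.mk'_surjective K)
  · apply Subgroup.map_mono
    intro x hx
    have hx' : π x = 1 := hx
    change π x ∈ M
    rw [hx']; exact M.one_mem
  · rw [← hKN]
    refine Nat.card_congr (Equiv.ofBijective (fun x : K => (⟨π x, x, x.2, rfl⟩ : K.map π)) ⟨?_, ?_⟩)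
    · intro x y h
      have h1 : π (x : E) = π (y : E) := congrArg Subtype.val h
      have h2 : (x : E) * (y : E)⁻¹ = 1 := hinj _ (K.mul_mem x.2 (K.inv_mem y.2))
        (by rw [map_mul, map_inv, h1, mul_inv_cancel])
      exact Subtype.ext (mul_inv_eq_one.1 h2)
    · rintro ⟨q, x, hx, rfl⟩
      exact ⟨⟨x, hx⟩, rfl⟩
  · rw [Subgroup.relIndex, ← hker, Subgroup.index_ker, MonoidHom.range_eq_top.2 hsurj,
      Subgroup.card_top, ← Subgroup.index_eq_card, ← Subgroup.relIndex]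

end groups

/-- DZ: a normal subgroup with a stable block of defect zero can be removed -/
theorem dz (hcov : CovStmt) (hcen : CenStmt) (hm : MatStmt) (hnch : NchStmt) (hsup : SupStmt)
    (hnco : NcoStmt) (hdzq : DzqStmt) (hpsf : PsfStmt) : DzStmt := by
  intro ℓ F _ hF G _ _ N M _ b e hNB hM hNM he heb hpos
  obtain ⟨E, i1, i2, π, K, bE, eE, n, α, hπ, hcentral, hprime, hKinj, hKmap, hNBE, hα, hαb, heE,
    heEb, hposE, hYY⟩ := step1 hcov hcen hm hF N M b e hNB he heb hM hpos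
  have hKn : K.Normal := hNBE.1
  have hKM : K ≤ M.comap π := by
    intro x hx
    apply hNM
    rw [← hKmap]
    exact ⟨x, hx, rfl⟩
  obtain ⟨f, hf1, hf2, hf3⟩ := step2 hnch hsup hnco hdzq hpsf hF K (M.comap π) bE eE n α hNBE hα hαb
    heE heEb (hM.comap π) hKM hposE
  obtain ⟨h1, h2, h3, h4, h5, ⟨ψ, p1, p2⟩, φ, h6, h7, h8⟩ := grp π hπ hcentral K hKinj N M hKmap hM
  refine ⟨E ⧸ K, inferInstance, inferInstance, (π.ker).map (QuotientGroup.mk' K),
    (M.comap π).map (QuotientGroup.mk' K), φ, ψ, f, p1, p2, h1, ?_, h3, h4, h6, h7, h8, hf1, hf2, ?_⟩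
  · rw [h2]; exact hprime
  · rw [h2, ← hYY, hf3, h5]

end Pool.Agent.PP.H18
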