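import Mathlib

/-!
# Squad PP, module EPS: two commuting automorphisms of a minimal abelian group
-/

set_option linter.unusedSectionVars false

noncomputable section

namespace Pool.Agent.PP.H18

/-- the endomorphism of the additive group -/
def phi {A : Type} [CommGroup A] : MulAut A →* AddMonoid.End (Additive A) where
  toFun e := AddMonoidHom.mk' (fun a => Additive.ofMul (e a.toMul)) (fun a b => by
    rw [toMul_add, map_mul, ofMul_mul])
  map_one' := rfl
  map_mul' _ _ := rfl

theorem phi_apply {A : Type} [CommGroup A] (e : MulAut A) (a : Additive A) :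
    phi e a = Additive.ofMul (e a.toMul) := rfl

theorem phi_inj {A : Type} [CommGroup A] : Function.Injective (phi (A := A)) := by
  intro e e' h
  ext a
  exact congrArg Additive.toMul (DFunLike.congr_fun h (Additive.ofMul a))

theorem cyc' {A : Type} [CommGroup A] [Finite A] [Nontrivial A] (f g : MulAut A)
    (hfg : f * g = g * f)
    (hmin : ∀ B : Subgroup A, (∀ b ∈ B, f b ∈ B) → (∀ b ∈ B, g b ∈ B) → B = ⊥ ∨ B = ⊤) :
    ∃ w : MulAut A, ∃ i j : ℕ, f = w ^ i ∧ g = w ^ j := by
  let R : Subring (AddMonoid.End (Additive A)) := Subring.closure {phi f, phi g}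
  have hcomm : ∀ x ∈ ({phi f, phi g} : Set (AddMonoid.End (Additive A))),
      ∀ y ∈ ({phi f, phi g} : Set (AddMonoid.End (Additive A))), x * y = y * x := by
    have h1 : phi f * phi g = phi g * phi f := by rw [← map_mul, hfg, map_mul]
    rintro x (rfl | rfl) y (rfl | rfl)
    · rfl
    · exact h1
    · exact h1.symm
    · rfl
  letI : CommRing R := Subring.closureCommRingOfComm hcomm
  have hmf : phi f ∈ R := Subring.subset_closure (Set.mem_insert _ _)
  have hmg : phi g ∈ R := Subring.subset_closure (Set.mem_insert_of_mem _ rfl)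
  have hc : ∀ r s : R, (r : AddMonoid.End (Additive A)) * s = s * r := fun r s =>
    congrArg Subtype.val (mul_comm r s)
  have hinj : ∀ r : R, r ≠ 0 → ∀ a, (r : AddMonoid.End (Additive A)) a = 0 → a = 0 := by
    intro r hr a ha
    let B : Subgroup A :=
      { carrier := {b | (r : AddMonoid.End (Additive A)) (Additive.ofMul b) = 0}
        one_mem' := map_zero (r : AddMonoid.End (Additive A))
        mul_mem' := fun {x y} hx hy => by
          change (r : AddMonoid.End (Additive A)) (Additive.ofMul (x * y)) = 0
          rw [ofMul_mul, map_add, hx, hy, add_zero]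
        inv_mem' := fun {x} hx => by
          change (r : AddMonoid.End (Additive A)) (Additive.ofMul x⁻¹) = 0
          rw [ofMul_inv, map_neg, hx, neg_zero] }
    have hB : ∀ b, b ∈ B ↔ (r : AddMonoid.End (Additive A)) (Additive.ofMul b) = 0 :=
      fun _ => Iff.rfl
    have key : ∀ e : MulAut A, phi e ∈ R → ∀ b ∈ B, e b ∈ B := by
      intro e he b hb
      rw [hB] at hb ⊢
      have h2 := DFunLike.congr_fun (hc r ⟨phi e, he⟩) (Additive.ofMul b)
      change (r : AddMonoid.End (Additive A)) (phi e (Additive.ofMul b)) =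
        phi e ((r : AddMonoid.End (Additive A)) (Additive.ofMul b)) at h2
      rw [hb, map_zero] at h2
      exact h2
    rcases hmin B (key f hmf) (key g hmg) with h | h
    · have h3 : a.toMul ∈ B := ha
      rw [h, Subgroup.mem_bot] at h3
      exact h3
    · exfalso
      apply hr
      apply Subtype.ext
      ext b
      have h3 : b.toMul ∈ B := by rw [h]; trivial
      exact congrArg Additive.toMul h3
  have hnt : Nontrivial R := by
    obtain ⟨a, ha⟩ := exists_ne (1 : A)
    refine ⟨⟨1, 0, fun h => ha ?_⟩⟩
    have := DFunLike.congr_fun (congrArg Subtype.val h) (Additive.ofMul a)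
    exact this
  have hnz : NoZeroDivisors R := by
    refine ⟨fun {r s} h => ?_⟩
    by_cases hr : r = 0
    · exact Or.inl hr
    · right
      apply Subtype.ext
      ext b
      have h1 : (r : AddMonoid.End (Additive A)) ((s : AddMonoid.End (Additive A)) b) = 0 :=
        DFunLike.congr_fun (congrArg Subtype.val h) b
      exact congrArg Additive.toMul (hinj r hr _ h1)
  have hdom : IsDomain R := NoZeroDivisors.to_isDomain R
  let G : Subgroup (MulAut A) := Subgroup.closure {f, g}
  have hG : ∀ e ∈ G, phi e ∈ R := by
    intro e he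
    induction he using Subgroup.closure_induction with
    | mem x hx =>
      rcases hx with rfl | rfl
      · exact hmf
      · exact hmg
    | one => rw [map_one]; exact R.one_mem
    | mul x y _ _ hx hy => rw [map_mul]; exact R.mul_mem hx hy
    | inv x _ hx =>
      have h1 : x⁻¹ = x ^ (orderOf x - 1) := by
        rw [inv_eq_iff_mul_eq_one, ← pow_succ', Nat.sub_add_cancel (orderOf_pos x),
          pow_orderOf_eq_one]
      rw [h1, map_pow]
      exact R.pow_mem hx _
  let ψ : G →* R :=
    { toFun := fun e => ⟨phi e, hG e e.2⟩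
      map_one' := Subtype.ext (map_one phi)
      map_mul' := fun x y => Subtype.ext (map_mul phi _ _) }
  have hψ : Function.Injective ψ := by
    intro x y h
    exact Subtype.ext (phi_inj (congrArg Subtype.val h))
  have : IsCyclic G := isCyclic_of_injective_ringHom ψ hψ
  obtain ⟨w, hw⟩ := IsCyclic.exists_monoid_generator (α := G)
  obtain ⟨i, hi⟩ := hw ⟨f, Subgroup.subset_closure (Set.mem_insert _ _)⟩
  obtain ⟨j, hj⟩ := hw ⟨g, Subgroup.subset_closure (Set.mem_insert_of_mem _ rfl)⟩
  exact ⟨w, i, j, (congrArg Subtype.val hi).symm, (congrArg Subtype.val hj).symm⟩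

theorem cyc {A : Type} [Group A] [Finite A] [Nontrivial A] (hA : ∀ a b : A, a * b = b * a)
    (f g : MulAut A) (hfg : f * g = g * f)
    (hmin : ∀ B : Subgroup A, (∀ b ∈ B, f b ∈ B) → (∀ b ∈ B, g b ∈ B) → B = ⊥ ∨ B = ⊤) :
    ∃ w : MulAut A, ∃ i j : ℕ, f = w ^ i ∧ g = w ^ j :=
  letI : CommGroup A := { (inferInstance : Group A) with mul_comm := hA }
  cyc' f g hfg hmin

end Pool.Agent.PP.H18
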