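import Pool.Agent.Helper18_PP.Bet
import Pool.Agent.Helper18_PP.Cyc

/-!
# Squad PP, module EPS: comparison of commutators
-/

open scoped BigOperators

set_option linter.unusedSectionVars false

noncomputable section

namespace Pool.Agent.PP.H18

open Pool.Agent.PP

section cm

variable {F N : Type} [Field F] [Group N] [Finite N] {ℓ : ℕ} {b : N → F}
  {P : Subgroup (MulAut N)} {n n' : ℕ}
  {ρ : (⊤ : Subgroup N) →* Matrix (Fin n) (Fin n) F} {ρ' : fixN P →* Matrix (Fin n') (Fin n') F}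

theorem comm_scal {U : Type} [Group U] (x y y' : U) (h : ∀ z : U, (y⁻¹ * y') * z = z * (y⁻¹ * y')) :
    x * y' * x⁻¹ * y'⁻¹ = x * y * x⁻¹ * y⁻¹ := by
  have e : y' = y * (y⁻¹ * y') := by group
  have h1 := h x⁻¹
  generalize y⁻¹ * y' = s at e h1 h
  subst e
  rw [mul_inv_rev]
  calc x * (y * s) * x⁻¹ * (s⁻¹ * y⁻¹) = x * y * (s * x⁻¹) * s⁻¹ * y⁻¹ := by group
    _ = x * y * x⁻¹ * y⁻¹ := by rw [h1]; group

theorem impl_central {K : Subgroup N} {m : ℕ} {σ : K →* Matrix (Fin m) (Fin m) F} (hσ : IsIrr σ)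
    {φ : MulAut N} (hK : ∀ h, φ h ∈ K ↔ h ∈ K)
    {X Y : (Matrix (Fin m) (Fin m) F)ˣ} (hX : Impl σ φ X) (hY : Impl σ φ Y)
    (Z : (Matrix (Fin m) (Fin m) F)ˣ) : (X⁻¹ * Y) * Z = Z * (X⁻¹ * Y) := by
  obtain ⟨w, _, hw⟩ := impl_uniq hσ hK hX hY
  apply Units.ext
  have e : ((X⁻¹ * Y : (Matrix (Fin m) (Fin m) F)ˣ) : Matrix (Fin m) (Fin m) F) = w • 1 := by
    rw [Units.val_mul, hw, Matrix.mul_smul, Units.inv_mul]
  rw [Units.val_mul (X⁻¹ * Y) Z, Units.val_mul Z (X⁻¹ * Y), e, Matrix.mul_smul, smul_mul_assoc,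
    mul_one, one_mul]

theorem Dat.unit (hm : MatStmt) (hc : IbcStmt) (D : Dat ℓ F b P ρ ρ')
    {A : (Matrix (Fin n) (Fin n) F)ˣ} (hA : FixM ρ P A) :
    ∃ A' : (Matrix (Fin n') (Fin n') F)ˣ, bet P ρ ρ' A = A' ∧
      bet P ρ ρ' ((A⁻¹ : (Matrix (Fin n) (Fin n) F)ˣ) : Matrix _ _ F) =
        ((A'⁻¹ : (Matrix (Fin n') (Fin n') F)ˣ) : Matrix _ _ F) := by
  have h1 : bet P ρ ρ' A * bet P ρ ρ' ((A⁻¹ : (Matrix (Fin n) (Fin n) F)ˣ) : Matrix _ _ F) = 1 := by
    rw [← (D.mul hm hc hA (fix_inv hA)).2, Units.mul_inv, D.one hm]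
  have h2 : bet P ρ ρ' ((A⁻¹ : (Matrix (Fin n) (Fin n) F)ˣ) : Matrix _ _ F) * bet P ρ ρ' A = 1 := by
    rw [← (D.mul hm hc (fix_inv hA) hA).2, Units.inv_mul, D.one hm]
  exact ⟨⟨_, _, h1, h2⟩, rfl, rfl⟩

/-- the comparison for a pair of automorphisms -/
def Cm (P : Subgroup (MulAut N)) (ρ : (⊤ : Subgroup N) →* Matrix (Fin n) (Fin n) F)
    (ρ' : fixN P →* Matrix (Fin n') (Fin n') F) (x y : MulAut N) : Prop :=
  ∀ X Y X' Y', Impl ρ x X → Impl ρ y Y → Impl ρ' x X' → Impl ρ' y Y' →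
    FixM ρ P ((X * Y * X⁻¹ * Y⁻¹ : (Matrix (Fin n) (Fin n) F)ˣ) : Matrix _ _ F) ∧
    bet P ρ ρ' ((X * Y * X⁻¹ * Y⁻¹ : (Matrix (Fin n) (Fin n) F)ˣ) : Matrix _ _ F) =
      ((X' * Y' * X'⁻¹ * Y'⁻¹ : (Matrix (Fin n') (Fin n') F)ˣ) : Matrix _ _ F)

theorem Dat.cm_right (hm : MatStmt) (hc : IbcStmt) (D : Dat ℓ F b P ρ ρ') (x y : MulAut N)
    (hx : ∀ p ∈ P, x * p * x⁻¹ ∈ P) (hy : ∀ p ∈ P, Commute y p) : Cm P ρ ρ' x y := by
  intro X Y X' Y' hX hY hX' hY'
  obtain ⟨hfY, Y₁, hY₁, hiY₁⟩ := D.comm hm hc y hy Y hY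
  obtain ⟨hf1, e1⟩ := D.conj hm hc x hx X X' hX hX' Y hfY
  obtain ⟨Y₂, hY₂, hY₂'⟩ := D.unit hm hc hfY
  have e12 : Y₂ = Y₁ := Units.ext (by rw [← hY₂, hY₁])
  subst e12
  have hyn : ∀ p ∈ P, y * p * y⁻¹ ∈ P := by
    intro p hp
    have := (hy p hp).eq
    rw [this, mul_inv_cancel_right]; exact hp
  have e2 := D.mul hm hc hf1 (fix_inv hfY)
  have e3 : ((X * Y * X⁻¹ * Y⁻¹ : (Matrix (Fin n) (Fin n) F)ˣ) : Matrix (Fin n) (Fin n) F) =
      (X : Matrix (Fin n) (Fin n) F) * (Y : Matrix (Fin n) (Fin n) F) *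
        ((X⁻¹ : (Matrix (Fin n) (Fin n) F)ˣ) : Matrix (Fin n) (Fin n) F) *
        ((Y⁻¹ : (Matrix (Fin n) (Fin n) F)ˣ) : Matrix (Fin n) (Fin n) F) := by
    rw [Units.val_mul, Units.val_mul, Units.val_mul]
  rw [comm_scal X' Y₂ Y' (impl_central D.irr' (fixN_stable hyn).2 hiY₁ hY'), e3]
  refine ⟨e2.1, ?_⟩
  rw [e2.2, e1, hY₂', hY₂, Units.val_mul, Units.val_mul, Units.val_mul]

theorem Dat.cm_left (hm : MatStmt) (hc : IbcStmt) (D : Dat ℓ F b P ρ ρ') (x y : MulAut N)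
    (hx : ∀ p ∈ P, Commute x p) (hy : ∀ p ∈ P, y * p * y⁻¹ ∈ P) : Cm P ρ ρ' x y := by
  intro X Y X' Y' hX hY hX' hY'
  obtain ⟨h1, h2⟩ := D.cm_right hm hc y x hy hx Y X Y' X' hY hX hY' hX'
  have e : ∀ {U : Type} [Group U] (p q : U), p * q * p⁻¹ * q⁻¹ = (q * p * q⁻¹ * p⁻¹)⁻¹ := by
    intro U _ p q; group
  obtain ⟨A, hA, hA'⟩ := D.unit hm hc h1
  have e1 : A = Y' * X' * Y'⁻¹ * X'⁻¹ := Units.ext (by rw [← hA, h2])
  rw [e X Y, e X' Y', ← e1]
  exact ⟨fix_inv h1, hA'⟩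

theorem cm_move1 {x y : MulAut N} (hy : ∀ p ∈ P, y * p * y⁻¹ ∈ P)
    (h : Cm P ρ ρ' (x * y⁻¹) y) : Cm P ρ ρ' x y := by
  intro X Y X' Y' hX hY hX' hY'
  have hi := (fixN_stable hy).2
  have hi' : ∀ h, y⁻¹ h ∈ fixN P ↔ h ∈ fixN P := by
    intro h
    rw [← hi (y⁻¹ h), MulAut.apply_inv_self]
  have h1 := h (X * Y⁻¹) Y (X' * Y'⁻¹) Y' (impl_mul (ktop rfl _) hX (impl_inv hY)) hY
    (impl_mul hi' hX' (impl_inv hY')) hY'
  have e : ∀ {U : Type} [Group U] (p q : U), p * q⁻¹ * q * (p * q⁻¹)⁻¹ * q⁻¹ =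
      p * q * p⁻¹ * q⁻¹ := by
    intro U _ p q; group
  rw [e, e] at h1
  exact h1

theorem cm_move2 {x y : MulAut N} (hx : ∀ p ∈ P, x * p * x⁻¹ ∈ P)
    (h : Cm P ρ ρ' x (y * x⁻¹)) : Cm P ρ ρ' x y := by
  intro X Y X' Y' hX hY hX' hY'
  have hi := (fixN_stable hx).2
  have hi' : ∀ h, x⁻¹ h ∈ fixN P ↔ h ∈ fixN P := by
    intro h
    rw [← hi (x⁻¹ h), MulAut.apply_inv_self]
  have h1 := h X (Y * X⁻¹) X' (Y' * X'⁻¹) hX (impl_mul (ktop rfl _) hY (impl_inv hX))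
    hX' (impl_mul hi' hY' (impl_inv hX'))
  have e : ∀ {U : Type} [Group U] (p q : U), p * (q * p⁻¹) * p⁻¹ * (q * p⁻¹)⁻¹ =
      p * q * p⁻¹ * q⁻¹ := by
    intro U _ p q; group
  rw [e, e] at h1
  exact h1

theorem nrm_of {x : MulAut N} (hx : x ∈ Subgroup.normalizer (P : Set (MulAut N))) :
    ∀ p ∈ P, x * p * x⁻¹ ∈ P := fun p hp => (Subgroup.mem_normalizer_iff.1 hx p).1 hp

theorem comm_of {x : Subgroup.normalizer (P : Set (MulAut N))}
    (hx : P.normalizerMonoidHom x = 1) : ∀ p ∈ P, Commute (x : MulAut N) p := by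
  intro p hp
  have h1 : x ∈ P.normalizerMonoidHom.ker := hx
  rw [Subgroup.normalizerMonoidHom_ker, Subgroup.mem_subgroupOf] at h1
  exact (Subgroup.mem_centralizer_iff.1 h1 p hp).symm

theorem Dat.euclid (hm : MatStmt) (hc : IbcStmt) (D : Dat ℓ F b P ρ ρ') (w : MulAut P) :
    ∀ (s i j : ℕ), i + j ≤ s → ∀ x y : Subgroup.normalizer (P : Set (MulAut N)),
      P.normalizerMonoidHom x = w ^ i → P.normalizerMonoidHom y = w ^ j → Cm P ρ ρ' x y := by
  intro s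
  induction s with
  | zero =>
    intro i j hij x y hx hy
    have : i = 0 := by omega
    subst this
    rw [pow_zero] at hx
    exact D.cm_left hm hc x y (comm_of hx) (nrm_of y.2)
  | succ s ih =>
    intro i j hij x y hx hy
    by_cases hi : i = 0
    · subst hi
      rw [pow_zero] at hx
      exact D.cm_left hm hc x y (comm_of hx) (nrm_of y.2)
    by_cases hj : j = 0
    · subst hj
      rw [pow_zero] at hy
      exact D.cm_right hm hc x y (nrm_of x.2) (comm_of hy)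
    by_cases h : j ≤ i
    · apply cm_move1 (nrm_of y.2)
      refine ih (i - j) j (by omega) (x * y⁻¹) y ?_ hy
      rw [map_mul, map_inv, hx, hy, mul_inv_eq_iff_eq_mul, ← pow_add, Nat.sub_add_cancel h]
    · apply cm_move2 (nrm_of x.2)
      refine ih i (j - i) (by omega) x (y * x⁻¹) hx ?_
      rw [map_mul, map_inv, hx, hy, mul_inv_eq_iff_eq_mul, ← pow_add,
        Nat.sub_add_cancel (by omega)]

end cm

section restrict

variable {F : Type} [Field F]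

theorem ev_equiv {H H' : Type} [Group H] [Finite H] [Group H'] [Finite H'] (e : H ≃* H') {m : ℕ}
    (σ : H' →* Matrix (Fin m) (Fin m) F) (a : H' → F) :
    ev (σ.comp e.toMonoidHom) (fun x => a (e x)) = ev σ a := by
  have := Fintype.ofFinite H
  have := Fintype.ofFinite H'
  unfold ev
  rw [finsum_eq_sum_of_fintype, finsum_eq_sum_of_fintype,
    ← Equiv.sum_comp e.toEquiv (fun t => a t • σ t)]
  rfl

theorem irr_equiv {H H' : Type} [Group H] [Group H'] (e : H ≃* H') {m : ℕ}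
    {σ : H' →* Matrix (Fin m) (Fin m) F} (hσ : IsIrr σ) : IsIrr (σ.comp e.toMonoidHom) := by
  refine ⟨hσ.1, ?_⟩
  have : Set.range (σ.comp e.toMonoidHom) = Set.range σ := by
    ext M
    constructor
    · rintro ⟨x, rfl⟩; exact ⟨e x, rfl⟩
    · rintro ⟨x, rfl⟩; exact ⟨e.symm x, by
        change σ (e (e.symm x)) = σ x
        rw [MulEquiv.apply_symm_apply]⟩
  rw [this, hσ.2]

variable {N : Type} [Group N]

/-- the automorphisms which stabilise a subgroup -/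
def stK (K : Subgroup N) : Subgroup (MulAut N) where
  carrier := {φ | ∀ h, φ h ∈ K ↔ h ∈ K}
  one_mem' := fun _ => Iff.rfl
  mul_mem' := fun {φ ψ} hφ hψ h => (hφ (ψ h)).trans (hψ h)
  inv_mem' := fun {φ} hφ h => by
    rw [← hφ (φ⁻¹ h), MulAut.apply_inv_self]

theorem mem_stK {K : Subgroup N} {φ : MulAut N} : φ ∈ stK K ↔ ∀ h, φ h ∈ K ↔ h ∈ K := Iff.rfl

/-- restriction of automorphisms -/
def rst (K : Subgroup N) : stK K →* MulAut K where
  toFun φ :=
    { toFun := fun h => ⟨(φ : MulAut N) h, (φ.2 h).2 h.2⟩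
      invFun := fun h => ⟨((φ : MulAut N)⁻¹) h, ((stK K).inv_mem φ.2 h).2 h.2⟩
      left_inv := fun h => Subtype.ext (MulAut.inv_apply_self N φ h)
      right_inv := fun h => Subtype.ext (MulAut.apply_inv_self N φ h)
      map_mul' := fun _ _ => Subtype.ext (map_mul (φ : MulAut N) _ _) }
  map_one' := rfl
  map_mul' _ _ := rfl

theorem rst_val {K : Subgroup N} (φ : stK K) (h : K) : ((rst K φ h : K) : N) = (φ : MulAut N) h :=
  rfl

variable [Finite N]

/-- a minimal subgroup of the centre -/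
theorem exists_min {ℓ : ℕ} (hℓ : ℓ.Prime) {P : Subgroup (MulAut N)} (hP : IsPGroup ℓ P)
    (hne : P ≠ ⊥) {x y : MulAut N} (hx : ∀ p ∈ P, x * p * x⁻¹ ∈ P) (hy : ∀ p ∈ P, y * p * y⁻¹ ∈ P) :
    ∃ Q : Subgroup (MulAut N), Q ≠ ⊥ ∧ Q ≤ P ∧ (∀ p ∈ Q, ∀ q ∈ P, p * q = q * p) ∧
      (∀ p ∈ Q, x * p * x⁻¹ ∈ Q) ∧ (∀ p ∈ Q, y * p * y⁻¹ ∈ Q) ∧
      ∀ B : Subgroup (MulAut N), B ≤ Q → (∀ p ∈ B, x * p * x⁻¹ ∈ B) →
        (∀ p ∈ B, y * p * y⁻¹ ∈ B) → B = ⊥ ∨ B = Q := by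
  have : Fact ℓ.Prime := ⟨hℓ⟩
  let S : Set (Subgroup (MulAut N)) := {Q | Q ≠ ⊥ ∧ Q ≤ P ∧ (∀ p ∈ Q, ∀ q ∈ P, p * q = q * p) ∧
      (∀ p ∈ Q, x * p * x⁻¹ ∈ Q) ∧ (∀ p ∈ Q, y * p * y⁻¹ ∈ Q)}
  have hS : S.Nonempty := by
    refine ⟨(Subgroup.center P).map P.subtype, ?_, ?_, ?_, ?_, ?_⟩
    · intro h
      have hnt : Nontrivial P := (Subgroup.nontrivial_iff_ne_bot P).2 hne
      have := IsPGroup.center_nontrivial hP
      rw [Subgroup.map_eq_bot_iff_of_injective _ P.subtype_injective] at h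
      exact (Subgroup.nontrivial_iff_ne_bot _).1 this h
    · exact Subgroup.map_subtype_le _
    · rintro _ ⟨p, hp, rfl⟩ q hq
      have := Subgroup.mem_center_iff.1 hp ⟨q, hq⟩
      exact (congrArg Subtype.val this).symm
    · rintro _ ⟨p, hp, rfl⟩
      refine ⟨⟨x * p * x⁻¹, hx p p.2⟩, ?_, rfl⟩
      refine Subgroup.mem_center_iff.2 fun q => Subtype.ext ?_
      have h1 := Subgroup.mem_center_iff.1 hp ⟨x⁻¹ * q * x, (fixN_stable hx).1 q q.2⟩
      have h2 : x⁻¹ * (q : MulAut N) * x * p = p * (x⁻¹ * q * x) := congrArg Subtype.val h1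
      change (q : MulAut N) * (x * p * x⁻¹) = x * p * x⁻¹ * q
      calc (q : MulAut N) * (x * p * x⁻¹) = x * (x⁻¹ * (q : MulAut N) * x * p) * x⁻¹ := by group
        _ = x * p * x⁻¹ * q := by rw [h2]; group
    · rintro _ ⟨p, hp, rfl⟩
      refine ⟨⟨y * p * y⁻¹, hy p p.2⟩, ?_, rfl⟩
      refine Subgroup.mem_center_iff.2 fun q => Subtype.ext ?_
      have h1 := Subgroup.mem_center_iff.1 hp ⟨y⁻¹ * q * y, (fixN_stable hy).1 q q.2⟩
      have h2 : y⁻¹ * (q : MulAut N) * y * p = p * (y⁻¹ * q * y) := congrArg Subtype.val h1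
      change (q : MulAut N) * (y * p * y⁻¹) = y * p * y⁻¹ * q
      calc (q : MulAut N) * (y * p * y⁻¹) = y * (y⁻¹ * (q : MulAut N) * y * p) * y⁻¹ := by group
        _ = y * p * y⁻¹ * q := by rw [h2]; group
  obtain ⟨Q, hQ⟩ := (Set.toFinite S).exists_minimal hS
  obtain ⟨h1, h2, h3, h4, h5⟩ := hQ.1
  refine ⟨Q, h1, h2, h3, h4, h5, fun B hB hBx hBy => ?_⟩
  by_cases hb : B = ⊥
  · exact Or.inl hb
  · exact Or.inr (le_antisymm hB (hQ.2 ⟨hb, hB.trans h2, fun p hp => h3 p (hB hp), hBx, hBy⟩ hB))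

end restrict

theorem fixN_anti {N : Type} [Group N] {P Q : Subgroup (MulAut N)} (h : Q ≤ P) :
    fixN P ≤ fixN Q := fun _ hx p hp => hx p (h hp)

theorem eps_main (hm : MatStmt) (hc : IbcStmt) (hbk : BlkStmt) {ℓ : ℕ} {F : Type} [Field F] :
    ∀ (k : ℕ) (N : Type) [Group N] [Finite N] (b : N → F) (P : Subgroup (MulAut N)) (n n' : ℕ)
    (ρ : (⊤ : Subgroup N) →* Matrix (Fin n) (Fin n) F) (ρ' : fixN P →* Matrix (Fin n') (Fin n') F),
    Nat.card P ≤ k → Dat ℓ F b P ρ ρ' → (∃ x ∈ fixN P, b x ≠ 0) →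
    ∀ x y : MulAut N, (∀ p ∈ P, x * p * x⁻¹ ∈ P) → (∀ p ∈ P, y * p * y⁻¹ ∈ P) →
    (∀ h, b (x h) = b h) → (∀ h, b (y h) = b h) → (∀ p ∈ P, Commute (x * y * x⁻¹ * y⁻¹) p) →
    ∀ X Y X' Y', Impl ρ x X → Impl ρ y Y → Impl ρ' x X' → Impl ρ' y Y' →
    ∀ a : N → F, InvF P a →
      ev ρ (fun x => a x) = ((X * Y * X⁻¹ * Y⁻¹ : (Matrix (Fin n) (Fin n) F)ˣ) : Matrix _ _ F) →
      ev ρ' (fun x => a x) =
        ((X' * Y' * X'⁻¹ * Y'⁻¹ : (Matrix (Fin n') (Fin n') F)ˣ) : Matrix _ _ F) := by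
  intro k
  induction k with
  | zero =>
    intro N _ _ b P n n' ρ ρ' hk
    have := Nat.card_pos (α := P)
    omega
  | succ k ih =>
    intro N _ _ b P n n' ρ ρ' hk D hx0 x y hx hy hbx hby hxy X Y X' Y' hX hY hX' hY' a ha hXY
    by_cases hP : P = ⊥
    · have hcy : ∀ p ∈ P, Commute y p := by
        intro p hp
        rw [hP, Subgroup.mem_bot] at hp
        rw [hp]; exact Commute.one_right y
      have h1 := (D.cm_right hm hc x y hx hcy X Y X' Y' hX hY hX' hY').2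
      rw [← hXY, D.bet_ev hm ha] at h1
      exact h1
    · obtain ⟨Q, hQ1, hQ2, hQ3, hQ4, hQ5, hQ6⟩ := exists_min D.good.prime D.hP hP hx hy
      have hQP : IsPGroup ℓ Q := D.hP.to_le hQ2
      have hinvQ : ∀ {c : N → F}, InvF P c → InvF Q c := fun h p hp => h p (hQ2 hp)
      obtain ⟨x0, hx01, hx02⟩ := hx0
      have hb1 : DZB ℓ (fun x : fixN Q => b x) := hbk ℓ F D.good N b D.hb Q hQP (hinvQ D.inv)
        ⟨x0, fixN_anti hQ2 hx01, hx02⟩
      obtain ⟨n1, ρ1, hρ1, hρ1b⟩ := (hm ℓ F D.good (fixN Q) _ hb1).1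
      have D0 : Dat ℓ F b Q ρ ρ1 := ⟨D.good, D.hb, hQP, hinvQ D.inv, D.irr, hρ1, D.evb, hρ1b⟩
      have hsx := (fixN_stable hQ4).2
      have hsy := (fixN_stable hQ5).2
      obtain ⟨X1, hX1⟩ := exists_impl D.good hm hc hb1 ρ1 hρ1 hρ1b x hsx hbx
      obtain ⟨Y1, hY1⟩ := exists_impl D.good hm hc hb1 ρ1 hρ1 hρ1b y hsy hby
      -- the step for `Q`
      have hnx : x ∈ Subgroup.normalizer (Q : Set (MulAut N)) := by
        refine Subgroup.mem_normalizer_iff.2 fun p => ⟨fun hp => hQ4 p hp, fun hp => ?_⟩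
        have h1 := (fixN_stable hQ4).1 _ hp
        have h2 : x⁻¹ * (x * p * x⁻¹) * x = p := by group
        rw [h2] at h1; exact h1
      have hny : y ∈ Subgroup.normalizer (Q : Set (MulAut N)) := by
        refine Subgroup.mem_normalizer_iff.2 fun p => ⟨fun hp => hQ5 p hp, fun hp => ?_⟩
        have h1 := (fixN_stable hQ5).1 _ hp
        have h2 : y⁻¹ * (y * p * y⁻¹) * y = p := by group
        rw [h2] at h1; exact h1
      have hQnt : Nontrivial Q := (Subgroup.nontrivial_iff_ne_bot Q).2 hQ1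
      obtain ⟨w, i, j, hwi, hwj⟩ := cyc (A := Q)
        (fun p q => Subtype.ext (hQ3 p p.2 q (hQ2 q.2)))
        (Q.normalizerMonoidHom ⟨x, hnx⟩) (Q.normalizerMonoidHom ⟨y, hny⟩)
        (by
          refine MulEquiv.ext fun p => Subtype.ext ?_
          change x * (y * p * y⁻¹) * x⁻¹ = y * (x * p * x⁻¹) * y⁻¹
          have h1 := hQ5 _ (hQ4 p p.2)
          have h2 := (hxy _ (hQ2 h1)).eq
          calc x * (y * (p : MulAut N) * y⁻¹) * x⁻¹
              = (x * y * x⁻¹ * y⁻¹) * (y * (x * p * x⁻¹) * y⁻¹) * (y * x * y⁻¹ * x⁻¹) := by group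
            _ = y * (x * p * x⁻¹) * y⁻¹ := by rw [h2]; group)
        (by
          intro B hBx hBy
          have h1 := hQ6 (B.map Q.subtype) (Subgroup.map_subtype_le B)
            (by
              rintro _ ⟨p, hp, rfl⟩
              exact ⟨_, hBx p hp, rfl⟩)
            (by
              rintro _ ⟨p, hp, rfl⟩
              exact ⟨_, hBy p hp, rfl⟩)
          rcases h1 with h1 | h1
          · left
            exact (Subgroup.map_eq_bot_iff_of_injective _ Q.subtype_injective).1 h1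
          · right
            rw [eq_top_iff]
            intro q _
            have h2 : (q : MulAut N) ∈ B.map Q.subtype := by rw [h1]; exact q.2
            obtain ⟨q', hq', he⟩ := h2
            have : q' = q := Subtype.ext he
            rw [← this]; exact hq')
      obtain ⟨_, hst⟩ := D0.euclid hm hc w (i + j) i j le_rfl ⟨x, hnx⟩ ⟨y, hny⟩ hwi hwj
        X Y X1 Y1 hX hY hX1 hY1
      rw [← hXY, D0.bet_ev hm (hinvQ ha)] at hst
      -- restriction to the fixed points of `Q`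
      have hPst : P ≤ stK (fixN Q) := by
        intro p hp
        refine (fixN_stable (P := Q) fun q hq => ?_).2
        rw [← hQ3 q hq p hp, mul_inv_cancel_right]; exact hq
      let θ : P →* MulAut (fixN Q) := (rst (fixN Q)).comp (Subgroup.inclusion hPst)
      have hθ : ∀ (p : P) (h : fixN Q), ((θ p h : fixN Q) : N) = (p : MulAut N) h := fun _ _ => rfl
      have hcard : Nat.card θ.range ≤ k := by
        have h1 : Nat.card θ.ker * θ.ker.index = Nat.card P := Subgroup.card_mul_index _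
        rw [Subgroup.index_ker] at h1
        have h2 : 1 < Nat.card θ.ker := by
          rw [Subgroup.one_lt_card_iff_ne_bot]
          intro h3
          obtain ⟨q, hq, hq1⟩ := Subgroup.exists_ne_one_of_nontrivial Q
          apply hq1
          have h4 : (⟨q, hQ2 hq⟩ : P) ∈ θ.ker := by
            rw [MonoidHom.mem_ker]
            ext h
            rw [hθ]
            exact h.2 q hq
          rw [h3, Subgroup.mem_bot] at h4
          exact congrArg Subtype.val h4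
        have h3 := Nat.card_pos (α := θ.range)
        nlinarith
      have hfix : ∀ h : fixN Q, h ∈ fixN θ.range ↔ (h : N) ∈ fixN P := by
        intro h
        constructor
        · intro hh p hp
          have h1 := hh (θ ⟨p, hp⟩) ⟨_, rfl⟩
          exact congrArg Subtype.val h1
        · rintro hh _ ⟨p, rfl⟩
          exact Subtype.ext (hh p p.2)
      let κ : fixN θ.range ≃* fixN P :=
        { toFun := fun h => ⟨((h : fixN Q) : N), (hfix h).1 h.2⟩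
          invFun := fun h => ⟨⟨h, fixN_anti hQ2 h.2⟩, (hfix _).2 h.2⟩
          left_inv := fun _ => rfl
          right_inv := fun _ => rfl
          map_mul' := fun _ _ => rfl }
      have D1 : Dat ℓ F (fun x : fixN Q => b x) θ.range
          (ρ1.comp (Subgroup.topEquiv (G := fixN Q)).toMonoidHom) (ρ'.comp κ.toMonoidHom) := by
        refine ⟨D.good, hb1, ?_, ?_, irr_equiv _ hρ1, irr_equiv _ D.irr', ?_, ?_⟩
        · exact D.hP.of_surjective θ.rangeRestrict θ.rangeRestrict_surjective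
        · rintro _ ⟨p, rfl⟩ h
          exact D.inv p p.2 h
        · exact (ev_equiv (Subgroup.topEquiv (G := fixN Q)) ρ1 (fun x => b x)).trans hρ1b
        · exact (ev_equiv κ ρ' (fun x => b x)).trans D.evb'
      have hfin := ih (fixN Q) (fun x : fixN Q => b x) θ.range n1 n'
        (ρ1.comp (Subgroup.topEquiv (G := fixN Q)).toMonoidHom) (ρ'.comp κ.toMonoidHom)
        hcard D1 ⟨⟨x0, fixN_anti hQ2 hx01⟩, (hfix _).2 hx01, hx02⟩
        (rst (fixN Q) ⟨x, hsx⟩) (rst (fixN Q) ⟨y, hsy⟩)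
        (by
          rintro _ ⟨p, rfl⟩
          refine ⟨⟨x * p * x⁻¹, hx p p.2⟩, ?_⟩
          ext h
          rfl)
        (by
          rintro _ ⟨p, rfl⟩
          refine ⟨⟨y * p * y⁻¹, hy p p.2⟩, ?_⟩
          ext h
          rfl)
        (fun h => hbx h) (fun h => hby h)
        (by
          rintro _ ⟨p, rfl⟩
          have h1 := (hxy p p.2).eq
          ext h
          have h2 := DFunLike.congr_fun h1 (h : N)
          exact h2)
        X1 Y1 X' Y'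
        (fun h h' e => hX1 h h' (congrArg Subtype.val e))
        (fun h h' e => hY1 h h' (congrArg Subtype.val e))
        (fun h h' e => hX' (κ h) (κ h') (congrArg (fun z : fixN Q => (z : N)) e))
        (fun h h' e => hY' (κ h) (κ h') (congrArg (fun z : fixN Q => (z : N)) e))
        (fun h => a h)
        (by
          rintro _ ⟨p, rfl⟩ h
          exact ha p p.2 h)
        (by
          refine (ev_equiv (Subgroup.topEquiv (G := fixN Q)) ρ1 (fun x => a x)).trans ?_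
          exact hst)
      exact (ev_equiv κ ρ' (fun x => a x)).symm.trans hfin

/-- EPS -/
theorem eps_stmt (hm : MatStmt) (hc : IbcStmt) (hbk : BlkStmt) : EpsStmt := by
  intro ℓ F _ hF N _ _ b hb P hP hinv hx0 n n' ρ ρ' hρ hρ' h1 h2 x y hx hy hbx hby hxy X Y X' Y'
    hX hY hX' hY' a ha hXY
  exact eps_main hm hc hbk (Nat.card P) N b P n n' ρ ρ' le_rfl
    ⟨hF, hb, hP, hinv, hρ, hρ', h1, h2⟩ hx0 x y hx hy hbx hby hxy X Y X' Y' hX hY hX' hY' a ha hXY

end Pool.Agent.PP.H18
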