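import Pool.Agent.Helper18_PP.Cyd
import Pool.Agent.Helper43_PP.Box
import Pool.Agent.Helper31_PP.Ncg
import Pool.Agent.Helper31_PP.Shs
import Pool.Agent.Helper83_PP.Bxh
import Pool.Agent.Helper63_PP.Bij
import Pool.Agent.Helper75_PP.ConInv
import Pool.Agent.Helper90_PP.Ccp
import Pool.Agent.Helper90_PP.Cnt
import Pool.Agent.Helper90_PP.The
import Pool.Agent.Helper17_PP.Ops
import Pool.Agent.Helper9_PP.Pbk
import Pool.Agent.Helper51_PP.Pip
import Pool.Agent.Helper5_PP.Pib
import Pool.Agent.Helper20_PP.Nls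
import Pool.Agent.Helper74_PP.Brt

/-!
# Squad PP: CYD without hypotheses
-/

noncomputable section

namespace Pool.Agent.PP.H18

open Pool.Agent.PP

theorem theStmt : TheStmt := H90.the H20.nls H74.orb

theorem cydStmt : CydStmt :=
  cyd (H43.box H31.ncg) bxh H63.bij H75.con H31.shs (H90.C.ccp theStmt (H51.pip H5.pib))
    (H17.ops theStmt H63.bij) H90.cnt H9.pbk

end Pool.Agent.PP.H18
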