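import Pool.Agent.Helper36_PP.Involves

/-!
# Squad PP: almost simple sections

Almost simple groups involved in a group, in a central extension and in a subgroup of a direct
product.
-/

set_option linter.unusedSectionVars false

noncomputable section

namespace Pool.Agent.PP

/-- If the restriction of `p` to `T` has its kernel inside the kernel of `f : T → A`, then `A` is
involved in the target of `p`. -/
theorem Involves.of_ker_le {G H A : Type} [Group G] [Group H] [Group A] (p : G →* H)
    (T : Subgroup G) (f : T →* A) (hf : Function.Surjective f)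
    (hker : (p.comp T.subtype).ker ≤ f.ker) : Involves H A := by
  let q : T →* (p.comp T.subtype).range := (p.comp T.subtype).rangeRestrict
  have hq : Function.Surjective q := (p.comp T.subtype).rangeRestrict_surjective
  have hqk : q.ker ≤ f.ker := by
    rw [MonoidHom.ker_rangeRestrict]; exact hker
  refine ⟨(p.comp T.subtype).range, q.liftOfSurjective hq ⟨f, hqk⟩, ?_⟩
  intro s
  obtain ⟨y, rfl⟩ := hf s
  exact ⟨q y, MonoidHom.liftOfRightInverse_comp_apply q _ _ ⟨f, hqk⟩ y⟩

/-- A group with trivial centre involved in a central extension of `H` is involved in `H`. -/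
theorem Involves.of_central' {G H A : Type} [Group G] [Group H] [Group A]
    (hA : Subgroup.center A = ⊥) (p : G →* H) (hp : p.ker ≤ Subgroup.center G)
    (h : Involves G A) : Involves H A := by
  obtain ⟨T, f, hf⟩ := h
  refine Involves.of_ker_le p T f hf ?_
  intro x hx
  have h1 : f x ∈ Subgroup.center A := by
    rw [Subgroup.mem_center_iff]
    intro s
    obtain ⟨y, rfl⟩ := hf s
    have hx' : (x : G) ∈ Subgroup.center G := hp hx
    rw [← map_mul, ← map_mul]
    congr 1
    exact Subtype.ext (Subgroup.mem_center_iff.1 hx' y)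
  rw [hA, Subgroup.mem_bot] at h1
  exact h1

/-- A group without two commuting nontrivial normal subgroups involved in a subgroup of a direct
product is involved in one of the factors. -/
theorem Involves.of_prod {G X X' A : Type} [Group G] [Group X] [Group X'] [Group A]
    (hA : ∀ K K' : Subgroup A, K.Normal → K'.Normal → (∀ x ∈ K, ∀ y ∈ K', x * y = y * x) →
      K = ⊥ ∨ K' = ⊥) (i : G →* X × X') (hi : Function.Injective i) (h : Involves G A) :
    Involves X A ∨ Involves X' A := by
  obtain ⟨T, f, hf⟩ := h
  have hn : ∀ K : Subgroup T, K.Normal → (K.map f).Normal := fun K hK => hK.map f hf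
  rcases hA ((((MonoidHom.fst X X').comp i).comp T.subtype).ker.map f)
    ((((MonoidHom.snd X X').comp i).comp T.subtype).ker.map f) (hn _ inferInstance)
    (hn _ inferInstance) (by
      rintro _ ⟨a, ha, rfl⟩ _ ⟨b, hb, rfl⟩
      rw [← map_mul, ← map_mul]
      congr 1
      apply Subtype.ext
      apply hi
      have ha' : (i (a : G)).1 = 1 := ha
      have hb' : (i (b : G)).2 = 1 := hb
      change i ((a : G) * b) = i ((b : G) * a)
      rw [map_mul, map_mul]
      apply Prod.ext
      · rw [Prod.fst_mul, Prod.fst_mul, ha', one_mul, mul_one]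
      · rw [Prod.snd_mul, Prod.snd_mul, hb', one_mul, mul_one]) with h1 | h1
  · left
    refine Involves.of_ker_le ((MonoidHom.fst X X').comp i) T f hf fun x hx => ?_
    have h2 : f x ∈ (((MonoidHom.fst X X').comp i).comp T.subtype).ker.map f := ⟨x, hx, rfl⟩
    rw [h1, Subgroup.mem_bot] at h2
    exact h2
  · right
    refine Involves.of_ker_le ((MonoidHom.snd X X').comp i) T f hf fun x hx => ?_
    have h2 : f x ∈ (((MonoidHom.snd X X').comp i).comp T.subtype).ker.map f := ⟨x, hx, rfl⟩
    rw [h1, Subgroup.mem_bot] at h2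
    exact h2

section almost

variable {A S : Type} [Group A] [Group S]

/-- `T` is a normal subgroup of `A` with trivial centraliser isomorphic to the nonabelian simple
group `S`. -/
structure IsSocle (T : Subgroup A) (S : Type) [Group S] : Prop where
  simple : NonabSimple S
  normal : T.Normal
  cent : Subgroup.centralizer (T : Set A) = ⊥
  iso : Nonempty (T ≃* S)

theorem IsSocle.center {T : Subgroup A} (h : IsSocle T S) : Subgroup.center A = ⊥ := by
  rw [eq_bot_iff, ← h.cent]
  exact Subgroup.center_le_centralizer _

theorem IsSocle.nonab {T : Subgroup A} (h : IsSocle T S) : ¬ ∀ x ∈ T, ∀ y ∈ T, x * y = y * x := by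
  intro hc
  obtain ⟨e⟩ := h.iso
  obtain ⟨_, a, b, hab⟩ := h.simple
  apply hab
  have h1 := hc (e.symm a) (e.symm a).2 (e.symm b) (e.symm b).2
  have h2 : e.symm a * e.symm b = e.symm b * e.symm a := Subtype.ext h1
  rw [← map_mul, ← map_mul] at h2
  exact e.symm.injective h2

/-- every nontrivial normal subgroup contains the socle -/
theorem IsSocle.le {T : Subgroup A} (h : IsSocle T S) {K : Subgroup A} (hK : K.Normal)
    (hne : K ≠ ⊥) : T ≤ K := by
  have hT := h.normal
  have hsimple : IsSimpleGroup T := by
    obtain ⟨e⟩ := h.iso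
    have := h.simple.1
    have : Nontrivial T := e.toEquiv.nontrivial
    exact IsSimpleGroup.isSimpleGroup_of_surjective e.symm.toMonoidHom e.symm.surjective
  have : (K.subgroupOf T).Normal := hK.subgroupOf T
  rcases hsimple.eq_bot_or_eq_top_of_normal (K.subgroupOf T) this with h1 | h1
  · exfalso
    apply hne
    rw [eq_bot_iff, ← h.cent]
    intro k hk
    rw [Subgroup.mem_centralizer_iff]
    intro t ht
    have h2 : t * k * t⁻¹ * k⁻¹ ∈ K := K.mul_mem (hK.conj_mem k hk t) (K.inv_mem hk)
    have h3 : t * k * t⁻¹ * k⁻¹ ∈ T := by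
      have h4 : k * t⁻¹ * k⁻¹ ∈ T := hT.conj_mem _ (T.inv_mem ht) k
      have h5 := T.mul_mem ht h4
      have e : t * (k * t⁻¹ * k⁻¹) = t * k * t⁻¹ * k⁻¹ := by group
      rwa [e] at h5
    have h6 : (⟨t * k * t⁻¹ * k⁻¹, h3⟩ : T) ∈ K.subgroupOf T := Subgroup.mem_subgroupOf.2 h2
    rw [h1, Subgroup.mem_bot] at h6
    have h7 : t * k * t⁻¹ * k⁻¹ = 1 := congrArg Subtype.val h6
    calc t * k = (t * k * t⁻¹ * k⁻¹) * (k * t) := by group
      _ = k * t := by rw [h7, one_mul]
  · exact Subgroup.subgroupOf_eq_top.1 h1

theorem IsSocle.two {T : Subgroup A} (h : IsSocle T S) (K K' : Subgroup A) (hK : K.Normal)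
    (hK' : K'.Normal) (hc : ∀ x ∈ K, ∀ y ∈ K', x * y = y * x) : K = ⊥ ∨ K' = ⊥ := by
  by_contra hne
  rw [not_or] at hne
  exact h.nonab fun x hx y hy => hc x (h.le hK hne.1 hx) y (h.le hK' hne.2 hy)

/-- central extensions -/
theorem IsSocle.involves_central {T : Subgroup A} (h : IsSocle T S) {G H : Type} [Group G]
    [Group H] (p : G →* H) (hp : p.ker ≤ Subgroup.center G) (hi : Involves G A) : Involves H A :=
  hi.of_central' h.center p hp

/-- subgroups of `X × X` -/
theorem IsSocle.involves_prod {T : Subgroup A} (h : IsSocle T S) {G X : Type} [Group G]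
    [Group X] (i : G →* X × X) (hi : Function.Injective i) (hG : Involves G A) : Involves X A := by
  rcases Involves.of_prod h.two i hi hG with h1 | h1
  · exact h1
  · exact h1

end almost

end Pool.Agent.PP
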