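import Pool.Agent.Helper94_PP.StmtsKR

/-!
# Squad PP, part DZ: a normal subgroup with a block of defect zero

Text: `AWC_DZ.md` (version 2).  Statements of the modules
COV, CEN, GAL, MAT, PCI, SUP, CMP, BLK, BET, EPS, NCO, EQ, PSF, DZ.
-/

open scoped BigOperators

noncomputable section

namespace Pool.Agent.PP

open Pool.Agent.Helper51_AWC Pool.Agent.Helper79_WRA

section defs

variable {F H : Type} [Field F] [Group H]

/-- Elements of the projective centre: class functions which vanish at the elements whose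
centraliser has order divisible by `ℓ`. -/
def PrC (ℓ : ℕ) (a : H → F) : Prop :=
  IsCl a ∧ ∀ x, ℓ ∣ Nat.card (Subgroup.centralizer ({x} : Set H)) → a x = 0

/-- A block idempotent of defect zero. -/
def DZB (ℓ : ℕ) (b : H → F) : Prop := IsBlk b ∧ PrC ℓ b

/-- The matrix `X` implements the map `φ` on the representation `ρ` of the subgroup `K`. -/
def Impl {K : Subgroup H} {n : ℕ} (ρ : K →* Matrix (Fin n) (Fin n) F) (φ : H → H)
    (X : (Matrix (Fin n) (Fin n) F)ˣ) : Prop :=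
  ∀ h h' : K, (h' : H) = φ h → (X : Matrix (Fin n) (Fin n) F) * ρ h = ρ h' * X

/-- The elements fixed by a group of automorphisms. -/
def fixN (P : Subgroup (MulAut H)) : Subgroup H where
  carrier := {h | ∀ p ∈ P, p h = h}
  one_mem' := fun p _ => map_one p
  mul_mem' := fun ha hb p hp => by rw [map_mul, ha p hp, hb p hp]
  inv_mem' := fun ha p hp => by rw [map_inv, ha p hp]

/-- Invariance of a function under a group of automorphisms. -/
def InvF (P : Subgroup (MulAut H)) (a : H → F) : Prop := ∀ p ∈ P, ∀ h, a (p h) = a h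

/-- The matrix `M` is fixed by the automorphisms of the matrix algebra induced by `P`. -/
def FixM {n : ℕ} (ρ : (⊤ : Subgroup H) →* Matrix (Fin n) (Fin n) F) (P : Subgroup (MulAut H))
    (M : Matrix (Fin n) (Fin n) F) : Prop :=
  ∀ p ∈ P, ∀ A : (Matrix (Fin n) (Fin n) F)ˣ, Impl ρ p A → (A : Matrix (Fin n) (Fin n) F) * M = M * A

/-- The data of part DZ in a group `G`: a normal subgroup `N` and a `G`-stable block of `N` of
defect zero, as a function on `G` with support in `N`. -/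
def NB (ℓ : ℕ) (N : Subgroup H) (b : H → F) : Prop :=
  N.Normal ∧ IsCl b ∧ (∀ g, g ∉ N → b g = 0) ∧ DZB ℓ (fun x : N => b x)

/-- The good `ℓ`-subgroups. -/
def Good (ℓ : ℕ) (N : Subgroup H) (b : H → F) (P : Subgroup H) : Prop :=
  IsPGroup ℓ P ∧ P ⊓ N = ⊥ ∧ ∃ x ∈ N, x ∈ Subgroup.centralizer (P : Set H) ∧ b x ≠ 0

/-- the Kronecker product of square matrices, indexed by `Fin` -/
def kr {n m : ℕ} (A : Matrix (Fin n) (Fin n) F) (B : Matrix (Fin m) (Fin m) F) :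
    Matrix (Fin (n * m)) (Fin (n * m)) F :=
  Matrix.reindex finProdFinEquiv finProdFinEquiv (Matrix.kroneckerMap (fun a b => a * b) A B)

end defs

/-! ## COV, CEN, GAL -/

/-- COV: after a central extension with kernel of order prime to `ℓ` a stable irreducible
representation of a normal subgroup extends. -/
def CovStmt : Prop := ∀ (ℓ : ℕ) (F : Type) [Field F], GoodF ℓ F → ∀ (L : Type) [Group L] [Finite L]
  (C : Subgroup L) (n : ℕ) (ρ : C →* Matrix (Fin n) (Fin n) F), C.Normal → IsIrr ρ →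
  (∀ (g : L) (c c' : C), (c' : L) = g * c * g⁻¹ → tr ρ c' = tr ρ c) →
  ∃ (E : Type) (_ : Group E) (_ : Finite E) (π : E →* L) (α : E →* Matrix (Fin n) (Fin n) F),
    Function.Surjective π ∧ (∀ x, π x = 1 → x ∈ Subgroup.center E) ∧ ¬ ℓ ∣ Nat.card π.ker ∧
    (∀ x, π x = 1 → α x = 1 → x = 1) ∧ (∀ x, π x = 1 → ∃ z : F, α x = Matrix.scalar (Fin n) z) ∧
    (∀ (x : E) (c c' : C), (c' : L) = π x * c * (π x)⁻¹ → α x * ρ c = ρ c' * α x) ∧
    ∀ c : C, ∃ x, π x = c ∧ α x = ρ c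

/-- CEN: central extensions with kernel of order prime to `ℓ`. -/
def CenStmt : Prop := ∀ (ℓ : ℕ) (F : Type) [Field F], GoodF ℓ F → ∀ (E G : Type) [Group E] [Finite E]
  [Group G] [Finite G] (π : E →* G), Function.Surjective π →
  (∀ x, π x = 1 → x ∈ Subgroup.center E) → ¬ ℓ ∣ Nat.card π.ker → ∀ e : G → F, IsIdem e →
  IsIdem (fun x => (Nat.card π.ker : F)⁻¹ * e (π x)) ∧
  (∀ X : Subgroup G, lnum (X.comap π) (fun x => (Nat.card π.ker : F)⁻¹ * e (π x)) = lnum X e) ∧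
  ∀ M : Subgroup G, M.Normal →
    YY ℓ (M.comap π) (fun x => (Nat.card π.ker : F)⁻¹ * e (π x)) = Nat.card π.ker * YY ℓ M e ∧
    (Pos ℓ e M → Pos ℓ (fun x => (Nat.card π.ker : F)⁻¹ * e (π x)) (M.comap π))

/-- GAL: the representations over an irreducible representation of a normal subgroup which
extends. -/
def GalStmt : Prop := ∀ (ℓ : ℕ) (F : Type) [Field F], GoodF ℓ F → ∀ (X : Type) [Group X] [Finite X]
  (C : Subgroup X) [C.Normal] (n : ℕ) (α : X →* Matrix (Fin n) (Fin n) F),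
  IsIrr (α.comp C.subtype) →
  (∀ (m : ℕ) (K : X ⧸ C →* Matrix (Fin m) (Fin m) F), IsIrr K →
    ∃ T : X →* Matrix (Fin (n * m)) (Fin (n * m)) F, IsIrr T ∧ (∀ x : X, T x = kr (α x) (K x)) ∧
      ∀ x : X, tr T x = tr α x * tr K x) ∧
  (∀ (k : ℕ) (V : X →* Matrix (Fin k) (Fin k) F), IsIrr V →
    (∀ a : C → F, ev (α.comp C.subtype) a = 0 → ev (V.comp C.subtype) a = 0) →
    ∃ (m : ℕ) (K : X ⧸ C →* Matrix (Fin m) (Fin m) F), IsIrr K ∧
      ∀ x : X, tr V x = tr α x * tr K x) ∧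
  (∀ κ ∈ IBr F (X ⧸ C), ∀ κ' ∈ IBr F (X ⧸ C),
    (∀ x : X, tr α x * κ x = tr α x * κ' x) → κ = κ') ∧
  (∀ (a : X → F) (a' : X ⧸ C → F), IsCl a' →
    (∀ g : X, ∑ᶠ c : C, a (g * c) • α (g * c) = Matrix.scalar (Fin n) (a' g)) →
    ∀ κ ∈ IBr F (X ⧸ C), (actF a (fun x : X => tr α x * κ x) = (fun x : X => tr α x * κ x) ↔
      actF a' κ = κ))

/-! ## The block `b` -/

/-- MAT: a block of defect zero is a matrix algebra. -/
def MatStmt : Prop := ∀ (ℓ : ℕ) (F : Type) [Field F], GoodF ℓ F → ∀ (N : Type) [Group N] [Finite N]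
  (b : N → F), DZB ℓ b →
  (∃ (n : ℕ) (ρ : N →* Matrix (Fin n) (Fin n) F), IsIrr ρ ∧ ev ρ b = 1) ∧
  (∀ (n : ℕ) (ρ : N →* Matrix (Fin n) (Fin n) F), IsIrr ρ → ev ρ b = 1 →
    ∀ a : N → F, ev ρ a = 0 → mulF a b = 0) ∧
  (∀ (n m : ℕ) (ρ : N →* Matrix (Fin n) (Fin n) F) (σ : N →* Matrix (Fin m) (Fin m) F),
    IsIrr ρ → IsIrr σ → ev ρ b = 1 → ev σ b = 1 → tr ρ = tr σ) ∧
  ∀ z : N → F, IsCl z → ∃ w : F, mulF z b = w • b

/-- PCI: the projective centre is an ideal. -/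
def PciStmt : Prop := ∀ (ℓ : ℕ) (F : Type) [Field F], GoodF ℓ F → ∀ (N : Type) [Group N] [Finite N]
  (a z : N → F), PrC ℓ a → IsCl z → PrC ℓ (mulF z a) ∧ PrC ℓ (mulF a z)

/-- SUP: chains which meet `N`, and chains which are not good, do not contribute. -/
def SupStmt : Prop := ∀ (ℓ : ℕ) (F : Type) [Field F], GoodF ℓ F → ∀ (G : Type) [Group G] [Finite G]
  (N : Subgroup G) (b e : G → F), NB ℓ N b → IsIdem e → mulF e b = e →
  (∀ d ∈ chainsOn (psubIn ℓ (⊤ : Subgroup G)) ⊥, top d ⊓ N ≠ ⊥ → lnum (stab d) e = 0) ∧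
  (∀ P : Subgroup G, IsPGroup ℓ P → P ⊓ N = ⊥ → ¬ Good ℓ N b P →
    ∀ g ∈ Subgroup.centralizer (P : Set G), e g = 0) ∧
  (∀ d ∈ chainsOn (psubIn ℓ (⊤ : Subgroup G)) ⊥, NormalChain d → ¬ Good ℓ N b (top d) →
    lnum (stab d) e = 0)

/-- CMP: good complements exist and are conjugate. -/
def CmpStmt : Prop := ∀ (ℓ : ℕ) (F : Type) [Field F], GoodF ℓ F → ∀ (G : Type) [Group G] [Finite G]
  (N T : Subgroup G) (b : G → F), NB ℓ N b → N ≤ T → (∃ k : ℕ, N.relIndex T = ℓ ^ k) →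
  (∃ P, Good ℓ N b P ∧ P ⊔ N = T) ∧
  ∀ P P' : Subgroup G, Good ℓ N b P → Good ℓ N b P' → P ⊔ N = T → P' ⊔ N = T →
    ∃ n ∈ N, P' = conjS n P

/-- BLK: the block of the fixed points of an `ℓ`-group of automorphisms. -/
def BlkStmt : Prop := ∀ (ℓ : ℕ) (F : Type) [Field F], GoodF ℓ F → ∀ (N : Type) [Group N] [Finite N]
  (b : N → F), DZB ℓ b → ∀ P : Subgroup (MulAut N), IsPGroup ℓ P → InvF P b →
  (∃ x ∈ fixN P, b x ≠ 0) → DZB ℓ (fun x : fixN P => b x)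

/-- BET: the truncation on matrices. -/
def BetStmt : Prop := ∀ (ℓ : ℕ) (F : Type) [Field F], GoodF ℓ F → ∀ (N : Type) [Group N] [Finite N]
  (b : N → F), DZB ℓ b → ∀ P : Subgroup (MulAut N), IsPGroup ℓ P → InvF P b →
  (∃ x ∈ fixN P, b x ≠ 0) → ∀ (n n' : ℕ) (ρ : (⊤ : Subgroup N) →* Matrix (Fin n) (Fin n) F)
  (ρ' : fixN P →* Matrix (Fin n') (Fin n') F), IsIrr ρ → IsIrr ρ' → ev ρ (fun x => b x) = 1 →
  ev ρ' (fun x => b x) = 1 →
  ∃ β : Matrix (Fin n) (Fin n) F → Matrix (Fin n') (Fin n') F,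
    (∀ a : N → F, InvF P a → FixM ρ P (ev ρ (fun x => a x)) ∧
      β (ev ρ (fun x => a x)) = ev ρ' (fun x => a x)) ∧
    (∀ M, FixM ρ P M → ∃ a : N → F, InvF P a ∧ ev ρ (fun x => a x) = M) ∧
    (∀ M M', FixM ρ P M → FixM ρ P M' → FixM ρ P (M * M') ∧ β (M * M') = β M * β M') ∧
    β 1 = 1 ∧
    (∀ (x : MulAut N), (∀ p ∈ P, x * p * x⁻¹ ∈ P) → (∀ h, b (x h) = b h) →
      ∀ X X', Impl ρ x X → Impl ρ' x X' → ∀ M, FixM ρ P M →
      FixM ρ P ((X : Matrix _ _ F) * M * ((X⁻¹ : (Matrix (Fin n) (Fin n) F)ˣ) : Matrix _ _ F)) ∧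
      β ((X : Matrix _ _ F) * M * ((X⁻¹ : (Matrix (Fin n) (Fin n) F)ˣ) : Matrix _ _ F)) =
        (X' : Matrix _ _ F) * β M * ((X'⁻¹ : (Matrix (Fin n') (Fin n') F)ˣ) : Matrix _ _ F)) ∧
    (∀ (y : MulAut N), (∀ p ∈ P, Commute y p) → (∀ h, b (y h) = b h) → ∀ Y, Impl ρ y Y →
      FixM ρ P Y ∧ ∃ Y' : (Matrix (Fin n') (Fin n') F)ˣ, β Y = Y' ∧ Impl ρ' y Y')

/-- EPS: the comparison of commutators. -/
def EpsStmt : Prop := ∀ (ℓ : ℕ) (F : Type) [Field F], GoodF ℓ F → ∀ (N : Type) [Group N] [Finite N]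
  (b : N → F), DZB ℓ b → ∀ P : Subgroup (MulAut N), IsPGroup ℓ P → InvF P b →
  (∃ x ∈ fixN P, b x ≠ 0) → ∀ (n n' : ℕ) (ρ : (⊤ : Subgroup N) →* Matrix (Fin n) (Fin n) F)
  (ρ' : fixN P →* Matrix (Fin n') (Fin n') F), IsIrr ρ → IsIrr ρ' → ev ρ (fun x => b x) = 1 →
  ev ρ' (fun x => b x) = 1 →
  ∀ x y : MulAut N, (∀ p ∈ P, x * p * x⁻¹ ∈ P) → (∀ p ∈ P, y * p * y⁻¹ ∈ P) →
  (∀ h, b (x h) = b h) → (∀ h, b (y h) = b h) → (∀ p ∈ P, Commute (x * y * x⁻¹ * y⁻¹) p) →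
  ∀ X Y X' Y', Impl ρ x X → Impl ρ y Y → Impl ρ' x X' → Impl ρ' y Y' →
  ∀ a : N → F, InvF P a →
    ev ρ (fun x => a x) = ((X * Y * X⁻¹ * Y⁻¹ : (Matrix (Fin n) (Fin n) F)ˣ) : Matrix _ _ F) →
    ev ρ' (fun x => a x) = ((X' * Y' * X'⁻¹ * Y'⁻¹ : (Matrix (Fin n') (Fin n') F)ˣ) : Matrix _ _ F)

/-! ## The quotient by `N` -/

open Classical in
/-- NCO: normal chains with good top member and normal chains of the quotient. -/
def NcoStmt : Prop := ∀ (ℓ : ℕ) (F : Type) [Field F], GoodF ℓ F → ∀ (G : Type) [Group G] [Finite G]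
  (N M : Subgroup G) [N.Normal] (b : G → F), NB ℓ N b → M.Normal → N ≤ M →
  (∀ c ∈ chainsOn (psubIn ℓ M) ⊥, NormalChain c → Good ℓ N b (top c) →
    (c.image (Subgroup.map (QuotientGroup.mk' N)) ∈
      chainsOn (psubIn ℓ (M.map (QuotientGroup.mk' N))) ⊥ ∧
    NormalChain (c.image (Subgroup.map (QuotientGroup.mk' N))) ∧
    top (c.image (Subgroup.map (QuotientGroup.mk' N))) = (top c).map (QuotientGroup.mk' N) ∧
    (c.image (Subgroup.map (QuotientGroup.mk' N))).card = c.card ∧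
    stab (c.image (Subgroup.map (QuotientGroup.mk' N))) = (stab c).map (QuotientGroup.mk' N) ∧
    Subgroup.centralizer (((top c).map (QuotientGroup.mk' N) : Subgroup (G ⧸ N)) : Set (G ⧸ N)) =
      (Subgroup.centralizer ((top c : Subgroup G) : Set G)).map (QuotientGroup.mk' N))) ∧
  ∀ (w : Finset (Subgroup G) → ℤ) (w' : Finset (Subgroup (G ⧸ N)) → ℤ),
    (∀ c ∈ chainsOn (psubIn ℓ M) ⊥, NormalChain c → Good ℓ N b (top c) →
      w c = w' (c.image (Subgroup.map (QuotientGroup.mk' N)))) →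
    ∑ c ∈ (chainsOn (psubIn ℓ M) ⊥).filter (fun c => NormalChain c ∧ Good ℓ N b (top c)),
      (-1) ^ (c.card + 1) * ((Nat.card (stab c) : ℤ) * w c) =
    Nat.card N * ∑ c ∈ (chainsOn (psubIn ℓ (M.map (QuotientGroup.mk' N))) ⊥).filter
      (fun c => NormalChain c), (-1) ^ (c.card + 1) * ((Nat.card (stab c) : ℤ) * w' c)

/-- PSF: the idempotent of the quotient and its positivity. -/
def PsfStmt : Prop := ∀ (ℓ : ℕ) (F : Type) [Field F], GoodF ℓ F → ∀ (G : Type) [Group G] [Finite G]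
  (N : Subgroup G) [N.Normal] (b e : G → F) (n : ℕ) (α : G →* Matrix (Fin n) (Fin n) F),
  NB ℓ N b → IsIrr (α.comp N.subtype) → ev (α.comp N.subtype) (fun x : N => b x) = 1 →
  IsIdem e → mulF e b = e →
  ∃ f : G ⧸ N → F, (∀ g : G, ∑ᶠ h : N, e (g * h) • α (g * h) = Matrix.scalar (Fin n) (f g)) ∧
    IsIdem f ∧ ∀ M : Subgroup G, M.Normal → N ≤ M → Pos ℓ e M →
      Pos ℓ f (M.map (QuotientGroup.mk' N))

/-- EQ: the comparison of the `ℓ`-numbers. -/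
def DzqStmt : Prop := ∀ (ℓ : ℕ) (F : Type) [Field F], GoodF ℓ F → ∀ (G : Type) [Group G] [Finite G]
  (N : Subgroup G) [N.Normal] (b e : G → F) (n : ℕ) (α : G →* Matrix (Fin n) (Fin n) F),
  NB ℓ N b → IsIrr (α.comp N.subtype) → ev (α.comp N.subtype) (fun x : N => b x) = 1 →
  IsIdem e → mulF e b = e → ∀ f : G ⧸ N → F, IsIdem f →
  (∀ g : G, ∑ᶠ h : N, e (g * h) • α (g * h) = Matrix.scalar (Fin n) (f g)) →
  ∀ c ∈ chainsOn (psubIn ℓ (⊤ : Subgroup G)) ⊥, NormalChain c → Good ℓ N b (top c) →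
    lnum (stab c) e = lnum ((stab c).map (QuotientGroup.mk' N)) f

/-- DZ: a normal subgroup with a stable block of defect zero can be removed. -/
def DzStmt : Prop := ∀ (ℓ : ℕ) (F : Type) [Field F], GoodF ℓ F → ∀ (G : Type) [Group G] [Finite G]
  (N M : Subgroup G) [N.Normal] (b e : G → F), NB ℓ N b → M.Normal → N ≤ M → IsIdem e →
  mulF e b = e → Pos ℓ e M → ∃ (D : Type) (_ : Group D) (_ : Finite D) (W M' : Subgroup D)
    (φ : M' →* (M ⧸ N.subgroupOf M)) (ψ : D →* G ⧸ N) (f : D → F),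
    Function.Surjective ψ ∧ ψ.ker = W ∧
    W ≤ Subgroup.center D ∧ ¬ ℓ ∣ Nat.card W ∧ M'.Normal ∧ W ≤ M' ∧
    Function.Surjective φ ∧ φ.ker = W.subgroupOf M' ∧
    W.relIndex M' = N.relIndex M ∧ IsIdem f ∧ Pos ℓ f M' ∧
    (Nat.card W : ℤ) * YY ℓ M e = (Nat.card N : ℤ) * YY ℓ M' f

end Pool.Agent.PP
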