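import Pool.Agent.Helper18_PP.Twl
import Pool.Agent.Helper18_PP.Good

/-!
# Squad PP, module STM: reduction to stem groups

`D` a finite group, `e` an idempotent over the faithful character `ζ` of `Z(D)`.  With
`n₀ = |Z(D) ∩ D'|` the character `ζ ^ n₀` extends to a linear character `λ` of `D`;
`D̂ = {(d, c) : c ^ n₀ = λ(d)}`, `Ẑ = {(z, ζ(z))}` and `D₀ = D̂ / Ẑ`.
-/

open scoped BigOperators

set_option linter.unusedSectionVars false

noncomputable section

namespace Pool.Agent.PP.H18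

open Pool.Agent.PP Pool.Agent.Helper51_AWC Pool.Agent.Helper79_WRA

section extension

variable {F : Type} [Field F]

theorem exists_root [IsAlgClosed F] (u : Fˣ) {n : ℕ} (hn : 0 < n) : ∃ v : Fˣ, v ^ n = u := by
  obtain ⟨z, hz⟩ := IsAlgClosed.exists_pow_nat_eq (u : F) hn
  have hz0 : z ≠ 0 := by
    rintro rfl
    rw [zero_pow hn.ne'] at hz
    exact u.ne_zero hz.symm
  exact ⟨Units.mk0 z hz0, Units.ext hz⟩

/-- extension of characters -/
theorem exists_lin [IsAlgClosed F] {D : Type} [Group D] (Z : Subgroup D) (ξ : Z →* Fˣ)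
    (h : ∀ z : Z, (z : D) ∈ commutator D → ξ z = 1) : ∃ lam : D →* Fˣ, ∀ z : Z, lam z = ξ z := by
  classical
  let ι : Z →* Abelianization D := Abelianization.of.comp Z.subtype
  have hker : ι.rangeRestrict.ker ≤ ξ.ker := by
    intro z hz
    rw [MonoidHom.ker_rangeRestrict] at hz
    have h1 : Abelianization.of (z : D) = 1 := hz
    apply h
    rw [← Abelianization.ker_of]
    exact h1
  let ξ' : ι.range →* Fˣ :=
    ι.rangeRestrict.liftOfSurjective ι.rangeRestrict_surjective ⟨ξ, hker⟩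
  have hξ' : ∀ z : Z, ξ' (ι.rangeRestrict z) = ξ z := fun z =>
    MonoidHom.liftOfRightInverse_comp_apply ι.rangeRestrict _ _ ⟨ξ, hker⟩ z
  let _ : DivisibleBy (Additive Fˣ) ℕ :=
    { div := fun a n => if hn : 0 < n then Additive.ofMul (exists_root a.toMul hn).choose else 0
      div_zero := fun a => dif_neg (lt_irrefl 0)
      div_cancel := fun {n} a hn => by
        have hn' : 0 < n := Nat.pos_of_ne_zero hn
        rw [dif_pos hn']
        exact (exists_root a.toMul hn').choose_spec }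
  let _ : DivisibleBy (Additive Fˣ) ℤ := AddGroup.divisibleByIntOfDivisibleByNat _
  obtain ⟨g, hg⟩ := (Module.Baer.of_divisible (Additive Fˣ)).extension_property_addMonoidHom
    (MonoidHom.toAdditive ι.range.subtype) (fun a b hab => ι.range.subtype_injective hab)
    (MonoidHom.toAdditive ξ')
  refine ⟨(AddMonoidHom.toMultiplicative g).comp Abelianization.of, fun z => ?_⟩
  rw [← hξ' z]
  exact congrArg (fun k : Additive ι.range →+ Additive Fˣ => (k (Additive.ofMul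
    (ι.rangeRestrict z))).toMul) hg

end extension

section hat

variable {F : Type} [Field F] {D : Type} [Group D]

/-- the group `D̂` -/
def hat (lam : D →* Fˣ) (n₀ : ℕ) : Subgroup (D × Fˣ) :=
  ((powMonoidHom n₀).comp (MonoidHom.snd D Fˣ)).eqLocus (lam.comp (MonoidHom.fst D Fˣ))

theorem mem_hat {lam : D →* Fˣ} {n₀ : ℕ} {x : D × Fˣ} :
    x ∈ hat lam n₀ ↔ x.2 ^ n₀ = lam x.1 := Iff.rfl

theorem hat_finite [Finite D] (lam : D →* Fˣ) {n₀ : ℕ} (hn : 0 < n₀) : Finite (hat lam n₀) := by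
  have hN : NeZero (n₀ * Nat.card D) := ⟨(Nat.mul_pos hn Nat.card_pos).ne'⟩
  have h0 : Finite (rootsOfUnity (n₀ * Nat.card D) F) := inferInstance
  have h1 : (Set.univ ×ˢ (rootsOfUnity (n₀ * Nat.card D) F : Set Fˣ) : Set (D × Fˣ)).Finite :=
    Set.finite_univ.prod (Set.finite_coe_iff.1 h0)
  refine (h1.subset ?_).to_subtype
  intro x hx
  refine ⟨Set.mem_univ _, ?_⟩
  rw [SetLike.mem_coe, mem_rootsOfUnity, pow_mul]
  have h2 : x.2 ^ n₀ = lam x.1 := hx
  rw [h2, ← map_pow, pow_card_eq_one', map_one]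

/-- the projection to `D` -/
def p1 (lam : D →* Fˣ) (n₀ : ℕ) : hat lam n₀ →* D := (MonoidHom.fst D Fˣ).comp (hat lam n₀).subtype

/-- the second component -/
def chi (lam : D →* Fˣ) (n₀ : ℕ) : hat lam n₀ →* Fˣ :=
  (MonoidHom.snd D Fˣ).comp (hat lam n₀).subtype

theorem hat_ext {lam : D →* Fˣ} {n₀ : ℕ} {x y : hat lam n₀} (h1 : p1 lam n₀ x = p1 lam n₀ y)
    (h2 : chi lam n₀ x = chi lam n₀ y) : x = y := Subtype.ext (Prod.ext h1 h2)

theorem hat_rel {lam : D →* Fˣ} {n₀ : ℕ} (x : hat lam n₀) :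
    chi lam n₀ x ^ n₀ = lam (p1 lam n₀ x) := x.2

theorem hat_mk {lam : D →* Fˣ} {n₀ : ℕ} {d : D} {c : Fˣ} (h : c ^ n₀ = lam d) :
    ∃ x : hat lam n₀, p1 lam n₀ x = d ∧ chi lam n₀ x = c := ⟨⟨(d, c), h⟩, rfl, rfl⟩

theorem p1_surj [IsAlgClosed F] (lam : D →* Fˣ) {n₀ : ℕ} (hn : 0 < n₀) :
    Function.Surjective (p1 lam n₀) := by
  intro d
  obtain ⟨c, hc⟩ := exists_root (lam d) hn
  obtain ⟨x, hx, -⟩ := hat_mk hc
  exact ⟨x, hx⟩

theorem chi_comm {lam : D →* Fˣ} {n₀ : ℕ} (x y : hat lam n₀) : chi lam n₀ (x * y) =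
    chi lam n₀ (y * x) := by rw [map_mul, map_mul, mul_comm]

theorem central_of {lam : D →* Fˣ} {n₀ : ℕ} {x : hat lam n₀}
    (hx : p1 lam n₀ x ∈ Subgroup.center D) : x ∈ Subgroup.center (hat lam n₀) := by
  rw [Subgroup.mem_center_iff]
  intro y
  refine hat_ext ?_ (chi_comm _ _)
  rw [map_mul, map_mul]
  exact Subgroup.mem_center_iff.1 hx _

variable {ζ : Subgroup.center D →* Fˣ} {lam : D →* Fˣ} {n₀ : ℕ}

/-- the embedding `z ↦ (z, ζ(z))` -/
def zh (h : ∀ z, ζ z ^ n₀ = lam z) : Subgroup.center D →* hat lam n₀ where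
  toFun z := ⟨((z : D), ζ z), h z⟩
  map_one' := hat_ext (map_one (Subgroup.center D).subtype) (map_one ζ)
  map_mul' x y := hat_ext rfl (map_mul ζ x y)

variable (h : ∀ z, ζ z ^ n₀ = lam z)

theorem p1_zh (z : Subgroup.center D) : p1 lam n₀ (zh h z) = z := rfl

theorem chi_zh (z : Subgroup.center D) : chi lam n₀ (zh h z) = ζ z := rfl

theorem zh_central : (zh h).range ≤ Subgroup.center (hat lam n₀) := by
  rintro _ ⟨z, rfl⟩
  exact central_of z.2

theorem zh_normal : (zh h).range.Normal := by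
  constructor
  rintro _ ⟨z, rfl⟩ g
  have h1 := Subgroup.mem_center_iff.1 (zh_central h ⟨z, rfl⟩) g
  rw [h1, mul_inv_cancel_right]
  exact ⟨z, rfl⟩

theorem mem_zh {x : hat lam n₀} : x ∈ (zh h).range ↔
    ∃ hz : p1 lam n₀ x ∈ Subgroup.center D, ζ ⟨p1 lam n₀ x, hz⟩ = chi lam n₀ x := by
  constructor
  · rintro ⟨z, rfl⟩
    exact ⟨z.2, rfl⟩
  · rintro ⟨hz, hx⟩
    exact ⟨⟨p1 lam n₀ x, hz⟩, hat_ext rfl hx⟩

/-- the elements that are central modulo `Ẑ` -/
theorem central_mod (hinj : Function.Injective ζ) {x : hat lam n₀}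
    (hx : ∀ y : hat lam n₀, x * y * x⁻¹ * y⁻¹ ∈ (zh h).range)
    (hs : Function.Surjective (p1 lam n₀)) : p1 lam n₀ x ∈ Subgroup.center D := by
  rw [Subgroup.mem_center_iff]
  intro d
  obtain ⟨y, rfl⟩ := hs d
  obtain ⟨hz, h1⟩ := (mem_zh h).1 (hx y)
  have h2 : chi lam n₀ (x * y * x⁻¹ * y⁻¹) = 1 := by
    rw [map_mul, map_mul, map_mul, map_inv, map_inv, mul_right_comm (chi lam n₀ x),
      mul_inv_cancel, one_mul, mul_inv_cancel]
  rw [h2, ← map_one ζ] at h1
  have h3 := congrArg Subtype.val (hinj h1)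
  change p1 lam n₀ (x * y * x⁻¹ * y⁻¹) = 1 at h3
  rw [map_mul, map_mul, map_mul, map_inv, map_inv] at h3
  have h4 := mul_inv_eq_one.1 h3
  have h5 : p1 lam n₀ x * p1 lam n₀ y = p1 lam n₀ y * p1 lam n₀ x := by
    rw [← h4, inv_mul_cancel_right]
    rw [h4]
  exact h5.symm

end hat

end Pool.Agent.PP.H18
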