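import Pool.Agent.Helper18_PP.StmtsC

/-!
# Squad PP, module TEN: tensor powers of matrices and the cyclic shift
-/

open scoped BigOperators

set_option linter.unusedSectionVars false

noncomputable section

namespace Pool.Agent.PP.H18

open Pool.Agent.PP Pool.Agent.Helper51_AWC Pool.Agent.Helper79_WRA

section ten

variable {F : Type} [Field F] {p n : ℕ}

/-- the tensor product of `p + 1` matrices, indexed by functions -/
def tenM (a : Fin (p + 1) → Matrix (Fin n) (Fin n) F) :
    Matrix (Fin (p + 1) → Fin n) (Fin (p + 1) → Fin n) F :=
  fun i k => ∏ j, a j (i j) (k j)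

theorem tenM_one : tenM (fun _ : Fin (p + 1) => (1 : Matrix (Fin n) (Fin n) F)) = 1 := by
  ext i k
  unfold tenM
  by_cases h : i = k
  · subst h
    rw [Matrix.one_apply_eq]
    exact Finset.prod_eq_one fun j _ => Matrix.one_apply_eq _
  · rw [Matrix.one_apply_ne h]
    obtain ⟨j, hj⟩ := Function.ne_iff.1 h
    exact Finset.prod_eq_zero (Finset.mem_univ j) (Matrix.one_apply_ne hj)

theorem tenM_mul (a b : Fin (p + 1) → Matrix (Fin n) (Fin n) F) :
    tenM (fun j => a j * b j) = tenM a * tenM b := by
  ext i k
  rw [Matrix.mul_apply]
  unfold tenM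
  simp_rw [Matrix.mul_apply]
  rw [Finset.prod_univ_sum, Fintype.piFinset_univ]
  exact Finset.sum_congr rfl fun l _ => Finset.prod_mul_distrib

theorem tenM_smul (c : Fin (p + 1) → F) (a : Fin (p + 1) → Matrix (Fin n) (Fin n) F) :
    tenM (fun j => c j • a j) = (∏ j, c j) • tenM a := by
  ext i k
  rw [Matrix.smul_apply, smul_eq_mul]
  unfold tenM
  rw [← Finset.prod_mul_distrib]
  rfl

theorem tenM_trace (a : Fin (p + 1) → Matrix (Fin n) (Fin n) F) :
    (tenM a).trace = ∏ j, (a j).trace := by
  unfold Matrix.trace tenM
  rw [Finset.prod_univ_sum, Fintype.piFinset_univ]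
  rfl

theorem tenM_sum {ι : Type} [Fintype ι] (M : Fin (p + 1) → ι → Matrix (Fin n) (Fin n) F) :
    tenM (fun j => ∑ i, M j i) = ∑ i : Fin (p + 1) → ι, tenM (fun j => M j (i j)) := by
  ext i k
  rw [Matrix.sum_apply]
  unfold tenM
  simp_rw [Matrix.sum_apply]
  rw [Finset.prod_univ_sum, Fintype.piFinset_univ]

theorem tenM_single (i k : Fin (p + 1) → Fin n) :
    tenM (fun j => Matrix.single (i j) (k j) (1 : F)) = Matrix.single i k 1 := by
  ext i' k'
  unfold tenM
  by_cases h : i = i' ∧ k = k'
  · obtain ⟨rfl, rfl⟩ := h
    rw [Matrix.single_apply_same]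
    exact Finset.prod_eq_one fun j _ => Matrix.single_apply_same _ _ _
  · rw [Matrix.single_apply_of_ne _ _ _ _ _ h]
    have h' : ∃ j, ¬ (i j = i' j ∧ k j = k' j) := by
      by_contra hc
      push Not at hc
      exact h ⟨funext fun j => (hc j).1, funext fun j => (hc j).2⟩
    obtain ⟨j, hj⟩ := h'
    exact Finset.prod_eq_zero (Finset.mem_univ j) (Matrix.single_apply_of_ne _ _ _ _ _ hj)

/-- tensor products of elements of a spanning set span -/
theorem tenM_span (S : Set (Matrix (Fin n) (Fin n) F)) (hS : Submodule.span F S = ⊤) :
    Submodule.span F (tenM (p := p) '' {a | ∀ j, a j ∈ S}) = ⊤ := by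
  set U := Submodule.span F (tenM (p := p) '' {a | ∀ j, a j ∈ S}) with hU
  -- replace the factors one by one
  have key : ∀ J : Finset (Fin (p + 1)), ∀ a : Fin (p + 1) → Matrix (Fin n) (Fin n) F,
      (∀ j, j ∉ J → a j ∈ S) → tenM a ∈ U := by
    intro J
    induction J using Finset.induction_on with
    | empty =>
      intro a ha
      exact Submodule.subset_span ⟨a, fun j => ha j (Finset.notMem_empty j), rfl⟩
    | insert j J hj ih =>
      intro a ha
      have h1 : ∀ b ∈ Submodule.span F S, tenM (Function.update a j b) ∈ U := by
        intro b hb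
        induction hb using Submodule.span_induction with
        | mem b hb =>
          apply ih
          intro i hi
          by_cases hij : i = j
          · subst hij
            rw [Function.update_self]
            exact hb
          · rw [Function.update_of_ne hij]
            exact ha i (fun h => (Finset.mem_insert.1 h).elim hij hi)
        | zero =>
          have : tenM (Function.update a j (0 : Matrix (Fin n) (Fin n) F)) = 0 := by
            ext i k
            unfold tenM
            rw [Matrix.zero_apply]
            apply Finset.prod_eq_zero (Finset.mem_univ j)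
            rw [Function.update_self, Matrix.zero_apply]
          rw [this]
          exact U.zero_mem
        | add x y _ _ hx hy =>
          have : tenM (Function.update a j (x + y)) =
              tenM (Function.update a j x) + tenM (Function.update a j y) := by
            ext i k
            rw [Matrix.add_apply]
            unfold tenM
            rw [← Finset.mul_prod_erase _ _ (Finset.mem_univ j),
              ← Finset.mul_prod_erase _ _ (Finset.mem_univ j),
              ← Finset.mul_prod_erase _ _ (Finset.mem_univ j), Function.update_self,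
              Function.update_self, Function.update_self, Matrix.add_apply, add_mul]
            congr 1
            · congr 1
              refine Finset.prod_congr rfl fun l hl => ?_
              rw [Function.update_of_ne (Finset.ne_of_mem_erase hl),
                Function.update_of_ne (Finset.ne_of_mem_erase hl)]
            · congr 1
              refine Finset.prod_congr rfl fun l hl => ?_
              rw [Function.update_of_ne (Finset.ne_of_mem_erase hl),
                Function.update_of_ne (Finset.ne_of_mem_erase hl)]
          rw [this]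
          exact U.add_mem hx hy
        | smul c x _ hx =>
          have : tenM (Function.update a j (c • x)) = c • tenM (Function.update a j x) := by
            ext i k
            rw [Matrix.smul_apply, smul_eq_mul]
            unfold tenM
            rw [← Finset.mul_prod_erase _ _ (Finset.mem_univ j),
              ← Finset.mul_prod_erase _ _ (Finset.mem_univ j), Function.update_self,
              Function.update_self, Matrix.smul_apply, smul_eq_mul, mul_assoc]
            congr 2
            refine Finset.prod_congr rfl fun l hl => ?_
            rw [Function.update_of_ne (Finset.ne_of_mem_erase hl),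
              Function.update_of_ne (Finset.ne_of_mem_erase hl)]
          rw [this]
          exact U.smul_mem c hx
      have h2 := h1 (a j) (by rw [hS]; trivial)
      rwa [Function.update_eq_self] at h2
  rw [eq_top_iff]
  intro M _
  have h1 : M = ∑ i, ∑ k, M i k • Matrix.single i k (1 : F) := by
    conv_lhs => rw [Matrix.matrix_eq_sum_single M]
    refine Finset.sum_congr rfl fun i _ => Finset.sum_congr rfl fun k _ => ?_
    rw [Matrix.smul_single, smul_eq_mul, mul_one]
  rw [h1]
  refine Submodule.sum_mem _ fun i _ => Submodule.sum_mem _ fun k _ => Submodule.smul_mem _ _ ?_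
  rw [← tenM_single]
  exact key Finset.univ _ fun j hj => absurd (Finset.mem_univ j) hj

/-- the cyclic shift of the index functions -/
def cyc' (p n : ℕ) : Equiv.Perm (Fin (p + 1) → Fin n) where
  toFun i := Fin.cons (α := fun _ => Fin n) (i (Fin.last p)) (fun j : Fin p => i j.castSucc)
  invFun i := Fin.snoc (α := fun _ => Fin n) (fun j : Fin p => i j.succ) (i 0)
  left_inv i := by
    funext j
    refine Fin.lastCases ?_ (fun j => ?_) j
    · simp
    · simp
  right_inv i := by
    funext j
    refine Fin.cases ?_ (fun j => ?_) j
    · simp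
    · simp

/-- shifting the factors -/
theorem tenM_shift (a : Fin (p + 1) → Matrix (Fin n) (Fin n) F) (i k : Fin (p + 1) → Fin n) :
    tenM (Fin.cons (α := fun _ => Matrix (Fin n) (Fin n) F) (a (Fin.last p))
      (fun j : Fin p => a j.castSucc)) (cyc' p n i) (cyc' p n k) = tenM a i k := by
  unfold tenM
  rw [Fin.prod_univ_succ, Fin.prod_univ_castSucc, mul_comm]
  rfl

end ten

/-- TEN. -/
theorem ten : TenStmt := by
  intro F _ p n hn
  classical
  let N := Fintype.card (Fin (p + 1) → Fin n)
  let ε : (Fin (p + 1) → Fin n) ≃ Fin N := Fintype.equivFin _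
  let R := Matrix.reindexAlgEquiv F F ε
  let P : (Matrix (Fin (p + 1) → Fin n) (Fin (p + 1) → Fin n) F)ˣ :=
    { val := (cyc' p n).symm.toPEquiv.toMatrix
      inv := (cyc' p n).toPEquiv.toMatrix
      val_inv := by
        rw [← PEquiv.toMatrix_trans, ← Equiv.toPEquiv_trans, Equiv.symm_trans_self,
          Equiv.toPEquiv_refl, PEquiv.toMatrix_refl]
      inv_val := by
        rw [← PEquiv.toMatrix_trans, ← Equiv.toPEquiv_trans, Equiv.self_trans_symm,
          Equiv.toPEquiv_refl, PEquiv.toMatrix_refl] }
  refine ⟨N, fun a => R (tenM a), Units.map R.toRingEquiv.toMonoidHom P, ?_, ?_, ?_, ?_, ?_, ?_,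
    ?_, ?_, ?_⟩
  · exact Fintype.card_pos_iff.2 ⟨fun _ => ⟨0, hn⟩⟩
  · change R (tenM fun _ => 1) = 1
    rw [tenM_one, map_one]
  · intro a b
    change R (tenM fun j => a j * b j) = R (tenM a) * R (tenM b)
    rw [tenM_mul, map_mul]
  · intro c a
    change R (tenM fun j => c j • a j) = _ • R (tenM a)
    rw [tenM_smul, map_smul]
  · intro c
    change R (tenM fun j => Matrix.scalar (Fin n) (c j)) = _
    have h1 : (fun j => Matrix.scalar (Fin n) (c j)) =
        fun j => c j • (1 : Matrix (Fin n) (Fin n) F) := by
      funext j
      rw [Matrix.scalar_apply, ← Matrix.smul_one_eq_diagonal]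
    rw [h1, tenM_smul, map_smul, tenM_one, map_one, Matrix.scalar_apply,
      ← Matrix.smul_one_eq_diagonal]
  · intro a
    change (R (tenM a)).trace = _
    rw [← tenM_trace]
    change (Matrix.reindex ε ε (tenM a)).trace = _
    unfold Matrix.trace
    rw [← Equiv.sum_comp ε]
    refine Finset.sum_congr rfl fun i _ => ?_
    rw [Matrix.diag_apply, Matrix.diag_apply, Matrix.reindex_apply, Matrix.submatrix_apply,
      Equiv.symm_apply_apply]
  · intro ι _ M
    change R (tenM fun j => ∑ i, M j i) = ∑ i : Fin (p + 1) → ι, R (tenM fun j => M j (i j))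
    rw [tenM_sum, map_sum]
  · intro S hS
    have h1 : (fun a => R (tenM a)) '' {a : Fin (p + 1) → Matrix (Fin n) (Fin n) F | ∀ j, a j ∈ S} =
        R.toLinearMap '' (tenM (p := p) '' {a | ∀ j, a j ∈ S}) := by
      rw [Set.image_image]
      rfl
    rw [h1, Submodule.span_image, tenM_span S hS, Submodule.map_top, LinearMap.range_eq_top]
    exact R.surjective
  · intro a
    change R (P : Matrix _ _ F) * R (tenM a) = R (tenM _) * R (P : Matrix _ _ F)
    rw [← map_mul, ← map_mul]
    congr 1
    ext i k
    change (((cyc' p n).symm.toPEquiv.toMatrix :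
        Matrix (Fin (p + 1) → Fin n) (Fin (p + 1) → Fin n) F) * tenM a) i k =
      (tenM (Fin.cons (α := fun _ => Matrix (Fin n) (Fin n) F) (a (Fin.last p))
        (fun j : Fin p => a j.castSucc)) * ((cyc' p n).symm.toPEquiv.toMatrix :
        Matrix (Fin (p + 1) → Fin n) (Fin (p + 1) → Fin n) F)) i k
    rw [PEquiv.toMatrix_toPEquiv_mul, PEquiv.mul_toMatrix_toPEquiv, Matrix.submatrix_apply,
      Matrix.submatrix_apply]
    have h1 := tenM_shift a ((cyc' p n).symm i) k
    rw [Equiv.apply_symm_apply] at h1
    exact h1.symm

end Pool.Agent.PP.H18
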