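import Pool.Agent.Helper74_PP.Cen

/-!
# Squad PP, module STM, first part: twists by linear characters; the converse of the inflation of
the defect condition
-/

open scoped BigOperators

set_option linter.unusedSectionVars false

noncomputable section

namespace Pool.Agent.PP.H18

open Pool.Agent.PP Pool.Agent.Helper51_AWC Pool.Agent.Helper79_WRA

section twist

variable {F G : Type} [Field F] [Group G]

/-- the twist of a function by a linear character -/
def twl (χ : G →* Fˣ) (a : G → F) : G → F := fun x => a x * (χ x : F)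

theorem twl_inv (χ : G →* Fˣ) (a : G → F) : twl χ⁻¹ (twl χ a) = a := by
  funext x
  unfold twl
  rw [MonoidHom.inv_apply, Units.val_inv_eq_inv_val, mul_assoc, mul_inv_cancel₀ (χ x).ne_zero,
    mul_one]

theorem twl_inv' (χ : G →* Fˣ) (a : G → F) : twl χ (twl χ⁻¹ a) = a := by
  funext x
  unfold twl
  rw [MonoidHom.inv_apply, Units.val_inv_eq_inv_val, mul_assoc, inv_mul_cancel₀ (χ x).ne_zero,
    mul_one]

theorem twl_zero (χ : G →* Fˣ) : twl χ (0 : G → F) = 0 := by
  funext x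
  exact zero_mul _

theorem twl_smul (χ : G →* Fˣ) (c : F) (a : G → F) : twl χ (c • a) = c • twl χ a := by
  funext x
  exact mul_assoc _ _ _

theorem chi_conj (χ : G →* Fˣ) (x y : G) : χ (y * x * y⁻¹) = χ x := by
  rw [map_mul, map_mul, map_inv, mul_comm (χ y), mul_inv_cancel_right]

theorem twl_cl (χ : G →* Fˣ) {a : G → F} (ha : IsCl a) : IsCl (twl χ a) := by
  intro x y
  unfold twl
  rw [ha, chi_conj]

variable [Finite G]

theorem twl_mulF (χ : G →* Fˣ) (a b : G → F) :
    mulF (twl χ a) (twl χ b) = twl χ (mulF a b) := by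
  have := Fintype.ofFinite G
  funext x
  unfold twl mulF
  rw [finsum_eq_sum_of_fintype, finsum_eq_sum_of_fintype, Finset.sum_mul]
  refine Finset.sum_congr rfl fun t _ => ?_
  have h : (χ t : F) * (χ (t⁻¹ * x) : F) = (χ x : F) := by
    rw [← Units.val_mul, ← map_mul, mul_inv_cancel_left]
  rw [← h]
  ring

theorem twl_idem (χ : G →* Fˣ) {a : G → F} (ha : IsIdem a) : IsIdem (twl χ a) :=
  ⟨twl_cl χ ha.1, by rw [twl_mulF, ha.2]⟩

theorem twl_actF (χ : G →* Fˣ) (a f : G → F) :
    actF (twl χ a) (twl χ⁻¹ f) = twl χ⁻¹ (actF a f) := by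
  have := Fintype.ofFinite G
  funext x
  unfold twl actF
  rw [finsum_eq_sum_of_fintype, finsum_eq_sum_of_fintype, Finset.sum_mul]
  refine Finset.sum_congr rfl fun t _ => ?_
  have h : (χ t : F) * ((χ⁻¹ (t * x) : Fˣ) : F) = ((χ⁻¹ x : Fˣ) : F) := by
    rw [← Units.val_mul]
    congr 1
    rw [MonoidHom.inv_apply, MonoidHom.inv_apply, map_mul, mul_inv_rev, mul_left_comm,
      mul_inv_cancel, mul_one]
  rw [← h]
  ring

/-- the twist of a representation -/
def twR {n : ℕ} (χ : G →* Fˣ) (ρ : G →* Matrix (Fin n) (Fin n) F) :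
    G →* Matrix (Fin n) (Fin n) F where
  toFun x := (χ x : F) • ρ x
  map_one' := by rw [map_one, map_one, Units.val_one, one_smul]
  map_mul' x y := by
    rw [map_mul, map_mul, Units.val_mul, smul_mul_assoc, Matrix.mul_smul, smul_smul]

theorem twR_irr {n : ℕ} (χ : G →* Fˣ) {ρ : G →* Matrix (Fin n) (Fin n) F} (hρ : IsIrr ρ) :
    IsIrr (twR χ ρ) := by
  refine ⟨hρ.1, ?_⟩
  rw [eq_top_iff, ← hρ.2, Submodule.span_le]
  rintro _ ⟨x, rfl⟩
  have h1 : ρ x = ((χ x)⁻¹ : Fˣ) • (twR χ ρ x) := by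
    change ρ x = (((χ x)⁻¹ : Fˣ) : F) • ((χ x : F) • ρ x)
    rw [smul_smul, Units.val_inv_eq_inv_val, inv_mul_cancel₀ (χ x).ne_zero, one_smul]
  rw [SetLike.mem_coe, h1]
  exact Submodule.smul_mem _ (((χ x)⁻¹ : Fˣ) : F) (Submodule.subset_span ⟨x, rfl⟩)

theorem twl_tr {n : ℕ} (χ : G →* Fˣ) (ρ : G →* Matrix (Fin n) (Fin n) F) :
    tr (twR χ ρ) = twl χ (tr ρ) := by
  funext x
  change ((χ x : F) • ρ x).trace = (ρ x).trace * (χ x : F)
  rw [Matrix.trace_smul, smul_eq_mul, mul_comm]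

theorem twl_IBr (χ : G →* Fˣ) {f : G → F} (hf : f ∈ IBr F G) : twl χ f ∈ IBr F G := by
  obtain ⟨n, ρ, hρ, rfl⟩ := hf
  exact ⟨n, twR χ ρ, twR_irr χ hρ, (twl_tr χ ρ).symm⟩

end twist

section lnum

variable {F G : Type} [Field F] [Group G] [Finite G]

theorem twl_lnum (χ : G →* Fˣ) (X : Subgroup G) (a : G → F) : lnum X (twl χ a) = lnum X a := by
  unfold lnum
  set χ' : X →* Fˣ := χ.comp X.subtype with hχ'
  have h1 : (fun t : X => twl χ a t) = twl χ' (fun t : X => a t) := rfl
  rw [h1]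
  apply Set.ncard_congr (fun f _ => twl χ' f)
  · rintro f ⟨hf1, hf2⟩
    refine ⟨twl_IBr χ' hf1, ?_⟩
    have h2 := twl_actF χ' (fun t : X => a t) (twl χ' f)
    rw [twl_inv, hf2] at h2
    have h3 := congrArg (twl χ') h2
    rw [twl_inv'] at h3
    exact h3.symm
  · intro f g _ _ h
    have := congrArg (twl χ'⁻¹) h
    rwa [twl_inv, twl_inv] at this
  · rintro f ⟨hf1, hf2⟩
    refine ⟨twl χ'⁻¹ f, ⟨twl_IBr χ'⁻¹ hf1, ?_⟩, twl_inv' χ' f⟩
    rw [twl_actF, hf2]

theorem twl_YY {ℓ : ℕ} (χ : G →* Fˣ) (Q : Subgroup G) (a : G → F) :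
    YY ℓ Q (twl χ a) = YY ℓ Q a := by
  unfold YY
  exact Finset.sum_congr rfl fun d _ => by rw [twl_lnum]

theorem twl_clsum (χ : G →* Fˣ) (Q : Subgroup G) (x : G) :
    twl χ (clsum F Q x) = (χ x : F) • clsum F Q x := by
  funext y
  unfold twl clsum
  rw [Pi.smul_apply, smul_eq_mul]
  split_ifs with h
  · obtain ⟨q, _, rfl⟩ := h
    rw [chi_conj, one_mul, mul_one]
  · rw [zero_mul, mul_zero]

theorem smul_mulF' (c : F) (a b : G → F) : mulF (c • a) b = c • mulF a b := by
  have := Fintype.ofFinite G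
  funext x
  unfold mulF
  rw [finsum_eq_sum_of_fintype, Pi.smul_apply, finsum_eq_sum_of_fintype, smul_eq_mul,
    Finset.mul_sum]
  refine Finset.sum_congr rfl fun t _ => ?_
  rw [Pi.smul_apply, smul_eq_mul, mul_assoc]

theorem twl_Pos {ℓ : ℕ} (χ : G →* Fˣ) (Q : Subgroup G) {a : G → F} (h : Pos ℓ a Q) :
    Pos ℓ (twl χ a) Q := by
  intro x hx hdz
  obtain ⟨n, hn⟩ := h x hx hdz
  refine ⟨n, ?_⟩
  have h1 : ∀ b : G → F, mulF (clsum F Q x) (twl χ b) =
      ((χ x)⁻¹ : Fˣ) • twl χ (mulF (clsum F Q x) b) := by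
    intro b
    rw [← twl_mulF, twl_clsum, smul_mulF']
    change _ = (((χ x)⁻¹ : Fˣ) : F) • ((χ x : F) • mulF (clsum F Q x) (twl χ b))
    rw [smul_smul, Units.val_inv_eq_inv_val, inv_mul_cancel₀ (χ x).ne_zero, one_smul]
  have key : ∀ n : ℕ, (mulF (clsum F Q x))^[n] (twl χ a) =
      (((χ x)⁻¹ : Fˣ) : F) ^ n • twl χ ((mulF (clsum F Q x))^[n] a) := by
    intro n
    induction n with
    | zero => rw [Function.iterate_zero, pow_zero, one_smul]; rfl
    | succ n ih =>
      rw [Function.iterate_succ_apply', ih, H74.mulF_smul, h1, Function.iterate_succ_apply',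
        pow_succ, Units.smul_def, smul_smul]
  rw [key, hn, twl_zero, smul_zero]

end lnum

section inflation

variable {F E G : Type} [Field F] [Group E] [Group G] [Finite E] [Finite G] {ℓ : ℕ}
  (hF : GoodF ℓ F) (π : E →* G) (hπ : Function.Surjective π)
  (hk : (Nat.card π.ker).Coprime ℓ)

theorem card_cent (M : Subgroup G) (x : E) :
    Nat.card (Subgroup.centralizer ({x} : Set E) ⊓ M.comap π : Subgroup E) ∣
      Nat.card π.ker * Nat.card (Subgroup.centralizer ({π x} : Set G) ⊓ M : Subgroup G) := by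
  set A : Subgroup E := Subgroup.centralizer ({x} : Set E) ⊓ M.comap π
  have h1 : A ≤ (Subgroup.centralizer ({π x} : Set G) ⊓ M : Subgroup G).comap π := by
    intro y hy
    obtain ⟨h1, h2⟩ := Subgroup.mem_inf.1 hy
    refine Subgroup.mem_inf.2 ⟨?_, h2⟩
    rw [Subgroup.mem_centralizer_singleton_iff] at h1 ⊢
    rw [← map_mul, ← map_mul, h1]
  refine (Subgroup.card_dvd_of_le h1).trans ?_
  have h2 : Nat.card ((Subgroup.centralizer ({π x} : Set G) ⊓ M : Subgroup G).comap π) =
      Nat.card π.ker * Nat.card (((Subgroup.centralizer ({π x} : Set G) ⊓ M : Subgroup G).comap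
        π).map π) := by
    set B := (Subgroup.centralizer ({π x} : Set G) ⊓ M : Subgroup G).comap π with hB
    have h3 : π.ker ≤ B := by
      intro z hz
      have hz' : π z = 1 := hz
      rw [hB, Subgroup.mem_comap, hz']
      exact Subgroup.one_mem _
    have h4 := Subgroup.relIndex_ker (K := B) π
    have h5 : π.ker.relIndex B * Nat.card π.ker = Nat.card B := by
      rw [mul_comm]
      have := Subgroup.card_mul_index (π.ker.subgroupOf B)
      rw [← this, Subgroup.relIndex]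
      congr 1
      exact Nat.card_congr (Subgroup.subgroupOfEquivOfLe h3).symm.toEquiv
    rw [← h5, h4, mul_comm]
  rw [h2]
  exact Nat.mul_dvd_mul_left _ (Subgroup.card_dvd_of_le (Subgroup.map_comap_le _ _))

include hF hπ hk in
/-- the class sums and the inflation, with the factor -/
theorem infl_clsum' (M : Subgroup G) {x : E} (hx : x ∈ M.comap π)
    (h : ¬ ℓ ∣ Nat.card (Subgroup.centralizer ({π x} : Set G) ⊓ M : Subgroup G)) :
    ∃ w : F, w ≠ 0 ∧ ∀ b : G → F, mulF (clsum F (M.comap π) x) (H74.infl π b) =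
      w • H74.infl π (mulF (clsum F M (π x)) b) := by
  have hne := H74.natCast_ne hF hk
  have hkd : ¬ ℓ ∣ Nat.card π.ker := (Nat.Prime.coprime_iff_not_dvd hF.prime).1 hk.symm
  have hE : ¬ ℓ ∣ Nat.card (Subgroup.centralizer ({x} : Set E) ⊓ M.comap π : Subgroup E) := by
    intro hd
    rcases hF.prime.dvd_mul.1 (hd.trans (card_cent π M x)) with h1 | h1
    · exact hkd h1
    · exact h h1
  have hcE : (Nat.card (Subgroup.centralizer ({x} : Set E) ⊓ M.comap π : Subgroup E) : F) ≠ 0 :=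
    H74.natCast_ne hF ((Nat.Prime.coprime_iff_not_dvd hF.prime).2 hE).symm
  have hcG : (Nat.card (Subgroup.centralizer ({π x} : Set G) ⊓ M : Subgroup G) : F) ≠ 0 :=
    H74.natCast_ne hF ((Nat.Prime.coprime_iff_not_dvd hF.prime).2 h).symm
  set cE := Nat.card (Subgroup.centralizer ({x} : Set E) ⊓ M.comap π : Subgroup E)
  set cG := Nat.card (Subgroup.centralizer ({π x} : Set G) ⊓ M : Subgroup G) with hcG'
  refine ⟨(cE : F)⁻¹ * (cG * Nat.card π.ker),
    mul_ne_zero (inv_ne_zero hcE) (mul_ne_zero hcG hne), fun b => ?_⟩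
  funext y
  have h1 := H74.clsum_avg (M.comap π) hx (H74.infl π b) y
  have h2 := H74.clsum_avg M (x := π x) hx b (π y)
  have h3 : ∑ᶠ q : M.comap π, H74.infl π b ((q * x * (q : E)⁻¹)⁻¹ * y) =
      ∑ᶠ q : M, b ((q * π x * (q : G)⁻¹)⁻¹ * π y) := by
    have := Fintype.ofFinite (M.comap π)
    have := Fintype.ofFinite M
    rw [finsum_eq_sum_of_fintype, finsum_eq_sum_of_fintype]
    let p : M.comap π →* M := π.subgroupComap M
    have hp : Function.Surjective p := by
      rintro ⟨g, hg⟩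
      obtain ⟨x, rfl⟩ := hπ g
      exact ⟨⟨x, hg⟩, rfl⟩
    have hcard : Nat.card p.ker = Nat.card π.ker := by
      apply Nat.card_congr
      exact
        { toFun := fun x => ⟨x.1.1, congrArg Subtype.val x.2⟩
          invFun := fun x => ⟨⟨x.1, by
            change π x.1 ∈ M
            rw [show π x.1 = 1 from x.2]
            exact M.one_mem⟩, Subtype.ext x.2⟩
          left_inv := fun x => rfl
          right_inv := fun x => rfl }
    have h4 : ∀ q : M.comap π, H74.infl π b ((q * x * (q : E)⁻¹)⁻¹ * y) =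
        (fun q' : M => (Nat.card π.ker : F)⁻¹ * b ((q' * π x * (q' : G)⁻¹)⁻¹ * π y)) (p q) := by
      intro q
      change (Nat.card π.ker : F)⁻¹ * b (π ((q * x * (q : E)⁻¹)⁻¹ * y)) =
        (Nat.card π.ker : F)⁻¹ * b ((π q * π x * (π q)⁻¹)⁻¹ * π y)
      simp only [map_mul, map_inv]
    rw [Finset.sum_congr rfl (fun q _ => h4 q), H74.sum_comp_hom p hp (fun q' : M =>
      (Nat.card π.ker : F)⁻¹ * b ((q' * π x * (q' : G)⁻¹)⁻¹ * π y)), ← Finset.mul_sum,
      nsmul_eq_mul, hcard, ← mul_assoc, mul_inv_cancel₀ hne, one_mul]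
  rw [h3, ← h2] at h1
  rw [Pi.smul_apply, smul_eq_mul, H74.infl]
  rw [← hcG'] at h1
  have h5 : mulF (clsum F (M.comap π) x) (H74.infl π b) y = (cE : F)⁻¹ * (cG *
      mulF (clsum F M (π x)) b (π y)) := by
    rw [← h1, ← mul_assoc, inv_mul_cancel₀ hcE, one_mul]
  rw [h5]
  calc (cE : F)⁻¹ * (cG * mulF (clsum F M (π x)) b (π y)) =
      (cE : F)⁻¹ * (cG * (Nat.card π.ker * (Nat.card π.ker : F)⁻¹) *
        mulF (clsum F M (π x)) b (π y)) := by rw [mul_inv_cancel₀ hne, mul_one]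
    _ = _ := by ring

include hF hπ hk in
/-- the converse of `H74.infl_Pos` -/
theorem Pos_of_infl (e : G → F) (M : Subgroup G) (hpos : Pos ℓ (H74.infl π e) (M.comap π)) :
    Pos ℓ e M := by
  intro x0 hx0 h
  obtain ⟨x, rfl⟩ := hπ x0
  have hne := H74.natCast_ne hF hk
  have hkd : ¬ ℓ ∣ Nat.card π.ker := (Nat.Prime.coprime_iff_not_dvd hF.prime).1 hk.symm
  have hE : ¬ ℓ ∣ Nat.card (Subgroup.centralizer ({x} : Set E) ⊓ M.comap π : Subgroup E) := by
    intro hd
    rcases hF.prime.dvd_mul.1 (hd.trans (card_cent π M x)) with h1 | h1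
    · exact hkd h1
    · exact h h1
  obtain ⟨n, hn⟩ := hpos x hx0 hE
  obtain ⟨w, hw0, hw⟩ := infl_clsum' hF π hπ hk M hx0 h
  refine ⟨n, ?_⟩
  have key : ∀ n : ℕ, (mulF (clsum F (M.comap π) x))^[n] (H74.infl π e) =
      w ^ n • H74.infl π ((mulF (clsum F M (π x)))^[n] e) := by
    intro n
    induction n with
    | zero => simp
    | succ n ih =>
      rw [Function.iterate_succ_apply', ih, H74.mulF_smul, hw, Function.iterate_succ_apply',
        smul_smul, pow_succ]
  rw [key] at hn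
  funext y
  obtain ⟨z, rfl⟩ := hπ y
  have h1 := congrFun hn z
  rw [Pi.smul_apply, smul_eq_mul, Pi.zero_apply] at h1
  have h2 := (mul_eq_zero.1 h1).resolve_left (pow_ne_zero n hw0)
  exact (mul_eq_zero.1 h2).resolve_left (inv_ne_zero hne)

include hF hπ hk in
/-- the converse for idempotents -/
theorem idem_of_infl {e : G → F} (he : IsIdem (H74.infl π e)) : IsIdem e := by
  have hne := H74.natCast_ne hF hk
  have inj : ∀ a b : G → F, H74.infl π a = H74.infl π b → a = b := by
    intro a b h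
    funext y
    obtain ⟨z, rfl⟩ := hπ y
    exact mul_left_cancel₀ (inv_ne_zero hne) (congrFun h z)
  constructor
  · intro x y
    obtain ⟨x, rfl⟩ := hπ x
    obtain ⟨y, rfl⟩ := hπ y
    have := he.1 x y
    unfold H74.infl at this
    rw [map_mul, map_mul, map_inv] at this
    exact mul_left_cancel₀ (inv_ne_zero hne) this
  · apply inj
    rw [← H74.infl_mulF hF π hπ hk, he.2]

end inflation

end Pool.Agent.PP.H18
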